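import Pool.Agent.Y50.FE.BB.Dat

/-! Checks of components. -/

set_option autoImplicit false
set_option maxRecDepth 100000

namespace Pool.Agent.Y50.FE.BB

noncomputable def c2_0_0 : Crt := ⟨65538, 1, 1, [.an 32769 0 0 [0]],
 [false],
 [3]⟩

theorem t2_0_0 : c2_0_0.chk false E = true := by decide +kernel

noncomputable def c1_1_0 : Crt := ⟨65569, 1, 2, [.an 32800 0 0 [1]],
 [false, true],
 [1]⟩

theorem t1_1_0 : c1_1_0.chk false E = true := by decide +kernel

noncomputable def c1_0_1 : Crt := ⟨66561, 1, 1, [.an 33792 0 0 [2]],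
 [false, true],
 [1]⟩

theorem t1_0_1 : c1_0_1.chk false E = true := by decide +kernel

noncomputable def c0_2_0 : Crt := ⟨65600, 0, 1, [.an 32800 0 1 [1]],
 [false],
 [3]⟩

theorem t0_2_0 : c0_2_0.chk false E = true := by decide +kernel

noncomputable def c0_1_1 : Crt := ⟨66592, 0, 1, [.an 33792 0 1 [2]],
 [false, true],
 [1]⟩

theorem t0_1_1 : c0_1_1.chk false E = true := by decide +kernel

noncomputable def c0_0_2 : Crt := ⟨67584, 0, 0, [.an 33792 0 2 [2]],
 [false],
 [3]⟩

theorem t0_0_2 : c0_0_2.chk false E = true := by decide +kernel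

noncomputable def c2_1_0 : Crt := ⟨98338, 1, 1, [],
 [true],
 []⟩

theorem t2_1_0 : c2_1_0.chk false E = true := by decide +kernel

noncomputable def c2_0_1 : Crt := ⟨99330, 1, 1, [],
 [true],
 []⟩

theorem t2_0_1 : c2_0_1.chk false E = true := by decide +kernel

noncomputable def c1_2_0 : Crt := ⟨98369, 0, 1, [],
 [true],
 []⟩

theorem t1_2_0 : c1_2_0.chk false E = true := by decide +kernel

noncomputable def c1_1_1 : Crt := ⟨99361, 1, 2, [.an 66592 0 0 [2, 1]],
 [false, true, true],
 [1]⟩

theorem t1_1_1 : c1_1_1.chk false E = true := by decide +kernel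

noncomputable def c1_0_2 : Crt := ⟨100353, 0, 0, [],
 [true],
 []⟩

theorem t1_0_2 : c1_0_2.chk false E = true := by decide +kernel

noncomputable def c0_2_1 : Crt := ⟨99392, 0, 1, [],
 [true],
 []⟩

theorem t0_2_1 : c0_2_1.chk false E = true := by decide +kernel

noncomputable def c0_1_2 : Crt := ⟨100384, 0, 0, [],
 [true],
 []⟩

theorem t0_1_2 : c0_1_2.chk false E = true := by decide +kernel

noncomputable def c3_1_0 : Crt := ⟨131107, 1, 1, [],
 [true],
 []⟩

theorem t3_1_0 : c3_1_0.chk false E = true := by decide +kernel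

noncomputable def c3_0_1 : Crt := ⟨132099, 1, 1, [],
 [true],
 []⟩

theorem t3_0_1 : c3_0_1.chk false E = true := by decide +kernel

noncomputable def c2_2_0 : Crt := ⟨131138, 1, 2, [.an 98369 0 0 [1, 1, 0]],
 [false, true],
 [3]⟩

theorem t2_2_0 : c2_2_0.chk false E = true := by decide +kernel

noncomputable def c2_1_1 : Crt := ⟨132130, 2, 3, [.an 99361 0 0 [1, 2, 0]],
 [false, true, true, true],
 [1]⟩

theorem t2_1_1 : c2_1_1.chk false E = true := by decide +kernel

noncomputable def c2_0_2 : Crt := ⟨133122, 1, 1, [.an 100353 0 0 [2, 2, 0]],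
 [false, true],
 [3]⟩

theorem t2_0_2 : c2_0_2.chk false E = true := by decide +kernel

noncomputable def c1_3_0 : Crt := ⟨131169, 0, 1, [],
 [true],
 []⟩

theorem t1_3_0 : c1_3_0.chk false E = true := by decide +kernel

noncomputable def c1_2_1 : Crt := ⟨132161, 1, 3, [.an 99392 0 0 [1, 2, 1]],
 [false, true, true, true],
 [1]⟩

theorem t1_2_1 : c1_2_1.chk false E = true := by decide +kernel

noncomputable def c1_1_2 : Crt := ⟨133153, 1, 2, [.an 100384 0 0 [2, 2, 1]],
 [false, true, true, true],
 [1]⟩

theorem t1_1_2 : c1_1_2.chk false E = true := by decide +kernel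

noncomputable def c1_0_3 : Crt := ⟨134145, 0, 0, [],
 [true],
 []⟩

theorem t1_0_3 : c1_0_3.chk false E = true := by decide +kernel

noncomputable def c0_3_1 : Crt := ⟨132192, 0, 1, [],
 [true],
 []⟩

theorem t0_3_1 : c0_3_1.chk false E = true := by decide +kernel

noncomputable def c0_2_2 : Crt := ⟨133184, 0, 1, [.an 100384 0 1 [2, 2, 1]],
 [false, true],
 [3]⟩

theorem t0_2_2 : c0_2_2.chk false E = true := by decide +kernel

noncomputable def c0_1_3 : Crt := ⟨134176, 0, 0, [],
 [true],
 []⟩

theorem t0_1_3 : c0_1_3.chk false E = true := by decide +kernel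

noncomputable def c4_1_0 : Crt := ⟨163876, 1, 1, [.p1 32800 0 0],
 [false],
 [4]⟩

theorem t4_1_0 : c4_1_0.chk false E = true := by decide +kernel

noncomputable def c4_0_1 : Crt := ⟨164868, 1, 1, [.p1 33792 0 0],
 [false],
 [4]⟩

theorem t4_0_1 : c4_0_1.chk false E = true := by decide +kernel

noncomputable def c3_2_0 : Crt := ⟨163907, 1, 2, [.p31 32800 0 0 [1]],
 [false, true],
 [2]⟩

theorem t3_2_0 : c3_2_0.chk false E = true := by decide +kernel

noncomputable def c3_1_1 : Crt := ⟨164899, 3, 4, [.p31 33792 0 0 [1], .p31 32800 0 0 [2]],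
 [false, false, true, true, true],
 [0x22, 0x12]⟩

theorem t3_1_1 : c3_1_1.chk false E = true := by decide +kernel

noncomputable def c3_0_2 : Crt := ⟨165891, 1, 1, [.p31 33792 0 0 [2]],
 [false, true],
 [2]⟩

theorem t3_0_2 : c3_0_2.chk false E = true := by decide +kernel

noncomputable def c2_3_0 : Crt := ⟨163938, 1, 2, [.p31 32769 0 1 [0]],
 [false, true],
 [1]⟩

theorem t2_3_0 : c2_3_0.chk false E = true := by decide +kernel

noncomputable def c2_2_1 : Crt := ⟨164930, 3, 6, [.p211 33792 0 0 [1] [1], .p211 32800 0 0 [1] [2]],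
 [false, false, true, true, true, true, true],
 [0x1a, 0x22]⟩

theorem t2_2_1 : c2_2_1.chk false E = true := by decide +kernel

noncomputable def c2_1_2 : Crt := ⟨165922, 3, 4, [.p211 33792 0 0 [1] [2], .p211 32800 0 0 [2] [2]],
 [false, false, true, true, true, true, true],
 [0x1a, 8]⟩

theorem t2_1_2 : c2_1_2.chk false E = true := by decide +kernel

noncomputable def c2_0_3 : Crt := ⟨166914, 1, 1, [.p31 32769 0 2 [0]],
 [false, true],
 [1]⟩

theorem t2_0_3 : c2_0_3.chk false E = true := by decide +kernel

noncomputable def c1_4_0 : Crt := ⟨163969, 0, 1, [.p1 32769 0 1],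
 [false],
 [1]⟩

theorem t1_4_0 : c1_4_0.chk false E = true := by decide +kernel

noncomputable def c1_3_1 : Crt := ⟨164961, 1, 4, [.p31 33792 0 1 [0], .p31 32769 0 1 [2]],
 [false, false, true, true, true],
 [0x22, 1]⟩

theorem t1_3_1 : c1_3_1.chk false E = true := by decide +kernel

noncomputable def c1_2_2 : Crt := ⟨165953, 1, 4, [.p211 33792 0 1 [0] [2], .p211 32769 0 1 [2] [2]],
 [false, false, true, true, true, true, true],
 [0x10, 3]⟩

theorem t1_2_2 : c1_2_2.chk false E = true := by decide +kernel

noncomputable def c1_1_3 : Crt := ⟨166945, 1, 2, [.p31 32800 0 2 [0], .p31 32769 0 2 [1]],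
 [false, false, true, true, true],
 [8, 1]⟩

theorem t1_1_3 : c1_1_3.chk false E = true := by decide +kernel

noncomputable def c1_0_4 : Crt := ⟨167937, 0, 0, [.p1 32769 0 2],
 [false],
 [1]⟩

theorem t1_0_4 : c1_0_4.chk false E = true := by decide +kernel

noncomputable def c0_4_1 : Crt := ⟨164992, 0, 1, [.p1 33792 0 1],
 [false],
 [4]⟩

theorem t0_4_1 : c0_4_1.chk false E = true := by decide +kernel

noncomputable def c0_3_2 : Crt := ⟨165984, 0, 1, [.p31 33792 0 1 [2]],
 [false, true],
 [2]⟩

theorem t0_3_2 : c0_3_2.chk false E = true := by decide +kernel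

noncomputable def c0_2_3 : Crt := ⟨166976, 0, 1, [.p31 32800 0 2 [1]],
 [false, true],
 [1]⟩

theorem t0_2_3 : c0_2_3.chk false E = true := by decide +kernel

noncomputable def c0_1_4 : Crt := ⟨167968, 0, 0, [.p1 32800 0 2],
 [false],
 [1]⟩

theorem t0_1_4 : c0_1_4.chk false E = true := by decide +kernel

noncomputable def c4_2_0 : Crt := ⟨196676, 1, 1, [],
 [true],
 []⟩

theorem t4_2_0 : c4_2_0.chk false E = true := by decide +kernel

noncomputable def c4_1_1 : Crt := ⟨197668, 3, 3, [.p1 66592 0 0],
 [false, true, true],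
 [4]⟩

theorem t4_1_1 : c4_1_1.chk false E = true := by decide +kernel

noncomputable def c4_0_2 : Crt := ⟨198660, 1, 1, [],
 [true],
 []⟩

theorem t4_0_2 : c4_0_2.chk false E = true := by decide +kernel

noncomputable def c3_3_0 : Crt := ⟨196707, 1, 2, [],
 [true, true],
 []⟩

theorem t3_3_0 : c3_3_0.chk false E = true := by decide +kernel

noncomputable def c3_2_1 : Crt := ⟨197699, 5, 8, [.p31 66592 0 0 [1], .p31 32800 0 0 [1, 2]],
 [false, false, true, true, true, true, true, true, true],
 [0x12, 0xc]⟩

theorem t3_2_1 : c3_2_1.chk false E = true := by decide +kernel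

noncomputable def c3_1_2 : Crt := ⟨198691, 5, 6, [.p31 66592 0 0 [2], .p31 33792 0 0 [1, 2]],
 [false, false, true, true, true, true, true, true, true],
 [8, 0x1a]⟩

theorem t3_1_2 : c3_1_2.chk false E = true := by decide +kernel

noncomputable def c3_0_3 : Crt := ⟨199683, 1, 1, [],
 [true, true],
 []⟩

theorem t3_0_3 : c3_0_3.chk false E = true := by decide +kernel

noncomputable def c2_4_0 : Crt := ⟨196738, 0, 1, [],
 [true],
 []⟩

theorem t2_4_0 : c2_4_0.chk false E = true := by decide +kernel

noncomputable def c2_3_1 : Crt := ⟨197730, 3, 8, [.p31 66561 0 1 [0], .p31 32769 0 1 [0, 2]],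
 [false, true, false, true, true, true, true, true, true],
 [0x24, 1]⟩

theorem t2_3_1 : c2_3_1.chk false E = true := by decide +kernel

noncomputable def c2_2_2 : Crt := ⟨198722, 5, 10, [.p211 66592 0 0 [1] [2], .p211 33792 0 0 [1] [1, 2], .p211 32800 0 0 [2] [1, 2], .an 165953 0 0 [1, 2, 1, 2, 0]],
 [false, false, false, false, true, true, true, true, true, true, true, true, true, true, true],
 [0x702, 0x901, 0x209, 0x444]⟩

theorem t2_2_2 : c2_2_2.chk false E = true := by decide +kernel

noncomputable def c2_1_3 : Crt := ⟨199714, 3, 4, [.p31 65569 0 2 [0], .p31 32769 0 2 [0, 1]],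
 [false, true, false, true, true, true, true, true, true],
 [0x24, 8]⟩

theorem t2_1_3 : c2_1_3.chk false E = true := by decide +kernel

noncomputable def c2_0_4 : Crt := ⟨200706, 0, 0, [],
 [true],
 []⟩

theorem t2_0_4 : c2_0_4.chk false E = true := by decide +kernel

noncomputable def c1_4_1 : Crt := ⟨197761, 0, 3, [.p1 66561 0 1],
 [false, true, true],
 [4]⟩

theorem t1_4_1 : c1_4_1.chk false E = true := by decide +kernel

noncomputable def c1_3_2 : Crt := ⟨198753, 1, 6, [.p31 66561 0 1 [2], .p31 33792 0 1 [0, 2]],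
 [false, true, false, true, true, true, true, true, true],
 [0x1c, 0x20]⟩

theorem t1_3_2 : c1_3_2.chk false E = true := by decide +kernel

noncomputable def c1_2_3 : Crt := ⟨199745, 1, 4, [.p31 65569 0 2 [1], .p31 32800 0 2 [0, 1]],
 [false, true, true, false, true, true, true, true, true],
 [0xa, 8]⟩

theorem t1_2_3 : c1_2_3.chk false E = true := by decide +kernel

noncomputable def c1_1_4 : Crt := ⟨200737, 0, 0, [.p1 65569 0 2],
 [true, true, false],
 [1]⟩

theorem t1_1_4 : c1_1_4.chk false E = true := by decide +kernel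

noncomputable def c0_4_2 : Crt := ⟨198784, 0, 1, [],
 [true],
 []⟩

theorem t0_4_2 : c0_4_2.chk false E = true := by decide +kernel

noncomputable def c0_3_3 : Crt := ⟨199776, 0, 1, [],
 [true, true],
 []⟩

theorem t0_3_3 : c0_3_3.chk false E = true := by decide +kernel

noncomputable def c0_2_4 : Crt := ⟨200768, 0, 0, [],
 [true],
 []⟩

theorem t0_2_4 : c0_2_4.chk false E = true := by decide +kernel

noncomputable def c5_2_0 : Crt := ⟨229445, 1, 1, [.p1 98369 0 0],
 [false],
 [3]⟩

theorem t5_2_0 : c5_2_0.chk false E = true := by decide +kernel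

noncomputable def c5_1_1 : Crt := ⟨230437, 2, 2, [.p1 99361 0 0],
 [false, true],
 [1]⟩

theorem t5_1_1 : c5_1_1.chk false E = true := by decide +kernel

noncomputable def c5_0_2 : Crt := ⟨231429, 1, 1, [.p1 100353 0 0],
 [false],
 [3]⟩

theorem t5_0_2 : c5_0_2.chk false E = true := by decide +kernel

noncomputable def c4_3_0 : Crt := ⟨229476, 2, 3, [.p31 98369 0 0 [1]],
 [false, true, true],
 [4]⟩

theorem t4_3_0 : c4_3_0.chk false E = true := by decide +kernel

noncomputable def c4_2_1 : Crt := ⟨230468, 7, 9, [.p1 99392 0 0, .p31 99361 0 0 [1], .p31 98369 0 0 [2], .p31 33792 0 0 [1, 0, 1]],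
 [false, false, false, false, true, true, true, true, true, true],
 [0x61, 0x890, 0x1c, 0xa1]⟩

theorem t4_2_1 : c4_2_1.chk false E = true := by decide +kernel

noncomputable def c4_1_2 : Crt := ⟨231460, 7, 8, [.p1 100384 0 0, .p31 100353 0 0 [1], .p31 99361 0 0 [2], .p31 33792 0 0 [2, 0, 1]],
 [false, false, false, false, true, true, true, true, true, true],
 [0x6da, 0x6d1, 0x820, 0xc3]⟩

theorem t4_1_2 : c4_1_2.chk false E = true := by decide +kernel

noncomputable def c4_0_3 : Crt := ⟨232452, 2, 2, [.p31 100353 0 0 [2]],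
 [false, true, true],
 [4]⟩

theorem t4_0_3 : c4_0_3.chk false E = true := by decide +kernel

noncomputable def c3_4_0 : Crt := ⟨229507, 1, 3, [.p31 98338 0 1 [0]],
 [false, true, true],
 [1]⟩

theorem t3_4_0 : c3_4_0.chk false E = true := by decide +kernel

noncomputable def c3_3_1 : Crt := ⟨230499, 7, 14, [.p31 99392 0 0 [1], .p31 99330 0 1 [0], .p211 98369 0 0 [1] [2], .p31 32800 0 0 [1, 1, 2], .p31 32769 0 1 [0, 0, 2]],
 [false, false, false, false, false, true, true, true, true, true, true, true, true, true, true, true],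
 [0x1862, 0x420a, 0x922, 0x200, 0x4300]⟩

theorem t3_3_1 : c3_3_1.chk false E = true := by decide +kernel

noncomputable def c3_2_2 : Crt := ⟨231491, 11, 18, [.p31 100384 0 0 [1], .p31 99392 0 0 [2], .p211 100353 0 0 [1] [1], .p211 99361 0 0 [1] [2], .p211 98369 0 0 [2] [2], .p31 66592 0 0 [1, 2], .p31 33792 0 0 [1, 1, 2], .p31 32800 0 0 [2, 1, 2], .p211 33792 0 0 [1] [2, 0, 1]],
 [false, false, false, false, false, false, false, false, false, true, true, true, true, true, true, true, true, true, true, true, true, true, true, true, true],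
 [0x18532da, 0x20169b, 0x1882460, 0x200a413, 0x30c108, 0x4822000, 0x4318893, 0x20410e3, 0x405c600]⟩

theorem t3_2_2 : c3_2_2.chk false E = true := by decide +kernel

noncomputable def c3_1_3 : Crt := ⟨232483, 7, 9, [.p31 100384 0 0 [2], .p31 98338 0 2 [0], .p211 100353 0 0 [1] [2], .p31 33792 0 0 [2, 1, 2], .p31 32769 0 2 [0, 0, 1]],
 [false, false, false, false, true, true, false, true, true, true, true, true, true, true, true, true],
 [0x1088, 0x440a, 0x3213, 0x2923, 0x200]⟩

theorem t3_1_3 : c3_1_3.chk false E = true := by decide +kernel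

noncomputable def c3_0_4 : Crt := ⟨233475, 1, 1, [.p31 99330 0 2 [0]],
 [false, true, true],
 [1]⟩

theorem t3_0_4 : c3_0_4.chk false E = true := by decide +kernel

noncomputable def c2_5_0 : Crt := ⟨229538, 0, 1, [.p1 98338 0 1],
 [false],
 [1]⟩

theorem t2_5_0 : c2_5_0.chk false E = true := by decide +kernel

noncomputable def c2_4_1 : Crt := ⟨230530, 2, 9, [.p1 99330 0 1, .p31 99361 1 1 [0], .p31 98338 0 1 [2], .p31 33792 0 1 [0, 0, 1]],
 [false, false, true, true, true, false, false, true, true, true],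
 [0x8c2, 0x45b, 0x200, 8]⟩

theorem t2_4_1 : c2_4_1.chk false E = true := by decide +kernel

noncomputable def c2_3_2 : Crt := ⟨231522, 7, 18, [.p31 100353 0 1 [0], .p31 99330 0 1 [2], .p211 100384 0 0 [1] [1], .p211 99392 0 0 [1] [2], .p211 98338 0 1 [2] [2], .p31 66561 0 1 [0, 2], .p31 33792 0 1 [0, 0, 2], .p31 32769 0 1 [2, 0, 2], .p211 33792 0 0 [1] [1, 1, 2]],
 [false, false, false, false, false, false, false, true, true, false, true, true, false, true, true, true, true, true, true, true, true, true, true, true, true],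
 [0x4048a4, 0x40010c9, 0x485b894, 0x48a3281, 0x3402081, 0x22028cc, 0x202020, 0x200000, 0x3000]⟩

theorem t2_3_2 : c2_3_2.chk false E = true := by decide +kernel

noncomputable def c2_2_3 : Crt := ⟨232514, 7, 14, [.p31 98369 0 2 [0], .p31 98338 0 2 [1], .p211 100384 0 0 [1] [2], .p211 99392 0 0 [2] [2], .p211 100353 0 1 [0] [2], .p31 65569 0 2 [0, 1], .p31 32800 0 2 [0, 0, 1], .p31 32769 0 2 [1, 0, 1], .p211 33792 0 0 [1] [2, 1, 2]],
 [false, false, false, false, false, false, false, true, false, true, true, true, true, false, true, true, true, true, true, true, true, true, true, true, true],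
 [0x10dc8e3, 0x191c092, 0x2920883, 0x291c0da, 0x1641258, 0x2451893, 0x1000000, 0x125c000, 0x200000]⟩

theorem t2_2_3 : c2_2_3.chk false E = true := by decide +kernel

noncomputable def c2_1_4 : Crt := ⟨233506, 2, 3, [.p1 98338 0 2, .p31 99361 0 2 [0], .p31 99330 0 2 [1], .p31 32800 0 2 [0, 0, 2]],
 [false, false, false, true, true, true, true, true, true, false],
 [0x8c2, 0x440, 8, 0x200]⟩

theorem t2_1_4 : c2_1_4.chk false E = true := by decide +kernel

noncomputable def c2_0_5 : Crt := ⟨234498, 0, 0, [.p1 99330 0 2],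
 [false],
 [1]⟩

theorem t2_0_5 : c2_0_5.chk false E = true := by decide +kernel

noncomputable def c1_5_1 : Crt := ⟨230561, 0, 2, [.p1 99361 1 1],
 [false, true],
 [4]⟩

theorem t1_5_1 : c1_5_1.chk false E = true := by decide +kernel

noncomputable def c1_4_2 : Crt := ⟨231553, 1, 8, [.p1 100353 0 1, .p31 100384 0 1 [0], .p31 99361 1 1 [2], .p31 33792 0 1 [2, 0, 1]],
 [false, false, false, true, false, true, true, true, true, true],
 [0x9a, 0x689, 0x2e4, 0x20]⟩

theorem t1_4_2 : c1_4_2.chk false E = true := by decide +kernel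

noncomputable def c1_3_3 : Crt := ⟨232545, 2, 9, [.p31 100353 0 1 [2], .p31 98369 0 2 [1], .p211 100384 0 1 [0] [2], .p31 33792 0 1 [2, 0, 2], .p31 32800 0 2 [1, 0, 1]],
 [false, false, false, false, true, true, true, true, false, true, true, true, true, true, true, true],
 [0x4910, 0x1891, 0x4289, 0x4000, 0x200]⟩

theorem t1_3_3 : c1_3_3.chk false E = true := by decide +kernel

noncomputable def c1_2_4 : Crt := ⟨233537, 1, 3, [.p1 98369 0 2, .p31 99392 0 2 [0], .p31 99361 0 2 [1], .p31 32800 0 2 [1, 0, 2]],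
 [false, false, false, true, true, true, true, true, true, false],
 [0x840, 0x49c, 8, 0x200]⟩

theorem t1_2_4 : c1_2_4.chk false E = true := by decide +kernel

noncomputable def c1_1_5 : Crt := ⟨234529, 0, 0, [.p1 99361 0 2],
 [true, false],
 [1]⟩

theorem t1_1_5 : c1_1_5.chk false E = true := by decide +kernel

noncomputable def c0_5_2 : Crt := ⟨231584, 0, 1, [.p1 100384 0 1],
 [false],
 [3]⟩

theorem t0_5_2 : c0_5_2.chk false E = true := by decide +kernel

noncomputable def c0_4_3 : Crt := ⟨232576, 0, 2, [.p31 100384 0 1 [2]],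
 [false, true, true],
 [4]⟩

theorem t0_4_3 : c0_4_3.chk false E = true := by decide +kernel

noncomputable def c0_3_4 : Crt := ⟨233568, 0, 1, [.p31 99392 0 2 [1]],
 [false, true, true],
 [1]⟩

theorem t0_3_4 : c0_3_4.chk false E = true := by decide +kernel

noncomputable def c0_2_5 : Crt := ⟨234560, 0, 0, [.p1 99392 0 2],
 [false],
 [1]⟩

theorem t0_2_5 : c0_2_5.chk false E = true := by decide +kernel

noncomputable def c6_1_1 : Crt := ⟨263206, 1, 1, [.p1 132130 1 0],
 [false],
 [1]⟩

theorem t6_1_1 : c6_1_1.chk false E = true := by decide +kernel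

noncomputable def c5_3_0 : Crt := ⟨262245, 2, 2, [.p1 131169 0 0],
 [false, true],
 [1]⟩

theorem t5_3_0 : c5_3_0.chk false E = true := by decide +kernel

noncomputable def c5_2_1 : Crt := ⟨263237, 6, 7, [.p1 132161 0 0, .p1 132161 1 0, .p31 132130 1 0 [1]],
 [false, false, false, true, true, true, true],
 [4, 0xd4, 0x8a]⟩

theorem t5_2_1 : c5_2_1.chk false E = true := by decide +kernel

noncomputable def c5_1_2 : Crt := ⟨264229, 6, 6, [.p1 133153 0 0, .p1 133153 1 0, .p31 132130 1 0 [2]],
 [false, false, false, true, true, true, true],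
 [0x114, 0x49, 0x119]⟩

theorem t5_1_2 : c5_1_2.chk false E = true := by decide +kernel

noncomputable def c5_0_3 : Crt := ⟨265221, 2, 2, [.p1 134145 0 0],
 [false, true],
 [1]⟩

theorem t5_0_3 : c5_0_3.chk false E = true := by decide +kernel

noncomputable def c4_4_0 : Crt := ⟨262276, 2, 4, [.p31 131169 0 0 [1], .an 229507 0 0 [1, 0, 1, 1, 0, 1, 0]],
 [false, false, true, true],
 [0x21, 8]⟩

theorem t4_4_0 : c4_4_0.chk false E = true := by decide +kernel

noncomputable def c4_3_1 : Crt := ⟨263268, 11, 17, [.p1 132192 0 0, .p31 132161 0 0 [1], .p31 132161 1 0 [1], .p31 131169 0 0 [2], .p31 132099 0 1 [0], .p31 98369 0 0 [1, 2], .p31 66592 0 0 [1, 0, 1], .an 230499 2 0 [1, 0, 1, 1, 0, 2, 0]],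
 [false, false, false, false, false, false, false, false, true, true, true, true, true, true, true, true, true, true, true],
 [0x8da45b, 0x3601, 0x100708, 0x8d045b, 0x4c4111, 0x68c49b, 0x200, 0x819800]⟩

theorem t4_3_1 : c4_3_1.chk false E = true := by decide +kernel

noncomputable def c4_2_2 : Crt := ⟨264260, 16, 22, [.p1 133184 0 0, .p31 133153 0 0 [1], .p31 133153 1 0 [1], .p31 132161 0 0 [2], .p31 132161 1 0 [2], .p211 132130 1 0 [1] [2], .p31 99361 0 0 [1, 2], .p31 66592 0 0 [2, 0, 1], .an 231491 2 0 [1, 0, 2, 0, 2, 1, 0], .an 231491 3 0 [1, 0, 2, 1, 0, 2, 0]],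
 [false, false, false, false, false, false, false, false, false, true, false, true, true, true, true, true, true, true, true, true, true, true, true, true, true, true, true, true],
 [0x24a453, 0x8058000, 0x11012054, 0xb12270c, 0x208d391a, 0x2804a2, 0x22413253, 0x18c46cb, 0x4619000, 0x1c500211]⟩

theorem t4_2_2 : c4_2_2.chk false E = true := by decide +kernel

noncomputable def c4_1_3 : Crt := ⟨265252, 11, 13, [.p1 134176 0 0, .p31 134145 0 0 [1], .p31 133153 0 0 [2], .p31 133153 1 0 [2], .p31 131107 0 2 [0], .p31 100353 0 0 [1, 2], .p31 66592 0 0 [2, 0, 2], .an 232483 2 0 [1, 0, 2, 2, 0, 2, 0]],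
 [false, false, false, false, false, false, false, true, true, true, false, true, true, true, true, true, true, true, true],
 [0x462054, 0x24c4cc, 0x48a261, 0x243800, 0x511719, 0x7034a1, 0x814299, 0x200]⟩

theorem t4_1_3 : c4_1_3.chk false E = true := by decide +kernel

noncomputable def c4_0_4 : Crt := ⟨266244, 2, 2, [.p31 134145 0 0 [2], .an 233475 0 0 [2, 0, 2, 2, 0, 2, 0]],
 [false, false, true, true],
 [0x21, 8]⟩

theorem t4_0_4 : c4_0_4.chk false E = true := by decide +kernel

noncomputable def c3_5_0 : Crt := ⟨262307, 0, 2, [.p1 131107 0 1],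
 [true, false],
 [1]⟩

theorem t3_5_0 : c3_5_0.chk false E = true := by decide +kernel

noncomputable def c3_4_1 : Crt := ⟨263299, 6, 17, [.p1 132099 0 1, .p31 132192 0 0 [1], .p31 132130 0 1 [0], .p31 132130 2 1 [0], .p31 131107 0 1 [2], .p31 98338 0 1 [0, 2], .p31 66561 0 1 [0, 0, 1], .an 230530 0 0 [1, 0, 1, 2, 1, 1, 0]],
 [false, false, false, false, false, false, true, true, true, true, true, true, false, false, true, true, true, true, true],
 [0x8190d3, 0x4984c9, 0x808600, 0x8830d9, 0x2c1654, 0x240, 0x200000, 0x200]⟩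

theorem t3_4_1 : c3_4_1.chk false E = true := by decide +kernel

noncomputable def c3_3_2 : Crt := ⟨264291, 16, 32, [.p31 133184 0 0 [1], .p31 132192 0 0 [2], .p31 133122 0 1 [0], .p31 132099 0 1 [2], .p211 133153 1 0 [1] [1], .p211 132161 0 0 [1] [2], .p211 132161 1 0 [1] [2], .p211 131169 0 0 [2] [2], .p31 99392 0 0 [1, 2], .p31 99330 0 1 [0, 2], .p211 98369 0 0 [2] [1, 2], .p31 66592 0 0 [1, 1, 2], .p31 66561 0 1 [0, 0, 2], .an 231522 0 0 [1, 0, 2, 2, 1, 1, 0], .an 231522 1 0 [1, 1, 0, 2, 2, 1, 0]],
 [false, false, false, false, false, false, false, false, false, false, false, true, false, false, true, true, true, true, true, true, true, false, true, true, false, true, true, true, true, true, true, true, true, true, true, true, true, true, true, true, true, true, true],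
 [0xd405a8c0114, 0x144c94d9684, 0x828a3091512, 0x1034a4108513, 0xe20d091080a, 0x921088dc65b, 0x5984a25865a, 0xd029350b05a, 0x4800b400000, 0x1029230e1919, 0x124002e1664, 0x180c1208000, 0xc1649000, 0x200000000, 0x20903600000]⟩

theorem t3_3_2 : c3_3_2.chk false E = true := by decide +kernel

noncomputable def c3_2_3 : Crt := ⟨265283, 16, 27, [.p31 134176 0 0 [1], .p31 133184 0 0 [2], .p31 131138 0 2 [0], .p31 131107 0 2 [1], .p211 134145 0 0 [1] [1], .p211 133153 0 0 [1] [2], .p211 133153 1 0 [1] [2], .p211 132161 0 0 [2] [2], .p31 100384 0 0 [1, 2], .p31 98338 0 2 [0, 1], .p211 100353 0 0 [1] [1, 2], .p31 66592 0 0 [2, 1, 2], .p31 65569 0 2 [0, 0, 1], .an 232514 0 0 [1, 0, 2, 2, 1, 2, 0], .an 232514 2 0 [1, 2, 1, 2, 0, 2, 0]],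
 [false, false, false, false, false, false, false, false, false, false, false, false, true, true, true, false, true, true, true, false, true, true, true, true, true, true, false, true, true, true, true, true, true, true, true, true, true, true, true, true, true, true, true],
 [0x1086ca7212a4, 0xd305b453403, 0xcc314642901, 0xd80db4c3249, 0x112450619449, 0x1440b4d1058, 0x108293718709, 0xc4889512449, 0x5b698882924, 0x22522014724, 0x4200020000, 0xda20a71960c, 0x1000000000, 0x618c3400000, 0x200000000]⟩

theorem t3_2_3 : c3_2_3.chk false E = true := by decide +kernel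

noncomputable def c3_1_4 : Crt := ⟨266275, 6, 8, [.p1 131107 0 2, .p31 134176 0 0 [2], .p31 132130 0 2 [0], .p31 132130 1 2 [0], .p31 132099 0 2 [1], .p31 99330 0 2 [0, 1], .p31 65569 0 2 [0, 0, 2], .an 233506 0 0 [2, 0, 2, 2, 1, 2, 0]],
 [false, false, false, false, false, false, true, false, true, true, true, true, true, true, true, true, true, true, false],
 [0x523718, 0x88161c, 0x620018, 0x8c3111, 0x608000, 0x601000, 0x200, 0x200000]⟩

theorem t3_1_4 : c3_1_4.chk false E = true := by decide +kernel

noncomputable def c3_0_5 : Crt := ⟨267267, 0, 0, [.p1 132099 0 2],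
 [true, false],
 [1]⟩

theorem t3_0_5 : c3_0_5.chk false E = true := by decide +kernel

noncomputable def c2_5_1 : Crt := ⟨263330, 1, 7, [.p1 132130 0 1, .p1 132130 2 1, .p31 132161 2 1 [0]],
 [false, true, true, false, false, true, true],
 [0x9c, 0x40, 0x20]⟩

theorem t2_5_1 : c2_5_1.chk false E = true := by decide +kernel

noncomputable def c2_4_2 : Crt := ⟨264322, 6, 22, [.p1 133122 0 1, .p31 133153 1 1 [0], .p31 133153 2 1 [0], .p31 132130 0 1 [2], .p31 132130 2 1 [2], .p211 132192 0 0 [1] [2], .p31 99361 1 1 [0, 2], .p31 66561 0 1 [2, 0, 1], .an 231553 0 0 [1, 1, 2, 1, 2, 1, 0], .an 231553 1 0 [1, 2, 1, 1, 2, 1, 0]],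
 [false, false, false, false, false, false, true, true, false, false, false, true, true, true, false, true, true, true, true, true, true, true, true, true, true, true, true, true],
 [0x20c4653, 0x391131a, 0x2181a6d1, 0x88c8864, 0x104cb488, 0x1c04001a, 0x40000, 0x20000000, 0x44536a2, 0x20000]⟩

theorem t2_4_2 : c2_4_2.chk false E = true := by decide +kernel

noncomputable def c2_3_3 : Crt := ⟨265314, 11, 27, [.p31 134145 0 1 [0], .p31 133122 0 1 [2], .p31 131169 0 2 [0], .p31 131138 0 2 [1], .p211 134176 0 0 [1] [1], .p211 133184 0 0 [1] [2], .p211 132192 0 0 [2] [2], .p211 133153 1 1 [0] [2], .p31 100353 0 1 [0, 2], .p31 98369 0 2 [0, 1], .p211 100384 0 0 [1] [1, 2], .p31 66561 0 1 [2, 0, 2], .p31 65569 0 2 [1, 0, 1], .an 232545 0 0 [1, 2, 1, 2, 1, 2, 0], .an 232545 2 0 [1, 2, 2, 1, 1, 2, 0]],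
 [false, false, false, false, false, false, false, false, false, false, false, true, false, true, false, false, true, true, true, true, true, true, true, true, true, true, false, true, true, true, true, true, true, true, true, true, true, true, true, true, true, true, true],
 [0x4051b11c410, 0x8c2a00548d2, 0x9b2c209c65b, 0x5301128160b, 0x5b8610a4423, 0x842502212a2, 0x40024501090, 0x92148db50a, 0x22cb653062, 0x2301928a663, 0x1000000000, 0xa01124d8498, 0x620e4800000, 0x20000000000, 0x200000000]⟩

theorem t2_3_3 : c2_3_3.chk false E = true := by decide +kernel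

noncomputable def c2_2_4 : Crt := ⟨266306, 6, 12, [.p1 131138 0 2, .p31 132161 0 2 [0], .p31 132161 1 2 [0], .p31 132130 0 2 [1], .p31 132130 1 2 [1], .p211 134176 0 0 [1] [2], .p31 99361 0 2 [0, 1], .p31 65569 0 2 [1, 0, 2], .an 233537 0 0 [2, 1, 2, 1, 2, 2, 0], .an 233537 1 0 [2, 1, 2, 2, 1, 2, 0]],
 [false, false, false, false, false, false, false, true, true, true, false, false, true, true, true, true, true, true, true, true, true, true, true, true, true, true, true, false],
 [0x190d820b, 0x1b2db4c9, 0x22432c8, 0x20900040, 0x1000000, 0x8200000, 0x94e1851, 0x40000, 0x8000, 0x8000000]⟩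

theorem t2_2_4 : c2_2_4.chk false E = true := by decide +kernel

noncomputable def c2_1_5 : Crt := ⟨267298, 1, 1, [.p1 132130 0 2, .p1 132130 1 2, .p31 133153 0 2 [0]],
 [false, true, true, true, true, false, false],
 [0x99, 0x40, 8]⟩

theorem t2_1_5 : c2_1_5.chk false E = true := by decide +kernel

noncomputable def c1_6_1 : Crt := ⟨263361, 0, 1, [.p1 132161 2 1],
 [false],
 [4]⟩

theorem t1_6_1 : c1_6_1.chk false E = true := by decide +kernel

noncomputable def c1_5_2 : Crt := ⟨264353, 0, 6, [.p1 133153 1 1, .p1 133153 2 1, .p31 132161 2 1 [2]],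
 [false, false, true, false, true, true, true],
 [0x108, 0x58, 4]⟩

theorem t1_5_2 : c1_5_2.chk false E = true := by decide +kernel

noncomputable def c1_4_3 : Crt := ⟨265345, 2, 13, [.p1 134145 0 1, .p31 134176 0 1 [0], .p31 133153 1 1 [2], .p31 133153 2 1 [2], .p31 131169 0 2 [1], .p31 100384 0 1 [0, 2], .p31 66561 0 1 [2, 1, 2], .an 232576 0 0 [1, 2, 2, 1, 1, 2, 1]],
 [false, false, false, false, false, false, false, true, true, true, true, true, false, true, true, true, true, true, true],
 [0x223221, 0x301051, 0x6da062, 0x421010, 0x20200, 0x4000, 0x8e2652, 0x200]⟩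

theorem t1_4_3 : c1_4_3.chk false E = true := by decide +kernel

noncomputable def c1_3_4 : Crt := ⟨266337, 2, 8, [.p1 131169 0 2, .p31 134145 0 1 [2], .p31 132192 0 2 [0], .p31 132161 0 2 [1], .p31 132161 1 2 [1], .p31 99392 0 2 [0, 1], .p31 65569 0 2 [1, 1, 2], .an 233568 0 0 [2, 1, 2, 2, 1, 2, 1]],
 [false, false, false, false, true, false, false, false, true, true, true, true, true, true, true, true, true, true, false],
 [0x6c2209, 0x608000, 0x618849, 0x298241, 0x400818, 0x201000, 0x200, 0x200000]⟩

theorem t1_3_4 : c1_3_4.chk false E = true := by decide +kernel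

noncomputable def c1_2_5 : Crt := ⟨267329, 0, 1, [.p1 132161 0 2, .p1 132161 1 2, .p31 133153 0 2 [1]],
 [false, true, true, true, true, false, false],
 [1, 0x40, 8]⟩

theorem t1_2_5 : c1_2_5.chk false E = true := by decide +kernel

noncomputable def c1_1_6 : Crt := ⟨268321, 0, 0, [.p1 133153 0 2],
 [false],
 [1]⟩

theorem t1_1_6 : c1_1_6.chk false E = true := by decide +kernel

noncomputable def c0_5_3 : Crt := ⟨265376, 0, 2, [.p1 134176 0 1],
 [false, true],
 [1]⟩

theorem t0_5_3 : c0_5_3.chk false E = true := by decide +kernel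

noncomputable def c0_4_4 : Crt := ⟨266368, 0, 2, [.p31 134176 0 1 [2], .an 233568 0 1 [2, 1, 2, 2, 1, 2, 1]],
 [false, false, true, true],
 [0x21, 8]⟩

theorem t0_4_4 : c0_4_4.chk false E = true := by decide +kernel

noncomputable def c0_3_5 : Crt := ⟨267360, 0, 0, [.p1 132192 0 2],
 [true, false],
 [1]⟩

theorem t0_3_5 : c0_3_5.chk false E = true := by decide +kernel

noncomputable def c6_3_0 : Crt := ⟨295014, 1, 1, [],
 [true],
 []⟩

theorem t6_3_0 : c6_3_0.chk false E = true := by decide +kernel

noncomputable def c6_2_1 : Crt := ⟨296006, 4, 4, [.p1 164930 1 0, .p1 164930 2 0],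
 [false, false, true, true],
 [0x11, 0x21]⟩

theorem t6_2_1 : c6_2_1.chk false E = true := by decide +kernel

noncomputable def c6_1_2 : Crt := ⟨296998, 4, 4, [.p1 165922 1 0, .p1 165922 2 0],
 [false, false, true, true],
 [0x18, 0x1b]⟩

theorem t6_1_2 : c6_1_2.chk false E = true := by decide +kernel

noncomputable def c6_0_3 : Crt := ⟨297990, 1, 1, [],
 [true],
 []⟩

theorem t6_0_3 : c6_0_3.chk false E = true := by decide +kernel

noncomputable def c5_4_0 : Crt := ⟨295045, 2, 3, [.p31 98369 0 0 [1, 0, 1]],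
 [false, true, true],
 [3]⟩

theorem t5_4_0 : c5_4_0.chk false E = true := by decide +kernel

noncomputable def c5_3_1 : Crt := ⟨296037, 11, 15, [.p1 164961 0 0, .p1 164961 1 0, .p31 164930 1 0 [1], .p31 164930 2 0 [1], .p31 99361 0 0 [1, 0, 1], .p31 98369 0 0 [2, 0, 1]],
 [false, false, false, false, false, false, true, true, true, true, true, true, true, true, true, true],
 [0x1a300, 0xb4ca, 0x138c1, 0x2854, 0x3823, 0x504]⟩

theorem t5_3_1 : c5_3_1.chk false E = true := by decide +kernel

noncomputable def c5_2_2 : Crt := ⟨297029, 18, 22, [.p1 165953 0 0, .p1 165953 1 0, .p1 165953 2 0, .p1 165953 3 0, .p31 165922 1 0 [1], .p31 165922 2 0 [1], .p31 164930 1 0 [2], .p31 164930 2 0 [2], .p31 132130 1 0 [1, 2], .p31 100353 0 0 [1, 0, 1], .p31 99361 0 0 [2, 0, 1], .p31 98369 0 0 [2, 0, 2], .an 264260 7 0 [1, 0, 2, 1, 0, 0, 2, 0]],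
 [false, false, false, false, false, false, false, false, false, false, false, false, false, true, true, true, true, true, true, true, true, true, true, true, true, true],
 [0x1244648252, 0x469c20b210, 0x17110e0280, 0x3112084d8, 0x452710098, 0xe0088000, 0x20420d911b, 0x329c411508, 0x26234240d0, 0x468130a883, 0x2063522723, 0x180325300b, 0x1410858311]⟩

theorem t5_2_2 : c5_2_2.chk false E = true := by decide +kernel

noncomputable def c5_1_3 : Crt := ⟨298021, 11, 12, [.p1 166945 0 0, .p1 166945 1 0, .p31 165922 1 0 [2], .p31 165922 2 0 [2], .p31 100353 0 0 [2, 0, 1], .p31 99361 0 0 [2, 0, 2]],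
 [false, false, false, false, false, false, true, true, true, true, true, true, true, true, true, true],
 [0x251, 0x1602, 0x22600, 0x1385c, 0x1511, 0x1b6c3]⟩

theorem t5_1_3 : c5_1_3.chk false E = true := by decide +kernel

noncomputable def c5_0_4 : Crt := ⟨299013, 2, 2, [.p31 100353 0 0 [2, 0, 2]],
 [false, true, true],
 [3]⟩

theorem t5_0_4 : c5_0_4.chk false E = true := by decide +kernel

noncomputable def c4_5_0 : Crt := ⟨295076, 1, 3, [.p31 98338 0 1 [0, 0, 1]],
 [false, true, true],
 [3]⟩

theorem t4_5_0 : c4_5_0.chk false E = true := by decide +kernel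

noncomputable def c4_4_1 : Crt := ⟨296068, 11, 22, [.p31 164961 0 0 [1], .p31 164961 1 0 [1], .p31 164899 0 1 [0], .p31 164899 2 1 [0], .p31 131169 0 0 [1, 2], .p31 99392 0 0 [1, 0, 1], .p31 98369 0 0 [1, 1, 2], .p31 99330 0 1 [0, 0, 1], .p31 98338 0 1 [0, 0, 2], .p211 98369 0 0 [2] [1, 0, 1]],
 [false, false, false, false, false, false, false, false, false, true, false, true, true, true, true, true, true, true, true, true, true, true, true, true],
 [0x146d3900, 0x19449462, 0x2c00c0, 0x9724283, 0x88106d3, 0x200000, 0x127096e4, 0x238248e2, 0x8644489, 0x13920000]⟩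

theorem t4_4_1 : c4_4_1.chk false E = true := by decide +kernel

noncomputable def c4_3_2 : Crt := ⟨297060, 28, 46, [.p1 165984 0 0, .p31 165953 0 0 [1], .p31 165953 1 0 [1], .p31 165953 2 0 [1], .p31 165953 3 0 [1], .p31 164961 0 0 [2], .p31 164961 1 0 [2], .p31 165891 0 1 [0], .p211 165922 2 0 [1] [1], .p211 164930 1 0 [1] [2], .p211 164930 2 0 [1] [2], .p31 132161 0 0 [1, 2], .p31 132161 1 0 [1, 2], .p31 132099 0 1 [0, 2], .p31 100384 0 0 [1, 0, 1], .p31 99392 0 0 [2, 0, 1], .p31 99361 0 0 [1, 1, 2], .p31 98369 0 0 [2, 1, 2], .p31 99330 0 1 [0, 0, 2], .p211 100353 0 0 [1] [1, 0, 1], .p211 98369 0 0 [1] [2, 0, 2], .p211 99361 0 0 [2] [1, 0, 1], .p211 98369 0 0 [2] [2, 0, 1], .an 264291 4 0 [1, 0, 2, 2, 1, 0, 1, 0]],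
 [false, false, false, false, false, false, false, false, false, false, false, false, false, false, false, false, false, false, false, false, true, false, true, false, false, false, true, true, true, true, true, true, true, true, true, true, true, true, true, true, true, true, true, true, true, true, true, true, true, true, true, true, true, true, true, true, true],
 [0x29404311a29b6138c4, 0x45231961b421002922, 0x6e24a181970851a200, 0x6823229222a345b224, 0x4110e4500841848081, 0x45c2024d25014890cc, 0x31c68a902221319913, 0x5a01182320a1014a4, 0xd14028c009b6e2708, 0x80b2149146448c8808, 0x400d886169420c84b, 0x6143148920200e30c3, 0x6902134e388a6d3698, 0x2998010e00d248b460, 0x2228182594c12a0220, 0x52046028c281009452, 0x9118a425c46341c10a, 0x832417094c22148e4, 0x28b6a4214460653800, 0x8436cb8d000130969c, 0x4444c429a0d2083663, 0x40000000, 0x65431342482341c10a, 0x5a0c985970a611063]⟩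

theorem t4_3_2 : c4_3_2.chk false E = true := by decide +kernel

noncomputable def c4_2_3 : Crt := ⟨298052, 28, 39, [.p1 166976 0 0, .p31 166945 0 0 [1], .p31 166945 1 0 [1], .p31 165953 0 0 [2], .p31 165953 1 0 [2], .p31 165953 2 0 [2], .p31 165953 3 0 [2], .p31 163907 0 2 [0], .p211 165922 1 0 [1] [2], .p211 165922 2 0 [1] [2], .p211 164930 1 0 [2] [2], .p31 133153 0 0 [1, 2], .p31 133153 1 0 [1, 2], .p31 131107 0 2 [0, 1], .p31 100384 0 0 [2, 0, 1], .p31 99392 0 0 [2, 0, 2], .p31 100353 0 0 [1, 1, 2], .p31 99361 0 0 [2, 1, 2], .p31 98338 0 2 [0, 0, 1], .p211 100353 0 0 [1] [2, 0, 1], .p211 99361 0 0 [1] [2, 0, 2], .p211 100353 0 0 [2] [1, 0, 1], .p211 98369 0 0 [2] [2, 0, 2], .an 265283 3 0 [1, 0, 2, 2, 0, 2, 1, 0]],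
 [false, false, false, false, false, false, false, false, false, false, false, false, false, false, false, false, false, false, false, false, false, false, true, false, true, true, true, false, true, true, true, true, true, true, true, true, true, true, true, true, true, true, true, true, true, true, true, true, true, true, true, true, true, true, true, true, true],
 [0x1214991038d8420019, 0x3246d00e37084dc610, 0x84b6d8823008482908, 0x8442920da5142588c3, 0x4180a460b103009619, 0x8818e088a2d364a048, 0x9202e480c21a6642c1, 0x6a00c4241201889604, 0xda0c9201681243608, 0x6a022051b30a8504c3, 0x90986301c42205891a, 0x4940900db09981088a, 0x5207192120206c3260, 0x2d94422016c128b608, 0x81046000369871a48c, 0x2822a30e28a02e0209, 0x6417204624892e4710, 0x5010820234d981088a, 0x91c3092c960b110253, 0x4810d86920d42182e3, 0x4000100000000, 0x24b4e20820636d3450, 0x60891940a0616d3440, 0x1000000000000]⟩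

theorem t4_2_3 : c4_2_3.chk false E = true := by decide +kernel

noncomputable def c4_1_4 : Crt := ⟨299044, 11, 13, [.p31 166945 0 0 [2], .p31 166945 1 0 [2], .p31 164899 0 2 [0], .p31 164899 1 2 [0], .p31 134145 0 0 [1, 2], .p31 100384 0 0 [2, 0, 2], .p31 100353 0 0 [2, 1, 2], .p31 99330 0 2 [0, 0, 1], .p31 98338 0 2 [0, 0, 2], .p211 100353 0 0 [1] [2, 0, 2]],
 [false, false, false, false, false, false, false, false, true, false, false, true, true, true, true, true, true, true, true, true, true, true, true, true],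
 [0x92122a2, 0x12043903, 0x4a810, 0xa8d2803, 0x138a0000, 0x326025c, 0x1261b088, 0x800018, 0x200000, 0x40000]⟩

theorem t4_1_4 : c4_1_4.chk false E = true := by decide +kernel

noncomputable def c4_0_5 : Crt := ⟨300036, 1, 1, [.p31 99330 0 2 [0, 0, 2]],
 [false, true, true],
 [3]⟩

theorem t4_0_5 : c4_0_5.chk false E = true := by decide +kernel

noncomputable def c3_6_0 : Crt := ⟨295107, 0, 1, [],
 [true],
 []⟩

theorem t3_6_0 : c3_6_0.chk false E = true := by decide +kernel

noncomputable def c3_5_1 : Crt := ⟨296099, 4, 15, [.p1 164899 0 1, .p1 164899 2 1, .p31 164930 0 1 [0], .p31 164930 4 1 [0], .p31 99361 1 1 [0, 0, 1], .p31 98338 0 1 [2, 0, 1]],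
 [false, false, false, false, true, true, true, true, true, false, false, true, true, true, true, true],
 [0x9012, 0x1c200, 0x8101, 0x18004, 0x8000, 0x4000]⟩

theorem t3_5_1 : c3_5_1.chk false E = true := by decide +kernel

noncomputable def c3_4_2 : Crt := ⟨297091, 18, 46, [.p1 165891 0 1, .p31 165984 0 0 [1], .p31 165922 0 1 [0], .p31 165922 2 1 [0], .p31 165922 3 1 [0], .p31 165922 4 1 [0], .p31 164899 0 1 [2], .p31 164899 2 1 [2], .p211 165953 2 0 [1] [1], .p211 164961 0 0 [1] [2], .p211 164961 1 0 [1] [2], .p31 132192 0 0 [1, 2], .p31 132130 0 1 [0, 2], .p31 132130 2 1 [0, 2], .p31 99392 0 0 [1, 1, 2], .p31 100353 0 1 [0, 0, 1], .p31 99330 0 1 [2, 0, 1], .p31 99361 1 1 [0, 0, 2], .p31 98338 0 1 [2, 0, 2], .p211 100384 0 0 [1] [1, 0, 1], .p211 98369 0 0 [1] [2, 1, 2], .p211 99392 0 0 [2] [1, 0, 1], .p211 98369 0 0 [2] [1, 1, 2], .an 264322 0 0 [1, 1, 0, 2, 2, 1, 1, 0]],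
 [false, false, false, false, false, false, false, false, false, false, false, false, false, false, false, false, false, false, false, false, false, true, true, true, true, true, false, false, true, true, true, true, true, true, false, true, true, true, true, true, true, true, true, true, true, true, true, true, true, true, true, true, true, true, true, true, true],
 [0x8094dc444322719643, 0xd10e40d201a50040c, 0x4010494e34a34d96a2, 0x800000000200000, 0x1989271c6d304c061, 0x9030948c3408003859, 0xc401928a488289040, 0x7214620c16e244b8d3, 0x7083226480db61a8ca, 0x85051c41488329b403, 0x5031230a171480a213, 0x88260a0d802140a462, 0x5011000c68c0cc224, 0x88b44a4c345b0a4224, 0x40408b89006071005a, 0x6cb05b70b4e04d9623, 0x28341204000c60370b, 0x9b6544906546d1460, 0x6010c32d8308458113, 0x224713422641099844, 0xd25026d8519494708, 0x8000000000000, 0x800000000000000000, 0x4000000000000]⟩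

theorem t3_4_2 : c3_4_2.chk false E = true := by decide +kernel

noncomputable def c3_3_3 : Crt := ⟨298083, 28, 56, [.p31 166976 0 0 [1], .p31 165984 0 0 [2], .p31 166914 0 1 [0], .p31 165891 0 1 [2], .p31 163938 0 2 [0], .p31 163907 0 2 [1], .p211 166945 0 0 [1] [1], .p211 165953 0 0 [1] [2], .p211 165953 1 0 [1] [2], .p211 165953 2 0 [1] [2], .p211 165953 3 0 [1] [2], .p211 164961 0 0 [2] [2], .p211 165922 2 1 [0] [2], .p211 164899 0 1 [2] [2], .p31 133184 0 0 [1, 2], .p31 133122 0 1 [0, 2], .p31 131138 0 2 [0, 1], .p211 133153 1 0 [1] [1, 2], .p31 100384 0 0 [1, 1, 2], .p31 99392 0 0 [2, 1, 2], .p31 100353 0 1 [0, 0, 2], .p31 99330 0 1 [2, 0, 2], .p31 98369 0 2 [0, 0, 1], .p31 98338 0 2 [1, 0, 1], .p211 100384 0 0 [1] [2, 0, 1], .p211 99392 0 0 [1] [2, 0, 2], .p211 100353 0 0 [1] [1, 1, 2], .p211 99361 0 0 [1] [2, 1, 2], .p211 100384 0 0 [2] [1, 0, 1], .p211 98369 0 0 [2] [2, 1, 2], .an 265314 0 0 [1, 1, 0, 2, 2, 1, 2, 0], .an 265314 1 0 [1, 1, 2, 1, 2, 0, 2, 0]],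
 [false, false, false, false, false, false, false, false, false, false, false, false, false, false, false, false, false, false, false, false, false, false, false, true, false, false, true, false, false, false, false, true, true, true, true, true, true, true, false, false, true, true, true, true, true, true, true, true, true, true, true, true, true, true, true, false, true, true, true, true, true, true, true, true, true, true, true, true, true, true, true, true, true, true, true, true, true, true, true, true, true, true, true, true],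
 [0x81268b49209309b71b08465b, 0x46185144a20b6c04403026d3, 0x52241a401410889119311909, 0x41b66272382224a10b4818da, 0x3222444442d03116618c0400, 0x85c04a86205190a6c48106d4, 0x24c30c29c2440e285480c20c, 0x900241688100604004004100, 0x2822e49110d12da68c809292, 0x2528d92c224a61981844c520, 0x51161a2d32006048814188a1, 0x2408444e0100201002001040, 0x40108031948161931b843898, 0x4109008538920cb0db840012, 0x4c980291390849a08b8846cb, 0x4cb29c0cc29888b002891013, 0x65008c5136898106132c0023, 0x30c2527010408d30db8e3681, 0x6994139222004013046102cc, 0x2538583230408030430040c0, 0x880000000800000000000, 0x84c408610661510654240619, 0x45020411824421970b108460, 0x2222517088dc8e071869a4e1, 0x31904161260242420842424c, 0x200000000000000000000, 0x6130022c27236812a284310c, 0x80b85c4602112884104d368c, 0x60449300808360a920609821, 0xc0000000000000, 0x4000000000000000000000, 0x40000000000000000000]⟩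

theorem t3_3_3 : c3_3_3.chk false E = true := by decide +kernel

noncomputable def c3_2_4 : Crt := ⟨299075, 18, 29, [.p1 163907 0 2, .p31 166976 0 0 [2], .p31 164930 0 2 [0], .p31 164930 1 2 [0], .p31 164930 2 2 [0], .p31 164930 3 2 [0], .p31 164899 0 2 [1], .p31 164899 1 2 [1], .p211 166945 0 0 [1] [2], .p211 166945 1 0 [1] [2], .p211 165953 0 0 [2] [2], .p31 134176 0 0 [1, 2], .p31 132130 0 2 [0, 1], .p31 132130 1 2 [0, 1], .p31 100384 0 0 [2, 1, 2], .p31 99361 0 2 [0, 0, 1], .p31 99330 0 2 [1, 0, 1], .p31 98369 0 2 [0, 0, 2], .p31 98338 0 2 [1, 0, 2], .p211 100384 0 0 [1] [2, 0, 2], .p211 100353 0 0 [1] [2, 1, 2], .p211 99392 0 0 [2] [2, 0, 2], .p211 100353 0 0 [2] [1, 1, 2], .an 266306 2 0 [1, 2, 2, 1, 2, 0, 2, 0]],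
 [false, false, false, false, false, false, false, false, false, false, false, false, false, false, false, false, false, false, false, false, false, true, true, true, true, true, true, false, false, true, true, true, true, true, true, true, true, true, true, true, true, true, true, true, true, true, true, true, true, true, true, true, true, true, true, true, false],
 [0x6830c9710814412424, 0x64024085c282112612, 0xda6c971c8a44d2240, 0x31c4426a2004202459, 0x2d320070364164271a, 0x4806838026cc69b094, 0x48b4998d9884001909, 0x2a30e451a6235044c9, 0x6200000000000c0000, 0x948022dc6012818cb, 0x71a70a80204b2c2402, 0x2526a460990472420b, 0x4430c809990952468c, 0x200120000000008000, 0x608000000000000000, 0x401000000000000000, 0x200000000000000, 0x40000000000000, 0x45a48b04a64b6916d9, 0xd91214e2843720114, 0x2e124a44b4048e3010, 0x8000000000000, 0x1000000000000, 0x200000000000000000]⟩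

theorem t3_2_4 : c3_2_4.chk false E = true := by decide +kernel

end Pool.Agent.Y50.FE.BB
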