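import Pool.Agent.Y50.FE.BB.Dat

/-! Checks of components. -/

set_option autoImplicit false
set_option maxRecDepth 100000

namespace Pool.Agent.Y50.FE.BB

noncomputable def c3_1_5 : Crt := ⟨300067, 4, 5, [.p1 164899 0 2, .p1 164899 1 2, .p31 165922 0 2 [0], .p31 165922 1 2 [0], .p31 99361 0 2 [0, 0, 2], .p31 99330 0 2 [1, 0, 2]],
 [false, false, false, false, true, true, true, true, true, true, true, true, true, true, false, false],
 [0x24d8, 0x19101, 0x1c200, 0x22040, 0x8000, 0x1000]⟩

theorem t3_1_5 : c3_1_5.chk false E = true := by decide +kernel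

noncomputable def c3_0_6 : Crt := ⟨301059, 0, 0, [],
 [true],
 []⟩

theorem t3_0_6 : c3_0_6.chk false E = true := by decide +kernel

noncomputable def c2_6_1 : Crt := ⟨296130, 0, 4, [.p1 164930 0 1, .p1 164930 4 1],
 [true, false, false, true],
 [8, 4]⟩

theorem t2_6_1 : c2_6_1.chk false E = true := by decide +kernel

noncomputable def c2_5_2 : Crt := ⟨297122, 4, 22, [.p1 165922 0 1, .p1 165922 2 1, .p1 165922 3 1, .p1 165922 4 1, .p31 165953 2 1 [0], .p31 165953 3 1 [0], .p31 164930 0 1 [2], .p31 164930 4 1 [2], .p31 132161 2 1 [0, 2], .p31 100384 0 1 [0, 0, 1], .p31 99361 1 1 [2, 0, 1], .p31 98338 0 1 [2, 1, 2], .an 264353 1 0 [1, 2, 1, 1, 2, 1, 1, 0]],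
 [false, false, false, false, true, false, false, false, false, false, false, true, false, false, true, false, true, true, true, true, true, true, true, true, true, true],
 [0xdb0e4453, 0x602701689, 0x128971b8dc, 0x130a64c48c, 0x1000000000, 0x800000000, 0x5060369b, 0x18000018, 0x341b6a189a, 0x342380204b, 0xd84024d2, 0x8000010, 0x20000]⟩

theorem t2_5_2 : c2_5_2.chk false E = true := by decide +kernel

noncomputable def c2_4_3 : Crt := ⟨298114, 11, 39, [.p1 166914 0 1, .p31 166945 0 1 [0], .p31 166945 1 1 [0], .p31 165922 0 1 [2], .p31 165922 2 1 [2], .p31 165922 3 1 [2], .p31 165922 4 1 [2], .p31 163938 0 2 [1], .p211 165984 0 0 [1] [2], .p211 165953 2 1 [0] [2], .p211 164930 0 1 [2] [2], .p31 133153 1 1 [0, 2], .p31 133153 2 1 [0, 2], .p31 131169 0 2 [0, 1], .p31 100353 0 1 [2, 0, 1], .p31 100384 0 1 [0, 0, 2], .p31 99361 1 1 [2, 0, 2], .p31 99330 0 1 [2, 1, 2], .p31 98369 0 2 [1, 0, 1], .p211 100384 0 0 [1] [1, 1, 2], .p211 99392 0 0 [1] [2, 1, 2], .p211 100384 0 1 [2] [0, 0, 1], .p211 98338 0 1 [2]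 [2, 1, 2], .an 265345 0 0 [1, 2, 1, 2, 1, 1, 2, 0]],
 [false, false, false, false, false, false, false, false, false, false, false, true, false, false, false, false, false, true, false, false, false, false, false, true, false, true, false, true, true, true, true, true, true, true, true, true, true, true, false, true, true, true, true, true, true, true, true, true, true, true, true, true, true, true, true, true, true],
 [0x7036838cc402840883, 0x11b9236832d1644118, 0x10321b5082916cb709, 0x61188010c1046cc80b, 0x6a36106436834190a4, 0xe224a2c10536410c9, 0x8006434cc0e308b711, 0x8427240a26236a2800, 0x5a50090c6db648691, 0x2881243034d961b04c, 0x65c8a370809281c209, 0x6dc69a40a6149046c9, 0x85146466028a488459, 0x6580cb0022980d0611, 0x32286121980a40291b, 0xe090a06285c20a44c, 0x18000000000018, 0x18000000000, 0x800000000000000, 0x100000000000000, 0x20000000000000, 0x4534640a311440885c, 0x914d36234193014a4, 0x1000000000000]⟩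

theorem t2_4_3 : c2_4_3.chk false E = true := by decide +kernel

noncomputable def c2_3_4 : Crt := ⟨299106, 11, 29, [.p1 163938 0 2, .p31 166914 0 1 [2], .p31 164961 0 2 [0], .p31 164961 1 2 [0], .p31 164930 0 2 [1], .p31 164930 1 2 [1], .p31 164930 2 2 [1], .p31 164930 3 2 [1], .p211 166976 0 0 [1] [2], .p211 166945 0 1 [0] [2], .p211 165922 0 1 [2] [2], .p31 134145 0 1 [0, 2], .p31 132161 0 2 [0, 1], .p31 132161 1 2 [0, 1], .p31 100353 0 1 [2, 0, 2], .p31 99392 0 2 [0, 0, 1], .p31 99361 0 2 [1, 0, 1], .p31 98369 0 2 [1, 0, 2], .p31 98338 0 2 [1, 1, 2], .p211 100384 0 0 [1] [2, 1, 2], .p211 100384 0 0 [2] [1, 1, 2], .p211 100384 0 1 [0] [2, 0, 2], .p211 100353 0 1 [0] [2, 1, 2], .an 266337 0 0 [1, 2, 2, 1, 2, 1, 2, 0]],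
 [false, false, false, false, false, false, false, false, false, false, false, false, false, false, false, false, false, true, false, true, true, true, true, true, false, false, false, false, false, true, true, true, true, true, true, true, true, true, true, true, true, true, true, true, true, true, true, true, true, true, true, true, true, true, true, true, false],
 [0x12125961869c6c06c2, 0x69a10191281010a904, 0x8591224018d80c28d3, 0x460209821280848040, 0x8214e462109445b204, 0x81349b0916e34e089a, 0x62424310a5229190d9, 0x8a125a4da86110949b, 0x204800000000040000, 0x808000000000000000, 0x801000000000000000, 0x4dc48c4917106c2050, 0x70948c7012404d8061, 0x4126c8519709424409, 0xd365c0118942d2218, 0x2646e145c90069010c, 0x71b4a0654464609624, 0x71b6db0d971a881312, 0x400004000000018000, 0x200000000000000, 0x40000000000000, 0x8000000000000, 0x1000000000000, 0x200000000000000000]⟩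

theorem t2_3_4 : c2_3_4.chk false E = true := by decide +kernel

noncomputable def c2_2_5 : Crt := ⟨300098, 4, 8, [.p1 164930 0 2, .p1 164930 1 2, .p1 164930 2 2, .p1 164930 3 2, .p31 165953 0 2 [0], .p31 165953 1 2 [0], .p31 165922 0 2 [1], .p31 165922 1 2 [1], .p31 133153 0 2 [0, 1], .p31 99392 0 2 [0, 0, 2], .p31 99361 0 2 [1, 0, 2], .p31 99330 0 2 [1, 1, 2], .an 267329 1 0 [2, 2, 1, 2, 2, 1, 2, 0]],
 [false, false, false, false, true, false, false, false, false, false, true, true, true, true, true, true, true, true, true, true, true, true, false, false, false, false],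
 [0x14c480c498, 0x231384b68c, 0x16532e32c8, 0x3450883809, 0x409c913664, 0x2440502224, 0x8000, 0x20224a48da, 0x3700683809, 0x1000000000, 0x200000000, 0x40000000, 0x8000000]⟩

theorem t2_2_5 : c2_2_5.chk false E = true := by decide +kernel

noncomputable def c2_1_6 : Crt := ⟨301090, 0, 0, [.p1 165922 0 2, .p1 165922 1 2],
 [true, true, false, false],
 [8, 1]⟩

theorem t2_1_6 : c2_1_6.chk false E = true := by decide +kernel

noncomputable def c1_6_2 : Crt := ⟨297153, 0, 4, [.p1 165953 2 1, .p1 165953 3 1],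
 [false, false, true, true],
 [0x23, 0x13]⟩

theorem t1_6_2 : c1_6_2.chk false E = true := by decide +kernel

noncomputable def c1_5_3 : Crt := ⟨298145, 1, 12, [.p1 166945 0 1, .p1 166945 1 1, .p31 165953 2 1 [2], .p31 165953 3 1 [2], .p31 100384 0 1 [2, 0, 1], .p31 99361 1 1 [2, 1, 2]],
 [false, true, false, false, false, false, false, true, true, true, true, true, true, true, true, true],
 [0x1894, 0xc640, 0x1b8c2, 0x100, 0x240, 0x3683]⟩

theorem t1_5_3 : c1_5_3.chk false E = true := by decide +kernel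

noncomputable def c1_4_4 : Crt := ⟨299137, 2, 13, [.p31 166945 0 1 [2], .p31 166945 1 1 [2], .p31 164961 0 2 [1], .p31 164961 1 2 [1], .p31 134176 0 1 [0, 2], .p31 100384 0 1 [2, 0, 2], .p31 100353 0 1 [2, 1, 2], .p31 99392 0 2 [1, 0, 1], .p31 98369 0 2 [1, 1, 2], .p211 100384 0 1 [0] [2, 1, 2]],
 [false, false, false, false, false, false, false, true, true, true, false, false, false, true, true, true, true, true, true, true, true, true, true, true],
 [0x106d86c8, 0x12652893, 0x1c6410c9, 0x105040a4, 0xc2db480, 0x325c211, 0x2221b4a0, 0x100018, 0x200000, 0x40000]⟩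

theorem t1_4_4 : c1_4_4.chk false E = true := by decide +kernel

noncomputable def c1_3_5 : Crt := ⟨300129, 1, 5, [.p1 164961 0 2, .p1 164961 1 2, .p31 165953 0 2 [1], .p31 165953 1 2 [1], .p31 99392 0 2 [1, 0, 2], .p31 99361 0 2 [1, 1, 2]],
 [false, true, false, false, false, true, true, true, true, true, true, true, true, true, false, false],
 [0x1428b, 0xc803, 0x200, 0x40, 0x8000, 0x1000]⟩

theorem t1_3_5 : c1_3_5.chk false E = true := by decide +kernel

noncomputable def c1_2_6 : Crt := ⟨301121, 0, 0, [.p1 165953 0 2, .p1 165953 1 2],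
 [true, true, false, false],
 [8, 1]⟩

theorem t1_2_6 : c1_2_6.chk false E = true := by decide +kernel

noncomputable def c0_6_3 : Crt := ⟨298176, 0, 1, [],
 [true],
 []⟩

theorem t0_6_3 : c0_6_3.chk false E = true := by decide +kernel

noncomputable def c0_5_4 : Crt := ⟨299168, 0, 2, [.p31 100384 0 1 [2, 1, 2]],
 [false, true, true],
 [3]⟩

theorem t0_5_4 : c0_5_4.chk false E = true := by decide +kernel

noncomputable def c0_4_5 : Crt := ⟨300160, 0, 1, [.p31 99392 0 2 [1, 1, 2]],
 [false, true, true],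
 [3]⟩

theorem t0_4_5 : c0_4_5.chk false E = true := by decide +kernel

noncomputable def c0_3_6 : Crt := ⟨301152, 0, 0, [],
 [true],
 []⟩

theorem t0_3_6 : c0_3_6.chk false E = true := by decide +kernel

noncomputable def c7_3_0 : Crt := ⟨327783, 1, 1, [.p1 196707 1 0],
 [false],
 [4]⟩

theorem t7_3_0 : c7_3_0.chk false E = true := by decide +kernel

noncomputable def c7_2_1 : Crt := ⟨328775, 2, 2, [.p1 197699 3 0, .p1 197699 4 0],
 [false, false],
 [0x1b, 0x11]⟩

theorem t7_2_1 : c7_2_1.chk false E = true := by decide +kernel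

noncomputable def c7_1_2 : Crt := ⟨329767, 2, 2, [.p1 198691 3 0, .p1 198691 4 0],
 [false, false],
 [0x11, 0xa]⟩

theorem t7_1_2 : c7_1_2.chk false E = true := by decide +kernel

noncomputable def c7_0_3 : Crt := ⟨330759, 1, 1, [.p1 199683 1 0],
 [false],
 [4]⟩

theorem t7_0_3 : c7_0_3.chk false E = true := by decide +kernel

noncomputable def c6_4_0 : Crt := ⟨327814, 2, 3, [.p1 196738 0 0, .p31 196707 1 0 [1]],
 [false, false, true],
 [0x14, 0x18]⟩

theorem t6_4_0 : c6_4_0.chk false E = true := by decide +kernel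

noncomputable def c6_3_1 : Crt := ⟨328806, 10, 12, [.p1 197730 1 0, .p1 197730 2 0, .p1 197730 3 0, .p1 197730 4 0, .p31 197699 3 0 [1], .p31 197699 4 0 [1], .p31 196707 1 0 [2], .p31 132130 1 0 [1, 0, 1], .an 296037 5 0 [1, 0, 1, 0, 1, 0, 0, 2, 0]],
 [false, false, false, false, false, false, false, false, false, true, true, true, true],
 [0x24026a3, 0x491a313, 0x450a6a2, 0x12e46c8, 0x8c8642, 0x12192a0, 0x3663484, 0x4309449, 0x361b11b]⟩

theorem t6_3_1 : c6_3_1.chk false E = true := by decide +kernel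

noncomputable def c6_2_2 : Crt := ⟨329798, 13, 15, [.p1 198722 1 0, .p1 198722 2 0, .p1 198722 3 0, .p1 198722 4 0, .p1 198722 5 0, .p1 198722 6 0, .p31 198691 3 0 [1], .p31 198691 4 0 [1], .p31 197699 3 0 [2], .p31 197699 4 0 [2], .p31 132130 1 0 [2, 0, 1], .an 297029 6 0 [1, 0, 2, 0, 1, 0, 0, 2, 0]],
 [false, false, false, false, false, false, false, false, false, false, false, true, false, true, true, true, true],
 [0x946644cc, 0x2984996c2, 0xe3681219, 0x60a100289, 0x4512c06c0, 0x69208a700, 0x890220499, 0x49b8d1622, 0x4cb29285a, 0x8808836cb, 0x80865c854, 0x81252111a]⟩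

theorem t6_2_2 : c6_2_2.chk false E = true := by decide +kernel

noncomputable def c6_1_3 : Crt := ⟨330790, 10, 11, [.p1 199714 1 0, .p1 199714 2 0, .p1 199714 3 0, .p1 199714 5 0, .p31 199683 1 0 [1], .p31 198691 3 0 [2], .p31 198691 4 0 [2], .p31 132130 1 0 [2, 0, 2], .an 298021 5 0 [1, 0, 2, 0, 2, 0, 0, 2, 0]],
 [false, false, false, false, false, false, false, false, true, false, true, true, true],
 [0x26942a0, 0x16e1889, 0x4209899, 0x42894e4, 0x170c294, 0x18dc210, 0x26110a3, 0x42188e2, 0x421459]⟩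

theorem t6_1_3 : c6_1_3.chk false E = true := by decide +kernel

noncomputable def c6_0_4 : Crt := ⟨331782, 2, 2, [.p1 200706 0 0, .p31 199683 1 0 [2]],
 [false, false, true],
 [0x14, 0x18]⟩

theorem t6_0_4 : c6_0_4.chk false E = true := by decide +kernel

noncomputable def c5_5_0 : Crt := ⟨327845, 2, 4, [.p31 196738 0 0 [1], .p31 196676 0 1 [0], .p31 131169 0 0 [1, 0, 1]],
 [false, false, false, true],
 [0x1b, 0x89, 0xc4]⟩

theorem t5_5_0 : c5_5_0.chk false E = true := by decide +kernel

noncomputable def c5_4_1 : Crt := ⟨328837, 14, 24, [.p1 197761 0 0, .p1 197761 1 0, .p31 197730 1 0 [1], .p31 197730 2 0 [1], .p31 197730 3 0 [1], .p31 197730 4 0 [1], .p31 196738 0 0 [2], .p31 197668 0 1 [0], .p31 197668 1 1 [0], .p211 196707 1 0 [1] [2], .p31 132161 0 0 [1, 0, 1], .p31 132161 1 0 [1, 0, 1], .p31 131169 0 0 [2, 0, 1], .p31 132099 0 1 [0, 0, 1], .an 296068 1 0 [1, 0, 1, 2, 1, 0, 0, 1, 0], .an 296068 2 0 [1, 0, 2, 0, 1, 1, 0, 1, 0]],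
 [false, false, false, false, false, false, false, false, false, false, false, false, false, false, false, false, true, true, true, true, true, true, true, true, true, true],
 [0x49969c05a489, 0x51b81b2638c8, 0x8da65c9030e3, 0x4da1086d96d9, 0x8b2c288a68a, 0x6212490ca44b, 0x8da11845b042, 0x4832a488b50a, 0x8d281a4e0063, 0x6d8040909620, 0x2189105020e1, 0x46368820b814, 0x984a06802e2, 0x4c620219621, 0x6c28ca2e2663, 0x29b21388810a]⟩

theorem t5_4_1 : c5_4_1.chk false E = true := by decide +kernel

noncomputable def c5_3_2 : Crt := ⟨329829, 33, 46, [.p1 198753 0 0, .p1 198753 1 0, .p1 198753 2 0, .p1 198753 3 0, .p1 198753 4 0, .p1 198753 5 0, .p31 198722 1 0 [1], .p31 198722 2 0 [1], .p31 198722 3 0 [1], .p31 198722 4 0 [1], .p31 198722 5 0 [1], .p31 198722 6 0 [1], .p31 197730 1 0 [2], .p31 197730 2 0 [2], .p31 197730 3 0 [2], .p31 197730 4 0 [2], .p31 198660 0 1 [0], .p211 198691 4 0 [1] [1], .p211 197699 3 0 [1] [2], .p211 197699 4 0 [1] [2], .p211 196707 1 0 [2] [2], .p31 164930 1 0 [1, 2], .p31 164930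 2 0 [1, 2], .p31 133153 0 0 [1, 0, 1], .p31 133153 1 0 [1, 0, 1], .p31 132161 0 0 [2, 0, 1], .p31 132161 1 0 [2, 0, 1], .p31 131169 0 0 [2, 0, 2], .p31 132130 1 0 [1, 1, 2], .p31 132099 0 1 [0, 0, 2], .p211 132130 1 0 [2] [1, 0, 1], .an 297060 4 0 [1, 0, 2, 0, 1, 1, 0, 2, 0], .an 297060 5 0 [1, 0, 2, 0, 2, 1, 0, 1, 0], .an 297060 6 0 [1, 0, 2, 1, 0, 2, 0, 1, 0], .an 297060 7 0 [1, 0, 2, 1, 1, 0, 0, 2, 0]],
 [false, false, false, false, false, false, false, false, false, false, false, false, false, false, false, false, false, false, false, false, false, false, false, false, false, false, false, false, false, false, false, false, true, false, false, true, true, true, true, true, true, true, true, true, true, true, false, true, true, true, true, true, true, true, true, true],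
 [0x1085202c008b2c40898e0490243, 0x9108300a9194544cb41244b2c3, 0xe230250c4519087233022d1049, 0x886dc90b3232038d36dc6e485c, 0x1192e07116892d26208484e1693, 0xc98a06e025909c6530db4c4453, 0x9a8d206081b6410822c0200213, 0x8a2916a02242c048350c01470b, 0x10981848b4814d180829c05a514, 0x428922848d384888c600820824, 0xc065a31a88a2d490464c4c14da, 0x4848084a8c28cc0c44da061812, 0x12368011a8d22c288811924a0e2, 0x1222083234523224010c9042843, 0x1061990c4605198432cb49810c, 0x10150a20085c88948225440a51a, 0xc18526012943016c829b00c2c8, 0x10985b8492232936427204230dc, 0x11045b2ca4232a14e28835192e4, 0xe16588cc28391824a8d429b083, 0x1c2cb72108c52386452168b252, 0xcc01240c2634ca0c0111489402, 0x11a50962169244450952320a444, 0x970b82448b0d020a8a06a4082, 0x1249130ca04360b898454622644, 0x10925b8920e10486039224518da, 0x1104d010181b203083721712621, 0x1226038cb90a2895044c849c8c0, 0xa10d18800938880e30427234a2, 0xa6e32046dc1198884c111a244, 0x1904888249b2a170005c6e4603, 0x1016c32d880c2244c20428946d2, 0x1034984cc6207048c46540148e0, 0xca0580245037081018011086d2,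 0x12005a21184931120305a8c14c4]⟩

theorem t5_3_2 : c5_3_2.chk false E = true := by decide +kernel

end Pool.Agent.Y50.FE.BB
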