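import Pool.Agent.Y50.FE.BB.Dat

/-! Checks of components. -/

set_option autoImplicit false
set_option maxRecDepth 100000

namespace Pool.Agent.Y50.FE.BB

noncomputable def c2_4_7 : Crt := ⟨433282, 0, 0, [.p1 298114 0 2, .p1 298114 1 2, .p1 298114 2 2, .p1 298114 3 2, .p1 298114 4 2, .p1 298114 5 2, .p1 298114 7 2],
 [false, false, false, false, false, false, false],
 [0x8000, 0x101259, 0x8441b, 0x44304, 0xc2701, 0x448c2, 0x448c1]⟩

theorem t2_4_7 : c2_4_7.chk false E = true := by decide +kernel

noncomputable def c1_7_5 : Crt := ⟨431329, 0, 4, [.p1 300129 1 1, .p1 300129 2 1, .p1 300129 3 1, .p1 300129 4 1],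
 [false, false, false, false],
 [0x4a1, 0x302, 0x2e1, 0x102]⟩

theorem t1_7_5 : c1_7_5.chk false E = true := by decide +kernel

noncomputable def c1_6_6 : Crt := ⟨432321, 1, 5, [.p1 301121 0 1, .p1 301121 1 1, .p1 297153 0 2, .p1 297153 1 2, .p31 301152 0 1 [0], .p31 300129 1 1 [2], .p31 300129 2 1 [2], .p31 267360 0 1 [0, 2], .p31 233568 0 1 [2, 0, 2]],
 [false, false, false, false, false, false, false, false, false],
 [0x228c503, 0x190a320, 0x4cc914, 0x43411, 0x3400000, 0x4724802, 0x4b611, 0x40000, 0x8000]⟩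

theorem t1_6_6 : c1_6_6.chk false E = true := by decide +kernel

noncomputable def c1_5_7 : Crt := ⟨433313, 0, 0, [.p1 298145 0 2, .p1 298145 1 2, .p1 298145 2 2, .p1 298145 3 2],
 [false, false, false, false],
 [0x200, 1, 0xd4, 0xcc]⟩

theorem t1_5_7 : c1_5_7.chk false E = true := by decide +kernel

noncomputable def c0_7_6 : Crt := ⟨432352, 0, 1, [.p1 301152 0 1],
 [false],
 [3]⟩

theorem t0_7_6 : c0_7_6.chk false E = true := by decide +kernel

noncomputable def c0_6_7 : Crt := ⟨433344, 0, 0, [.p1 298176 0 2],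
 [false],
 [1]⟩

theorem t0_6_7 : c0_6_7.chk false E = true := by decide +kernel

noncomputable def c7_5_2 : Crt := ⟨460967, 3, 3, [.p1 329891 0 0, .p1 329891 1 0, .p1 329891 3 0],
 [false, false, false],
 [0x118, 0xcb, 0xe3]⟩

theorem t7_5_2 : c7_5_2.chk false E = true := by decide +kernel

noncomputable def c7_4_3 : Crt := ⟨461959, 4, 4, [.p1 330883 0 0, .p1 330883 1 0, .p1 330883 2 0, .p1 330883 3 0],
 [false, false, false, false],
 [0x919, 0x281, 0x664, 0x50]⟩

theorem t7_4_3 : c7_4_3.chk false E = true := by decide +kernel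

noncomputable def c7_3_4 : Crt := ⟨462951, 4, 4, [.p1 331875 0 0, .p1 331875 1 0, .p1 331875 2 0, .p1 331875 6 0],
 [false, false, false, false],
 [0x800, 0x8a2, 0x8dc, 0x884]⟩

theorem t7_3_4 : c7_3_4.chk false E = true := by decide +kernel

noncomputable def c7_2_5 : Crt := ⟨463943, 3, 3, [.p1 332867 0 0, .p1 332867 1 0, .p1 332867 2 0],
 [false, false, false],
 [0x4a, 0xc2, 0xc]⟩

theorem t7_2_5 : c7_2_5.chk false E = true := by decide +kernel

noncomputable def c6_6_2 : Crt := ⟨460998, 3, 6, [.p1 329922 0 0, .p1 329798 3 1, .p31 329891 0 0 [1], .p31 329891 1 0 [1]],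
 [false, false, false, false, true, true],
 [0x494, 0x2dc, 0xd9, 0x40]⟩

theorem t6_6_2 : c6_6_2.chk false E = true := by decide +kernel

noncomputable def c6_5_3 : Crt := ⟨461990, 9, 13, [.p1 330914 0 0, .p1 330914 1 0, .p1 330914 2 0, .p1 330914 3 0, .p1 330914 4 0, .p1 330790 0 1, .p31 330883 0 0 [1], .p31 330883 1 0 [1], .p31 330883 3 0 [1], .p31 329891 0 0 [2], .p31 329891 1 0 [2], .p31 329891 3 0 [2]],
 [false, false, false, false, false, false, false, false, false, true, false, true, false, false, true, true],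
 [0x24a718410, 0x630000e3, 0x8a81348a, 0x89b28b6cb, 0x220450692, 0x50986309a, 0x4dc884459, 0x4106a028a, 0x460000000, 0x31c0610e3, 0xc0000, 0x4d0200093]⟩

theorem t6_5_3 : c6_5_3.chk false E = true := by decide +kernel

noncomputable def c6_4_4 : Crt := ⟨462982, 12, 16, [.p1 331906 0 0, .p1 331906 1 0, .p1 331906 2 0, .p1 331906 3 0, .p1 331906 4 0, .p1 331906 5 0, .p1 331906 6 0, .p1 331906 7 0, .p1 331782 0 1, .p1 327814 0 2, .p31 331875 0 0 [1], .p31 331875 1 0 [1], .p31 331875 2 0 [1], .p31 330883 0 0 [2], .p31 330883 1 0 [2], .p31 330883 3 0 [2]],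
 [false, false, false, false, false, false, false, false, false, false, false, false, false, false, true, false, true, true, true, false],
 [0x45305444160b, 0x692452401682, 0x65208a501602, 0x65a25a604441, 0x4893026c4450, 0x31104b501653, 0x72481c842203, 0x9131210000a2, 0x448101100022, 0x8e4244080100, 0x648822040102, 0x2008a3100111, 0x649302624461, 0x85092469249b, 0x400000, 0x40000]⟩

theorem t6_4_4 : c6_4_4.chk false E = true := by decide +kernel

noncomputable def c6_3_5 : Crt := ⟨463974, 9, 12, [.p1 332898 0 0, .p1 332898 1 0, .p1 332898 2 0, .p1 332898 3 0, .p1 332898 4 0, .p1 328806 0 2, .p31 332867 0 0 [1], .p31 332867 1 0 [1], .p31 332867 2 0 [1], .p31 331875 0 0 [2], .p31 331875 1 0 [2], .p31 331875 2 0 [2]],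
 [false, false, false, false, false, false, false, false, false, false, true, false, true, true, true, false],
 [0x204184e0, 0x25869851a, 0x8491064c, 0x6dc2c00c3, 0x6208c0113, 0x7030c0043, 0x22130004c, 0x9680002, 0x723680082, 0x641291202, 0x601001800, 0xc0000]⟩

theorem t6_3_5 : c6_3_5.chk false E = true := by decide +kernel

noncomputable def c6_2_6 : Crt := ⟨464966, 3, 3, [.p1 333890 1 0, .p1 329798 0 2, .p31 332867 0 0 [2], .p31 332867 1 0 [2]],
 [false, false, false, true, true, false],
 [0x8e2, 0x61, 0x614, 0x100]⟩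

theorem t6_2_6 : c6_2_6.chk false E = true := by decide +kernel

noncomputable def c5_7_2 : Crt := ⟨461029, 0, 3, [.p1 329829 0 1, .p1 329829 12 1, .p1 329829 15 1],
 [false, false, false],
 [0x8b, 0x11b, 0x4a]⟩

theorem t5_7_2 : c5_7_2.chk false E = true := by decide +kernel

noncomputable def c5_6_3 : Crt := ⟨462021, 4, 13, [.p1 330945 0 0, .p1 330821 0 1, .p1 330821 9 1, .p1 330821 10 1, .p1 330821 11 1, .p1 330821 12 1, .p31 330914 0 0 [1], .p31 330914 1 0 [1], .p31 330914 3 0 [1], .p31 329922 0 0 [2], .p31 329829 0 1 [2], .p31 329829 15 1 [2]],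
 [false, false, false, false, false, false, false, false, false, false, true, true, false, false, true, true],
 [0x122642852, 0x71b453452, 0x6ca060200, 0x200000000, 0x30b900048, 0x4c680000, 0x92104011b, 0x849040111, 0x8110c0102, 0x8dc4c0111, 0xa20c0000, 0x400000080]⟩

theorem t5_6_3 : c5_6_3.chk false E = true := by decide +kernel

noncomputable def c5_5_4 : Crt := ⟨463013, 12, 24, [.p1 331937 0 0, .p1 331937 1 0, .p1 331937 2 0, .p1 331937 3 0, .p1 331937 4 0, .p1 331813 1 1, .p1 331813 2 1, .p1 331813 3 1, .p1 331813 4 1, .p1 331813 5 1, .p1 327845 0 2, .p31 331906 0 0 [1], .p31 331906 1 0 [1], .p31 331906 2 0 [1], .p31 331906 3 0 [1], .p31 331906 4 0 [1], .p31 331906 5 0 [1], .p31 330914 0 0 [2], .p31 330914 1 0 [2], .p31 330914 3 0 [2], .p31 330914 4 0 [2], .p31 330821 0 1 [2], .p31 330821 9 1 [2], .p31 330821 10 1 [2], .p31 328868 0 2 [0], .p31 298114 0 0 [1, 2]],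
 [false, false, false, false, false, false, false, false, false, false, false, false, false, false, false, false, false, true, false, false, false, false, false, false, false, true, true, false, true, true, true, true, false],
 [0x1c8c46d38d405a4e10e4, 0x151189c921651653441, 0x1841929c2015010d0058, 0x217107230600c144309c, 0x2104b21c0e38e240a6c1, 0x230103234182143114a0, 0x2228b3136e305c44b692, 0x352069232086410148c, 0x138c16e170944364a101, 0x1b4d84db6483080146e1, 0x1a6986929208620a148c, 0x222c150245991172021b, 0x102e228372152291868b, 0x1330a40841c6099102e0, 0x489b6091096c0308498, 0x241147084408e029a823, 0x20225233220a108b89a, 0x1268886064c89248b4d8, 0x2100046308a0a3111684, 0x1964b6d34c261308068a, 0x108db65c2d092012201c, 0x1b6198d98dc4404432e0, 0xb64a0e3491704022848, 0x114d04db84830b0cc6c9, 0x1a498000800003898000, 0x200000000000]⟩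

theorem t5_5_4 : c5_5_4.chk false E = true := by decide +kernel

noncomputable def c5_4_5 : Crt := ⟨464005, 12, 21, [.p1 332929 0 0, .p1 332929 1 0, .p1 332929 2 0, .p1 332929 3 0, .p1 332929 4 0, .p1 332805 0 1, .p1 328837 0 2, .p1 328837 1 2, .p1 328837 2 2, .p1 328837 3 2, .p1 328837 4 2, .p31 332898 0 0 [1], .p31 332898 1 0 [1], .p31 332898 2 0 [1], .p31 332898 3 0 [1], .p31 331906 0 0 [2], .p31 331906 1 0 [2], .p31 331906 2 0 [2], .p31 331906 3 0 [2], .p31 331906 4 0 [2], .p31 331906 5 0 [2], .p31 332836 1 1 [0], .p31 332836 2 1 [0], .p31 331813 1 1 [2], .p31 331813 2 1 [2], .p31 299106 0 0 [1, 2]],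
 [false, false, false, false, false, false, false, false, false, false, false, false, true, false, false, false, false, false, false, false, false, false, true, true, true, true, true, true, false, false, false, false, false],
 [0x1184a4c362026249b4dc, 0x116443134cc8606c3108, 0x88c02587222202d1701, 0x104a429c5126904d240c, 0x144d331c89951b050514, 0x1c10249b6d4693440659, 0xc6190cc50a8409108e3, 0x144604520000a34c0000, 0x825120050a8c32608e3, 0x2260c40b8632cc31028a, 0x188e38cb2994cc458514, 0x1b32289a4d469b6e0659, 0x224d44843146d2699441, 0x492364c40910b2cc640, 0xc6634cc4638e48814d2, 0x192c020428844990a20c, 0x1902210404c2a450820b, 0x182a281a29a46250b414, 0x1292385141440270b000, 0x236ca4492d011c604411, 0x134d30504994e1290514, 0x1000000000000, 0x200000000000, 0x404400000000000, 0xd2200000000000, 0x6a0000000000000]⟩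

theorem t5_4_5 : c5_4_5.chk false E = true := by decide +kernel

noncomputable def c5_3_6 : Crt := ⟨464997, 4, 7, [.p1 333921 1 0, .p1 329829 0 2, .p1 329829 1 2, .p1 329829 2 2, .p1 329829 3 2, .p1 329829 4 2, .p31 333890 1 0 [1], .p31 332898 0 0 [2], .p31 332898 1 0 [2], .p31 332898 2 0 [2], .p31 330821 0 2 [1], .p31 330821 1 2 [1]],
 [false, false, false, false, false, false, false, true, true, true, true, false, false, false, false, false],
 [0x8cc840700, 0x71b8830c0, 0x6a2842100, 0x8522c2080, 0x68071000b, 0x44451801b, 0x703490014, 0xc16c0000, 0x1c200000, 0xd1280000, 0x94900000, 0x2500000]⟩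

theorem t5_3_6 : c5_3_6.chk false E = true := by decide +kernel

noncomputable def c5_2_7 : Crt := ⟨465989, 0, 0, [.p1 330821 0 2, .p1 330821 1 2, .p1 330821 2 2],
 [false, false, false],
 [0x61, 0xd4, 0x81]⟩

theorem t5_2_7 : c5_2_7.chk false E = true := by decide +kernel

noncomputable def c4_7_3 : Crt := ⟨462052, 0, 4, [.p1 330852 20 1, .p1 330852 21 1, .p1 330852 22 1, .p1 330852 23 1],
 [false, false, false, false],
 [0x4a4, 0x910, 0x88c, 0x654]⟩

theorem t4_7_3 : c4_7_3.chk false E = true := by decide +kernel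

noncomputable def c4_6_4 : Crt := ⟨463044, 4, 16, [.p1 331968 0 0, .p1 331844 6 1, .p1 331844 7 1, .p1 331844 8 1, .p1 331844 9 1, .p1 331844 10 1, .p1 331844 11 1, .p1 331844 12 1, .p1 331844 13 1, .p1 327876 0 2, .p31 331937 0 0 [1], .p31 331937 2 0 [1], .p31 331937 4 0 [1], .p31 330852 20 1 [2], .p31 330852 21 1 [2], .p31 330852 22 1 [2]],
 [false, false, false, false, false, false, false, false, true, false, false, false, false, false, false, false, true, true, true, false],
 [0xcc25862045a, 0x654488502312, 0x2d36c41002cc, 0x600000000000, 0x1392308001b, 0x1024c30000dc, 0x10280b280093, 0x100c47000e0, 0xdb853400000, 0xd38490c0049, 0x38228800c0, 0xe168348000c, 0x8081a8c00c1, 0xd3442880002, 0x8a4944c00cb, 0x40000]⟩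

theorem t4_6_4 : c4_6_4.chk false E = true := by decide +kernel

noncomputable def c4_5_5 : Crt := ⟨464036, 9, 21, [.p1 332960 0 0, .p1 332836 1 1, .p1 332836 2 1, .p1 332836 4 1, .p1 332836 5 1, .p1 332836 6 1, .p1 328868 0 2, .p1 328868 1 2, .p1 328868 2 2, .p1 328868 3 2, .p1 328868 4 2, .p31 332929 0 0 [1], .p31 332929 1 0 [1], .p31 332929 2 0 [1], .p31 332929 3 0 [1], .p31 331937 0 0 [2], .p31 331937 2 0 [2], .p31 331937 4 0 [2], .p31 332867 1 1 [0], .p31 332867 2 1 [0], .p31 331844 6 1 [2], .p31 331844 7 1 [2], .p31 331844 8 1 [2], .p31 331844 9 1 [2], .p31 331844 11 1 [2], .p31 299137 0 0 [1, 2]],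
 [false, false, false, false, false, false, false, false, false, true, false, false, false, false, false, false, false, false, false, false, false, false, true, true, true, true, true, true, false, false, false, false, false],
 [0x2480070125082265b648, 0x940c48410869002144a, 0xc89a2137014d248800a, 0x220904994d948101a463, 0x248122834944439208d9, 0x90870c4606912136d3, 0x194508196d405b8632a0, 0x124d02182082d485970c, 0xc4935200cc6c404980b, 0x465048120000001b098, 0x948381c9136410d8041, 0x1c6821241220e08246a1, 0x38d30d889b22285a61b, 0x26512e02000000240c0, 0xc8022028dc05862284a, 0x1166208a04b0882190c4, 0x1c4d920888c8c31098d3, 0x146c04082826996e00c3, 0xb0c831380a25245c2c0, 0x2129a61c22391b70a240, 0x1b4895144c34d448b84a, 0x1000000000000, 0x200000000000, 0x21b600000000000, 0x10a200000000000, 0xe3000000000000]⟩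

theorem t4_5_5 : c4_5_5.chk false E = true := by decide +kernel

noncomputable def c4_4_6 : Crt := ⟨465028, 4, 8, [.p1 333952 0 0, .p1 333828 0 1, .p1 329860 0 2, .p1 329860 1 2, .p1 329860 2 2, .p1 329860 3 2, .p1 329860 4 2, .p1 329860 5 2, .p1 329860 6 2, .p1 329860 8 2, .p31 332929 1 0 [2], .p31 332929 2 0 [2], .p31 332929 3 0 [2], .p31 332836 1 1 [2], .p31 332836 2 1 [2], .p31 332836 4 1 [2]],
 [false, false, false, false, false, false, false, false, true, true, true, true, false, false, false, false, false, false, false, false],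
 [0x6208c3092000, 0x21851b888200, 0x21b003302000, 0x128dc714200, 0x12050280001, 0x116886c00ca, 0xc14c2880010, 0x9c4e04800a3, 0x228e0200000, 0x2282600000, 0x210a3680000, 0x1a712800000, 0x13854200000, 0x42c04c0000, 0x1c049480000, 0x1a643640000]⟩

theorem t4_4_6 : c4_4_6.chk false E = true := by decide +kernel

noncomputable def c4_3_7 : Crt := ⟨466020, 0, 0, [.p1 330852 0 2, .p1 330852 1 2, .p1 330852 2 2, .p1 330852 3 2],
 [false, false, false, false],
 [0x489, 0x249, 0x490, 0x424]⟩

theorem t4_3_7 : c4_3_7.chk false E = true := by decide +kernel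

noncomputable def c3_7_4 : Crt := ⟨463075, 0, 4, [.p1 331875 7 1, .p1 331875 8 1, .p1 331875 9 1, .p1 331875 10 1],
 [false, false, false, false],
 [0x101, 0x50, 0x298, 0x492]⟩

theorem t3_7_4 : c3_7_4.chk false E = true := by decide +kernel

noncomputable def c3_6_5 : Crt := ⟨464067, 3, 12, [.p1 332867 1 1, .p1 332867 2 1, .p1 332867 3 1, .p1 332867 4 1, .p1 332867 6 1, .p1 328899 0 2, .p31 332960 0 0 [1], .p31 332898 1 1 [0], .p31 332898 3 1 [0], .p31 331875 7 1 [2], .p31 331875 8 1 [2], .p31 331875 9 1 [2]],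
 [false, false, false, true, false, false, false, false, false, false, false, false, true, true, true, false],
 [0x4d96e18e1, 0x854651064, 0xc4010000, 0x489080114, 0x5040000cc, 0x11b080048, 0x85128010a, 0x501680004, 0x2132000e0, 0x1012800a0, 0x2112800e4, 0x80000]⟩

theorem t3_6_5 : c3_6_5.chk false E = true := by decide +kernel

noncomputable def c3_5_6 : Crt := ⟨465059, 3, 7, [.p1 333859 0 1, .p1 329891 0 2, .p1 329891 1 2, .p1 329891 2 2, .p1 329891 3 2, .p1 329891 5 2, .p31 333952 0 0 [1], .p31 332867 1 1 [2], .p31 332867 2 1 [2], .p31 332867 3 1 [2], .p31 330914 0 2 [0], .p31 330914 1 2 [0]],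
 [false, false, false, false, false, false, false, true, true, true, true, false, false, false, false, false],
 [0x822448020, 0x403818024, 0x6140d000c, 0x544c06c0, 0x6984426c0, 0x909202400, 0x59400080, 0x4a700000, 0x9a800000, 0x10c640000, 0x123900000, 0x12440000]⟩

theorem t3_5_6 : c3_5_6.chk false E = true := by decide +kernel

noncomputable def c3_4_7 : Crt := ⟨466051, 0, 0, [.p1 330883 0 2, .p1 330883 1 2, .p1 330883 2 2, .p1 330883 3 2],
 [false, false, false, false],
 [0xd8, 0x31b, 0x68a, 0x58]⟩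

theorem t3_4_7 : c3_4_7.chk false E = true := by decide +kernel

noncomputable def c2_7_5 : Crt := ⟨464098, 0, 3, [.p1 332898 1 1, .p1 332898 2 1, .p1 332898 3 1],
 [false, false, false],
 [0xcc, 0x98, 0x58]⟩

theorem t2_7_5 : c2_7_5.chk false E = true := by decide +kernel

noncomputable def c2_6_6 : Crt := ⟨465090, 0, 3, [.p1 333890 0 1, .p1 329922 1 2, .p31 332898 1 1 [2], .p31 332898 3 1 [2]],
 [false, false, false, true, true, false],
 [0x310, 0x261, 0xc1, 0x80]⟩

theorem t2_6_6 : c2_6_6.chk false E = true := by decide +kernel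

noncomputable def c2_5_7 : Crt := ⟨466082, 0, 0, [.p1 330914 0 2, .p1 330914 1 2, .p1 330914 2 2],
 [false, false, false],
 [0x10c, 0x112, 0x4b]⟩

theorem t2_5_7 : c2_5_7.chk false E = true := by decide +kernel

noncomputable def c7_6_2 : Crt := ⟨493767, 2, 2, [.p1 362691 0 0, .p1 362691 1 0],
 [false, false],
 [0x10, 0x1b]⟩

theorem t7_6_2 : c7_6_2.chk false E = true := by decide +kernel

noncomputable def c7_5_3 : Crt := ⟨494759, 4, 4, [.p1 363683 0 0, .p1 363683 1 0, .p1 363683 2 0, .p1 363683 3 0],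
 [false, false, false, false],
 [0x698, 0x80a, 0x65c, 0x88]⟩

theorem t7_5_3 : c7_5_3.chk false E = true := by decide +kernel

noncomputable def c7_4_4 : Crt := ⟨495751, 4, 4, [.p1 364675 0 0, .p1 364675 1 0, .p1 364675 2 0, .p1 364675 5 0],
 [false, false, false, false],
 [0x31c, 0x69b, 0x4d3, 0x6cc]⟩

theorem t7_4_4 : c7_4_4.chk false E = true := by decide +kernel

noncomputable def c7_3_5 : Crt := ⟨496743, 4, 4, [.p1 365667 0 0, .p1 365667 1 0, .p1 365667 2 0, .p1 365667 4 0],
 [false, false, false, false],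
 [0x6dc, 0xd9, 0x21a, 0x8c2]⟩

theorem t7_3_5 : c7_3_5.chk false E = true := by decide +kernel

noncomputable def c7_2_6 : Crt := ⟨497735, 2, 2, [.p1 366659 0 0, .p1 366659 1 0],
 [false, false],
 [0x21, 0x20]⟩

theorem t7_2_6 : c7_2_6.chk false E = true := by decide +kernel

noncomputable def c6_7_2 : Crt := ⟨493798, 0, 2, [.p1 362598 0 1, .p1 362598 5 1],
 [false, false],
 [0x20, 2]⟩

theorem t6_7_2 : c6_7_2.chk false E = true := by decide +kernel

noncomputable def c6_6_3 : Crt := ⟨494790, 4, 8, [.p1 363714 0 0, .p1 363714 1 0, .p1 363714 2 0, .p1 363590 0 1, .p1 363590 4 1, .p1 363590 5 1, .p31 363683 0 0 [1], .p31 362691 0 0 [2], .p31 362691 1 0 [2], .p31 329891 0 0 [1, 2]],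
 [false, false, false, false, false, false, false, false, false, false],
 [0x800000, 0x12600000, 0x8859464, 0xa200000, 0x99000, 0x20000, 0x12850064, 0xc8000, 0x18714649, 0x194000d8]⟩

theorem t6_6_3 : c6_6_3.chk false E = true := by decide +kernel

noncomputable def c6_5_4 : Crt := ⟨495782, 7, 11, [.p1 364706 0 0, .p1 364706 1 0, .p1 364706 2 0, .p1 364706 3 0, .p1 364706 6 0, .p1 364582 1 1, .p1 364582 3 1, .p31 364675 0 0 [1], .p31 364675 1 0 [1], .p31 363683 0 0 [2], .p31 363683 1 0 [2], .p31 363683 2 0 [2], .p31 363683 3 0 [2], .p31 330883 0 0 [1, 2]],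
 [false, false, false, false, false, false, false, false, false, false, false, true, false, false, false],
 [0xa2c089941c, 0xb0d87082cb, 0x24a0000000, 0x42d0001840, 0xa8002d1291, 0x1250870a80b, 0x18888002680, 0x264b6882cb, 0x1231280b222, 0x2025484110b, 0x891a104062, 0x1b84870801b, 0x92500032e0, 0xc4c0000440]⟩

theorem t6_5_4 : c6_5_4.chk false E = true := by decide +kernel

noncomputable def c6_4_5 : Crt := ⟨496774, 7, 11, [.p1 365698 0 0, .p1 365698 1 0, .p1 365698 2 0, .p1 365698 4 0, .p1 365698 5 0, .p1 361606 0 2, .p1 361606 1 2, .p31 365667 0 0 [1], .p31 365667 1 0 [1], .p31 365667 2 0 [1], .p31 365667 4 0 [1], .p31 364675 0 0 [2], .p31 364675 2 0 [2], .p31 331875 0 0 [1, 2]],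
 [false, false, false, false, false, false, false, false, false, false, false, false, true, false, false],
 [0x234ca6128e4, 0x2351881b251, 0x972101b2c1, 0x1024941284c, 0x14c3812814, 0x328081b251, 0x100a2009442, 0x148500db800, 0xc88820011c, 0x184db459689, 0x222e3902214, 0x1a40421b309, 0x200000, 0x2800000]⟩

theorem t6_4_5 : c6_4_5.chk false E = true := by decide +kernel

noncomputable def c6_3_6 : Crt := ⟨497766, 4, 6, [.p1 366690 0 0, .p1 366690 1 0, .p1 366690 2 0, .p1 362598 0 2, .p1 362598 1 2, .p1 362598 2 2, .p31 366659 0 0 [1], .p31 366659 1 0 [1], .p31 365667 0 0 [2], .p31 332867 0 0 [1, 2]],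
 [false, false, false, false, false, false, false, false, false, false],
 [0x208a0514, 0x32a0514, 0x10c8659, 0x9200000, 0x14518723, 0x104c8459, 0x13243504, 0x1000, 0xd9000, 0x5a000]⟩

theorem t6_3_6 : c6_3_6.chk false E = true := by decide +kernel

noncomputable def c6_2_7 : Crt := ⟨498758, 0, 0, [.p1 363590 0 2, .p1 363590 1 2],
 [false, false],
 [3, 9]⟩

theorem t6_2_7 : c6_2_7.chk false E = true := by decide +kernel

noncomputable def c5_7_3 : Crt := ⟨494821, 0, 4, [.p1 363621 0 1, .p1 363621 14 1, .p1 363621 15 1, .p1 363621 16 1],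
 [false, false, false, false],
 [0x41b, 0x213, 0x322, 0x2a4]⟩

theorem t5_7_3 : c5_7_3.chk false E = true := by decide +kernel

noncomputable def c5_6_4 : Crt := ⟨495813, 4, 11, [.p1 364737 0 0, .p1 364737 1 0, .p1 364613 6 1, .p1 364613 7 1, .p1 364613 8 1, .p1 364613 9 1, .p1 364613 10 1, .p31 364706 0 0 [1], .p31 364706 1 0 [1], .p31 363714 0 0 [2], .p31 363714 1 0 [2], .p31 363714 2 0 [2], .p31 363621 0 1 [2], .p31 330914 0 0 [1, 2]],
 [false, false, false, false, false, false, false, false, false, false, false, false, true, false, false],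
 [0x40408cb401, 0x140408c88c1, 0x19080654482, 0x80654482, 0x125b0e32c2, 0x3319240642, 0x4913054840, 0x4234d40c4, 0x349a00a604, 0x48c968a883, 0x28846ca4c0, 0xc080653282, 0x450891b048, 0x4000001440]⟩

theorem t5_6_4 : c5_6_4.chk false E = true := by decide +kernel

noncomputable def c5_5_5 : Crt := ⟨496805, 7, 14, [.p1 365729 0 0, .p1 365729 1 0, .p1 365729 2 0, .p1 365729 3 0, .p1 365605 1 1, .p1 365605 2 1, .p1 365605 3 1, .p1 365605 4 1, .p1 361637 0 2, .p1 361637 1 2, .p1 361637 2 2, .p1 361637 4 2, .p31 365698 0 0 [1], .p31 365698 1 0 [1], .p31 365698 2 0 [1], .p31 364706 0 0 [2], .p31 364706 1 0 [2], .p31 364706 2 0 [2], .p31 331906 0 0 [1, 2]],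
 [false, false, false, false, false, false, false, false, false, false, false, false, false, false, false, true, true, false, false, false, false],
 [0x1139009102e451b, 0x11364031328988a, 0x41600051200058, 0xd4200020400700, 0x232402ca68929a, 0x11964031b8892ca, 0xa25009000e469b, 0xa126311c88c110, 0x53663463502401, 0x5360b29b8e1493, 0xcc860012249511, 0xa129129220b208, 0xcc8d98a34438d3, 0x2048a681908, 0x1222402a3689412, 0x200000, 0x41200000, 0xc2400000, 0xd3600000]⟩

theorem t5_5_5 : c5_5_5.chk false E = true := by decide +kernel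

noncomputable def c5_4_6 : Crt := ⟨497797, 4, 8, [.p1 366721 0 0, .p1 366721 2 0, .p1 362629 0 2, .p1 362629 1 2, .p1 362629 2 2, .p1 362629 3 2, .p1 362629 4 2, .p31 366690 0 0 [1], .p31 366690 1 0 [1], .p31 366690 2 0 [1], .p31 365698 0 0 [2], .p31 365698 1 0 [2], .p31 366628 0 1 [0], .p31 332898 0 0 [1, 2]],
 [false, false, false, false, false, false, false, false, false, true, false, false, false, false, false],
 [0xb8d8109083, 0x2013509303, 0x246480d2101, 0x98e4264702, 0x129c222621, 0x196542c2660, 0x38ca6a48c8, 0xa654249640, 0x2132469b004, 0x408800000, 0x8e1800000, 0x522000000, 0x6e0800000, 0x49800000]⟩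

theorem t5_4_6 : c5_4_6.chk false E = true := by decide +kernel

noncomputable def c5_3_7 : Crt := ⟨498789, 0, 0, [.p1 363621 0 2, .p1 363621 1 2, .p1 363621 2 2, .p1 363621 3 2],
 [false, false, false, false],
 [0x680, 0x8e1, 0x499, 0x491]⟩

theorem t5_3_7 : c5_3_7.chk false E = true := by decide +kernel

noncomputable def c4_7_4 : Crt := ⟨495844, 0, 4, [.p1 364644 8 1, .p1 364644 10 1, .p1 364644 11 1, .p1 364644 12 1],
 [false, false, false, false],
 [0x100, 0x50, 0x4d2, 0x6e2]⟩

theorem t4_7_4 : c4_7_4.chk false E = true := by decide +kernel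

noncomputable def c4_6_5 : Crt := ⟨496836, 4, 11, [.p1 365636 2 1, .p1 365636 3 1, .p1 365636 4 1, .p1 365636 6 1, .p1 365636 9 1, .p1 361668 0 2, .p1 361668 1 2, .p31 365729 0 0 [1], .p31 365729 1 0 [1], .p31 365729 2 0 [1], .p31 365729 3 0 [1], .p31 364737 0 0 [2], .p31 364644 8 1 [2], .p31 331937 0 0 [1, 2]],
 [false, false, false, false, false, false, false, false, false, false, false, false, true, false, false],
 [0x1129260c641, 0x284b2da414, 0xc484314082, 0x222db051464, 0x97004088c8, 0x1360a2c42e1, 0x1b418810650, 0x2131b289614, 0x200c132284b, 0x20606202a0, 0x226e0810650, 0x1371b6636ca, 0x200000, 0x4800000]⟩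

theorem t4_6_5 : c4_6_5.chk false E = true := by decide +kernel

noncomputable def c4_5_6 : Crt := ⟨497828, 4, 8, [.p1 366628 0 1, .p1 366628 1 1, .p1 362660 0 2, .p1 362660 1 2, .p1 362660 2 2, .p1 362660 3 2, .p1 362660 4 2, .p31 366721 0 0 [1], .p31 366721 2 0 [1], .p31 365729 0 0 [2], .p31 365729 1 0 [2], .p31 365729 2 0 [2], .p31 366659 0 1 [0], .p31 332929 1 0 [1, 2]],
 [false, false, false, false, false, false, false, false, false, true, false, false, false, false, false],
 [0x226584522d3, 0x1425a51a093, 0x14654718313, 0x38ca85068c, 0x184cc89845c, 0x80127040e0, 0xc0127040e0, 0x110127040e0, 0x106538540e1, 0x710000000, 0x6cc400000, 0x610200000, 0x4c1200000, 0x450800000]⟩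

theorem t4_5_6 : c4_5_6.chk false E = true := by decide +kernel

noncomputable def c4_4_7 : Crt := ⟨498820, 0, 0, [.p1 363652 0 2, .p1 363652 1 2, .p1 363652 2 2, .p1 363652 3 2],
 [false, false, false, false],
 [0x6e4, 0x1c, 0x913, 0x4e0]⟩

theorem t4_4_7 : c4_4_7.chk false E = true := by decide +kernel

noncomputable def c3_7_5 : Crt := ⟨496867, 0, 4, [.p1 365667 3 1, .p1 365667 4 1, .p1 365667 5 1, .p1 365667 6 1],
 [false, false, false, false],
 [0x4c8, 0x84a, 0x4ca, 0x480]⟩

theorem t3_7_5 : c3_7_5.chk false E = true := by decide +kernel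

noncomputable def c3_6_6 : Crt := ⟨497859, 2, 6, [.p1 366659 0 1, .p1 366659 1 1, .p1 366659 5 1, .p1 362691 0 2, .p1 362691 1 2, .p1 362691 2 2, .p31 366690 0 1 [0], .p31 366690 1 1 [0], .p31 365667 5 1 [2], .p31 332898 1 1 [0, 2]],
 [false, false, false, false, false, false, false, false, false, false],
 [0x1924b852, 0x28dc009, 0x80dc049, 0x8400000, 0x2800000, 0x3400000, 0x1390b104, 0x1000, 0xcc000, 0x112000]⟩

theorem t3_6_6 : c3_6_6.chk false E = true := by decide +kernel

noncomputable def c3_5_7 : Crt := ⟨498851, 0, 0, [.p1 363683 0 2, .p1 363683 1 2, .p1 363683 2 2, .p1 363683 4 2],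
 [false, false, false, false],
 [1, 0x4e2, 0x4a2, 0x49a]⟩

theorem t3_5_7 : c3_5_7.chk false E = true := by decide +kernel

noncomputable def c2_7_6 : Crt := ⟨497890, 0, 2, [.p1 366690 0 1, .p1 366690 1 1],
 [false, false],
 [0x24, 4]⟩

theorem t2_7_6 : c2_7_6.chk false E = true := by decide +kernel

noncomputable def c2_6_7 : Crt := ⟨498882, 0, 0, [.p1 363714 0 2, .p1 363714 1 2],
 [false, false],
 [3, 0x23]⟩

theorem t2_6_7 : c2_6_7.chk false E = true := by decide +kernel

noncomputable def c7_5_4 : Crt := ⟨528551, 1, 1, [.p1 397475 1 0],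
 [false],
 [2]⟩

theorem t7_5_4 : c7_5_4.chk false E = true := by decide +kernel

noncomputable def c7_4_5 : Crt := ⟨529543, 1, 1, [.p1 398467 1 0],
 [false],
 [4]⟩

theorem t7_4_5 : c7_4_5.chk false E = true := by decide +kernel

noncomputable def c6_6_4 : Crt := ⟨528582, 1, 2, [.p1 397506 0 0, .p1 397382 1 1],
 [false, false],
 [0x18, 4]⟩

theorem t6_6_4 : c6_6_4.chk false E = true := by decide +kernel

noncomputable def c6_5_5 : Crt := ⟨529574, 2, 3, [.p1 398498 0 0, .p31 398467 1 0 [1], .p31 397475 1 0 [2]],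
 [false, false, false, true],
 [0xc2, 2, 0xe1]⟩

theorem t6_5_5 : c6_5_5.chk false E = true := by decide +kernel

noncomputable def c6_4_6 : Crt := ⟨530566, 1, 1, [.p1 399490 0 0, .p1 395398 0 2],
 [false, false],
 [0x18, 3]⟩

theorem t6_4_6 : c6_4_6.chk false E = true := by decide +kernel

noncomputable def c5_7_4 : Crt := ⟨528613, 0, 1, [.p1 397413 2 1],
 [false],
 [1]⟩

theorem t5_7_4 : c5_7_4.chk false E = true := by decide +kernel

noncomputable def c5_6_5 : Crt := ⟨529605, 1, 3, [.p1 398405 1 1, .p31 398498 0 0 [1], .p31 397506 0 0 [2]],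
 [false, false, false, true],
 [2, 0xc0, 0xd3]⟩

theorem t5_6_5 : c5_6_5.chk false E = true := by decide +kernel

noncomputable def c5_5_6 : Crt := ⟨530597, 1, 2, [.p1 395429 0 2, .p31 399490 0 0 [1], .p31 398498 0 0 [2]],
 [false, false, true, false],
 [0x43, 0x5b, 0x40]⟩

theorem t5_5_6 : c5_5_6.chk false E = true := by decide +kernel

noncomputable def c5_4_7 : Crt := ⟨531589, 0, 0, [.p1 396421 0 2],
 [false],
 [2]⟩

theorem t5_4_7 : c5_4_7.chk false E = true := by decide +kernel

noncomputable def c4_7_5 : Crt := ⟨529636, 0, 1, [.p1 398436 2 1],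
 [false],
 [1]⟩

theorem t4_7_5 : c4_7_5.chk false E = true := by decide +kernel

noncomputable def c4_6_6 : Crt := ⟨530628, 0, 1, [.p1 399428 0 1, .p1 395460 0 2],
 [false, false],
 [0x18, 2]⟩

theorem t4_6_6 : c4_6_6.chk false E = true := by decide +kernel

noncomputable def c4_5_7 : Crt := ⟨531620, 0, 0, [.p1 396452 0 2],
 [false],
 [1]⟩

theorem t4_5_7 : c4_5_7.chk false E = true := by decide +kernel

noncomputable def c7_5_5 : Crt := ⟨562343, 1, 1, [.p1 431267 0 0],
 [false],
 [2]⟩

theorem t7_5_5 : c7_5_5.chk false E = true := by decide +kernel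

noncomputable def c6_6_5 : Crt := ⟨562374, 1, 2, [.p31 431267 0 0 [1]],
 [false, true],
 [3]⟩

theorem t6_6_5 : c6_6_5.chk false E = true := by decide +kernel

noncomputable def c6_5_6 : Crt := ⟨563366, 1, 1, [.p31 431267 0 0 [2]],
 [false, true],
 [2]⟩

theorem t6_5_6 : c6_5_6.chk false E = true := by decide +kernel

noncomputable def c5_7_5 : Crt := ⟨562405, 0, 1, [.p1 431205 0 1],
 [false],
 [2]⟩

theorem t5_7_5 : c5_7_5.chk false E = true := by decide +kernel

noncomputable def c5_6_6 : Crt := ⟨563397, 0, 1, [.p31 431205 0 1 [2]],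
 [false, true],
 [3]⟩

theorem t5_6_6 : c5_6_6.chk false E = true := by decide +kernel

noncomputable def c5_5_7 : Crt := ⟨564389, 0, 0, [.p1 429221 0 2],
 [false],
 [4]⟩

theorem t5_5_7 : c5_5_7.chk false E = true := by decide +kernel

noncomputable def c7_6_5 : Crt := ⟨595143, 1, 1, [.p1 464067 0 0],
 [false],
 [1]⟩

theorem t7_6_5 : c7_6_5.chk false E = true := by decide +kernel

noncomputable def c7_5_6 : Crt := ⟨596135, 1, 1, [.p1 465059 0 0],
 [false],
 [1]⟩

theorem t7_5_6 : c7_5_6.chk false E = true := by decide +kernel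

noncomputable def c6_7_5 : Crt := ⟨595174, 0, 1, [.p1 463974 1 1],
 [false],
 [4]⟩

theorem t6_7_5 : c6_7_5.chk false E = true := by decide +kernel

noncomputable def c6_6_6 : Crt := ⟨596166, 1, 2, [.p31 465059 0 0 [1], .p31 464067 0 0 [2], .p31 431267 0 0 [1, 2]],
 [false, false, false],
 [0x10a, 0xa, 0x43]⟩

theorem t6_6_6 : c6_6_6.chk false E = true := by decide +kernel

noncomputable def c6_5_7 : Crt := ⟨597158, 0, 0, [.p1 461990 0 2],
 [false],
 [1]⟩

theorem t6_5_7 : c6_5_7.chk false E = true := by decide +kernel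

noncomputable def c5_7_6 : Crt := ⟨596197, 0, 1, [.p1 464997 1 1],
 [false],
 [1]⟩

theorem t5_7_6 : c5_7_6.chk false E = true := by decide +kernel

noncomputable def c5_6_7 : Crt := ⟨597189, 0, 0, [.p1 462021 0 2],
 [false],
 [2]⟩

theorem t5_6_7 : c5_6_7.chk false E = true := by decide +kernel

end Pool.Agent.Y50.FE.BB
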