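import Pool.Agent.Y50.FE.Tab
import Pool.Agent.Y50.FE.BB.K00
import Pool.Agent.Y50.FE.BB.K01
import Pool.Agent.Y50.FE.BB.K02
import Pool.Agent.Y50.FE.BB.K03
import Pool.Agent.Y50.FE.BB.K04
import Pool.Agent.Y50.FE.BB.K05
import Pool.Agent.Y50.FE.BB.K06
import Pool.Agent.Y50.FE.BB.K07
import Pool.Agent.Y50.FE.BB.K08
import Pool.Agent.Y50.FE.BB.K09
import Pool.Agent.Y50.FE.BB.K10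
import Pool.Agent.Y50.FE.BB.K11
import Pool.Agent.Y50.FE.BB.K12
import Pool.Agent.Y50.FE.BB.K13
import Pool.Agent.Y50.FE.BB.K14
import Pool.Agent.Y50.FE.BB.K15

/-! Assembly. -/

set_option autoImplicit false
set_option maxRecDepth 100000

namespace Pool.Agent.Y50.FE.BB

universe u

theorem k32769 : PK false tr.get 32769 := ⟨⟨rfl, c2_0_0, rfl, t2_0_0⟩, ⟨rfl, c1_1_0, rfl, t1_1_0⟩, ⟨rfl, c1_0_1, rfl, t1_0_1⟩⟩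
theorem k32800 : PK false tr.get 32800 := ⟨⟨rfl, c1_1_0, rfl, t1_1_0⟩, ⟨rfl, c0_2_0, rfl, t0_2_0⟩, ⟨rfl, c0_1_1, rfl, t0_1_1⟩⟩
theorem k33792 : PK false tr.get 33792 := ⟨⟨rfl, c1_0_1, rfl, t1_0_1⟩, ⟨rfl, c0_1_1, rfl, t0_1_1⟩, ⟨rfl, c0_0_2, rfl, t0_0_2⟩⟩
theorem k65569 : PK false tr.get 65569 := ⟨⟨rfl, c2_1_0, rfl, t2_1_0⟩, ⟨rfl, c1_2_0, rfl, t1_2_0⟩, ⟨rfl, c1_1_1, rfl, t1_1_1⟩⟩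
theorem k66561 : PK false tr.get 66561 := ⟨⟨rfl, c2_0_1, rfl, t2_0_1⟩, ⟨rfl, c1_1_1, rfl, t1_1_1⟩, ⟨rfl, c1_0_2, rfl, t1_0_2⟩⟩
theorem k66592 : PK false tr.get 66592 := ⟨⟨rfl, c1_1_1, rfl, t1_1_1⟩, ⟨rfl, c0_2_1, rfl, t0_2_1⟩, ⟨rfl, c0_1_2, rfl, t0_1_2⟩⟩
theorem k98338 : PK false tr.get 98338 := ⟨⟨rfl, c3_1_0, rfl, t3_1_0⟩, ⟨rfl, c2_2_0, rfl, t2_2_0⟩, ⟨rfl, c2_1_1, rfl, t2_1_1⟩⟩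
theorem k98369 : PK false tr.get 98369 := ⟨⟨rfl, c2_2_0, rfl, t2_2_0⟩, ⟨rfl, c1_3_0, rfl, t1_3_0⟩, ⟨rfl, c1_2_1, rfl, t1_2_1⟩⟩
theorem k99330 : PK false tr.get 99330 := ⟨⟨rfl, c3_0_1, rfl, t3_0_1⟩, ⟨rfl, c2_1_1, rfl, t2_1_1⟩, ⟨rfl, c2_0_2, rfl, t2_0_2⟩⟩
theorem k99361 : PK false tr.get 99361 := ⟨⟨rfl, c2_1_1, rfl, t2_1_1⟩, ⟨rfl, c1_2_1, rfl, t1_2_1⟩, ⟨rfl, c1_1_2, rfl, t1_1_2⟩⟩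
theorem k99392 : PK false tr.get 99392 := ⟨⟨rfl, c1_2_1, rfl, t1_2_1⟩, ⟨rfl, c0_3_1, rfl, t0_3_1⟩, ⟨rfl, c0_2_2, rfl, t0_2_2⟩⟩
theorem k100353 : PK false tr.get 100353 := ⟨⟨rfl, c2_0_2, rfl, t2_0_2⟩, ⟨rfl, c1_1_2, rfl, t1_1_2⟩, ⟨rfl, c1_0_3, rfl, t1_0_3⟩⟩
theorem k100384 : PK false tr.get 100384 := ⟨⟨rfl, c1_1_2, rfl, t1_1_2⟩, ⟨rfl, c0_2_2, rfl, t0_2_2⟩, ⟨rfl, c0_1_3, rfl, t0_1_3⟩⟩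
theorem k131107 : PK false tr.get 131107 := ⟨⟨rfl, c4_1_0, rfl, t4_1_0⟩, ⟨rfl, c3_2_0, rfl, t3_2_0⟩, ⟨rfl, c3_1_1, rfl, t3_1_1⟩⟩
theorem k131138 : PK false tr.get 131138 := ⟨⟨rfl, c3_2_0, rfl, t3_2_0⟩, ⟨rfl, c2_3_0, rfl, t2_3_0⟩, ⟨rfl, c2_2_1, rfl, t2_2_1⟩⟩
theorem k131169 : PK false tr.get 131169 := ⟨⟨rfl, c2_3_0, rfl, t2_3_0⟩, ⟨rfl, c1_4_0, rfl, t1_4_0⟩, ⟨rfl, c1_3_1, rfl, t1_3_1⟩⟩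
theorem k132099 : PK false tr.get 132099 := ⟨⟨rfl, c4_0_1, rfl, t4_0_1⟩, ⟨rfl, c3_1_1, rfl, t3_1_1⟩, ⟨rfl, c3_0_2, rfl, t3_0_2⟩⟩
theorem k132130 : PK false tr.get 132130 := ⟨⟨rfl, c3_1_1, rfl, t3_1_1⟩, ⟨rfl, c2_2_1, rfl, t2_2_1⟩, ⟨rfl, c2_1_2, rfl, t2_1_2⟩⟩
theorem k132161 : PK false tr.get 132161 := ⟨⟨rfl, c2_2_1, rfl, t2_2_1⟩, ⟨rfl, c1_3_1, rfl, t1_3_1⟩, ⟨rfl, c1_2_2, rfl, t1_2_2⟩⟩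
theorem k132192 : PK false tr.get 132192 := ⟨⟨rfl, c1_3_1, rfl, t1_3_1⟩, ⟨rfl, c0_4_1, rfl, t0_4_1⟩, ⟨rfl, c0_3_2, rfl, t0_3_2⟩⟩
theorem k133122 : PK false tr.get 133122 := ⟨⟨rfl, c3_0_2, rfl, t3_0_2⟩, ⟨rfl, c2_1_2, rfl, t2_1_2⟩, ⟨rfl, c2_0_3, rfl, t2_0_3⟩⟩
theorem k133153 : PK false tr.get 133153 := ⟨⟨rfl, c2_1_2, rfl, t2_1_2⟩, ⟨rfl, c1_2_2, rfl, t1_2_2⟩, ⟨rfl, c1_1_3, rfl, t1_1_3⟩⟩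
theorem k133184 : PK false tr.get 133184 := ⟨⟨rfl, c1_2_2, rfl, t1_2_2⟩, ⟨rfl, c0_3_2, rfl, t0_3_2⟩, ⟨rfl, c0_2_3, rfl, t0_2_3⟩⟩
theorem k134145 : PK false tr.get 134145 := ⟨⟨rfl, c2_0_3, rfl, t2_0_3⟩, ⟨rfl, c1_1_3, rfl, t1_1_3⟩, ⟨rfl, c1_0_4, rfl, t1_0_4⟩⟩
theorem k134176 : PK false tr.get 134176 := ⟨⟨rfl, c1_1_3, rfl, t1_1_3⟩, ⟨rfl, c0_2_3, rfl, t0_2_3⟩, ⟨rfl, c0_1_4, rfl, t0_1_4⟩⟩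
theorem k163907 : PK false tr.get 163907 := ⟨⟨rfl, c4_2_0, rfl, t4_2_0⟩, ⟨rfl, c3_3_0, rfl, t3_3_0⟩, ⟨rfl, c3_2_1, rfl, t3_2_1⟩⟩
theorem k163938 : PK false tr.get 163938 := ⟨⟨rfl, c3_3_0, rfl, t3_3_0⟩, ⟨rfl, c2_4_0, rfl, t2_4_0⟩, ⟨rfl, c2_3_1, rfl, t2_3_1⟩⟩
theorem k164899 : PK false tr.get 164899 := ⟨⟨rfl, c4_1_1, rfl, t4_1_1⟩, ⟨rfl, c3_2_1, rfl, t3_2_1⟩, ⟨rfl, c3_1_2, rfl, t3_1_2⟩⟩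
theorem k164930 : PK false tr.get 164930 := ⟨⟨rfl, c3_2_1, rfl, t3_2_1⟩, ⟨rfl, c2_3_1, rfl, t2_3_1⟩, ⟨rfl, c2_2_2, rfl, t2_2_2⟩⟩
theorem k164961 : PK false tr.get 164961 := ⟨⟨rfl, c2_3_1, rfl, t2_3_1⟩, ⟨rfl, c1_4_1, rfl, t1_4_1⟩, ⟨rfl, c1_3_2, rfl, t1_3_2⟩⟩
theorem k165891 : PK false tr.get 165891 := ⟨⟨rfl, c4_0_2, rfl, t4_0_2⟩, ⟨rfl, c3_1_2, rfl, t3_1_2⟩, ⟨rfl, c3_0_3, rfl, t3_0_3⟩⟩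
theorem k165922 : PK false tr.get 165922 := ⟨⟨rfl, c3_1_2, rfl, t3_1_2⟩, ⟨rfl, c2_2_2, rfl, t2_2_2⟩, ⟨rfl, c2_1_3, rfl, t2_1_3⟩⟩
theorem k165953 : PK false tr.get 165953 := ⟨⟨rfl, c2_2_2, rfl, t2_2_2⟩, ⟨rfl, c1_3_2, rfl, t1_3_2⟩, ⟨rfl, c1_2_3, rfl, t1_2_3⟩⟩
theorem k165984 : PK false tr.get 165984 := ⟨⟨rfl, c1_3_2, rfl, t1_3_2⟩, ⟨rfl, c0_4_2, rfl, t0_4_2⟩, ⟨rfl, c0_3_3, rfl, t0_3_3⟩⟩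
theorem k166914 : PK false tr.get 166914 := ⟨⟨rfl, c3_0_3, rfl, t3_0_3⟩, ⟨rfl, c2_1_3, rfl, t2_1_3⟩, ⟨rfl, c2_0_4, rfl, t2_0_4⟩⟩
theorem k166945 : PK false tr.get 166945 := ⟨⟨rfl, c2_1_3, rfl, t2_1_3⟩, ⟨rfl, c1_2_3, rfl, t1_2_3⟩, ⟨rfl, c1_1_4, rfl, t1_1_4⟩⟩
theorem k166976 : PK false tr.get 166976 := ⟨⟨rfl, c1_2_3, rfl, t1_2_3⟩, ⟨rfl, c0_3_3, rfl, t0_3_3⟩, ⟨rfl, c0_2_4, rfl, t0_2_4⟩⟩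
theorem k196676 : PK false tr.get 196676 := ⟨⟨rfl, c5_2_0, rfl, t5_2_0⟩, ⟨rfl, c4_3_0, rfl, t4_3_0⟩, ⟨rfl, c4_2_1, rfl, t4_2_1⟩⟩
theorem k196707 : PK false tr.get 196707 := ⟨⟨rfl, c4_3_0, rfl, t4_3_0⟩, ⟨rfl, c3_4_0, rfl, t3_4_0⟩, ⟨rfl, c3_3_1, rfl, t3_3_1⟩⟩
theorem k196738 : PK false tr.get 196738 := ⟨⟨rfl, c3_4_0, rfl, t3_4_0⟩, ⟨rfl, c2_5_0, rfl, t2_5_0⟩, ⟨rfl, c2_4_1, rfl, t2_4_1⟩⟩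
theorem k197668 : PK false tr.get 197668 := ⟨⟨rfl, c5_1_1, rfl, t5_1_1⟩, ⟨rfl, c4_2_1, rfl, t4_2_1⟩, ⟨rfl, c4_1_2, rfl, t4_1_2⟩⟩
theorem k197699 : PK false tr.get 197699 := ⟨⟨rfl, c4_2_1, rfl, t4_2_1⟩, ⟨rfl, c3_3_1, rfl, t3_3_1⟩, ⟨rfl, c3_2_2, rfl, t3_2_2⟩⟩
theorem k197730 : PK false tr.get 197730 := ⟨⟨rfl, c3_3_1, rfl, t3_3_1⟩, ⟨rfl, c2_4_1, rfl, t2_4_1⟩, ⟨rfl, c2_3_2, rfl, t2_3_2⟩⟩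
theorem k197761 : PK false tr.get 197761 := ⟨⟨rfl, c2_4_1, rfl, t2_4_1⟩, ⟨rfl, c1_5_1, rfl, t1_5_1⟩, ⟨rfl, c1_4_2, rfl, t1_4_2⟩⟩
theorem k198660 : PK false tr.get 198660 := ⟨⟨rfl, c5_0_2, rfl, t5_0_2⟩, ⟨rfl, c4_1_2, rfl, t4_1_2⟩, ⟨rfl, c4_0_3, rfl, t4_0_3⟩⟩
theorem k198691 : PK false tr.get 198691 := ⟨⟨rfl, c4_1_2, rfl, t4_1_2⟩, ⟨rfl, c3_2_2, rfl, t3_2_2⟩, ⟨rfl, c3_1_3, rfl, t3_1_3⟩⟩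
theorem k198722 : PK false tr.get 198722 := ⟨⟨rfl, c3_2_2, rfl, t3_2_2⟩, ⟨rfl, c2_3_2, rfl, t2_3_2⟩, ⟨rfl, c2_2_3, rfl, t2_2_3⟩⟩
theorem k198753 : PK false tr.get 198753 := ⟨⟨rfl, c2_3_2, rfl, t2_3_2⟩, ⟨rfl, c1_4_2, rfl, t1_4_2⟩, ⟨rfl, c1_3_3, rfl, t1_3_3⟩⟩
theorem k198784 : PK false tr.get 198784 := ⟨⟨rfl, c1_4_2, rfl, t1_4_2⟩, ⟨rfl, c0_5_2, rfl, t0_5_2⟩, ⟨rfl, c0_4_3, rfl, t0_4_3⟩⟩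
theorem k199683 : PK false tr.get 199683 := ⟨⟨rfl, c4_0_3, rfl, t4_0_3⟩, ⟨rfl, c3_1_3, rfl, t3_1_3⟩, ⟨rfl, c3_0_4, rfl, t3_0_4⟩⟩
theorem k199714 : PK false tr.get 199714 := ⟨⟨rfl, c3_1_3, rfl, t3_1_3⟩, ⟨rfl, c2_2_3, rfl, t2_2_3⟩, ⟨rfl, c2_1_4, rfl, t2_1_4⟩⟩
theorem k199745 : PK false tr.get 199745 := ⟨⟨rfl, c2_2_3, rfl, t2_2_3⟩, ⟨rfl, c1_3_3, rfl, t1_3_3⟩, ⟨rfl, c1_2_4, rfl, t1_2_4⟩⟩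
theorem k199776 : PK false tr.get 199776 := ⟨⟨rfl, c1_3_3, rfl, t1_3_3⟩, ⟨rfl, c0_4_3, rfl, t0_4_3⟩, ⟨rfl, c0_3_4, rfl, t0_3_4⟩⟩
theorem k200706 : PK false tr.get 200706 := ⟨⟨rfl, c3_0_4, rfl, t3_0_4⟩, ⟨rfl, c2_1_4, rfl, t2_1_4⟩, ⟨rfl, c2_0_5, rfl, t2_0_5⟩⟩
theorem k200737 : PK false tr.get 200737 := ⟨⟨rfl, c2_1_4, rfl, t2_1_4⟩, ⟨rfl, c1_2_4, rfl, t1_2_4⟩, ⟨rfl, c1_1_5, rfl, t1_1_5⟩⟩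
theorem k200768 : PK false tr.get 200768 := ⟨⟨rfl, c1_2_4, rfl, t1_2_4⟩, ⟨rfl, c0_3_4, rfl, t0_3_4⟩, ⟨rfl, c0_2_5, rfl, t0_2_5⟩⟩
theorem k229476 : PK false tr.get 229476 := ⟨⟨rfl, c5_3_0, rfl, t5_3_0⟩, ⟨rfl, c4_4_0, rfl, t4_4_0⟩, ⟨rfl, c4_3_1, rfl, t4_3_1⟩⟩
theorem k229507 : PK false tr.get 229507 := ⟨⟨rfl, c4_4_0, rfl, t4_4_0⟩, ⟨rfl, c3_5_0, rfl, t3_5_0⟩, ⟨rfl, c3_4_1, rfl, t3_4_1⟩⟩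
theorem k230437 : PK false tr.get 230437 := ⟨⟨rfl, c6_1_1, rfl, t6_1_1⟩, ⟨rfl, c5_2_1, rfl, t5_2_1⟩, ⟨rfl, c5_1_2, rfl, t5_1_2⟩⟩
theorem k230468 : PK false tr.get 230468 := ⟨⟨rfl, c5_2_1, rfl, t5_2_1⟩, ⟨rfl, c4_3_1, rfl, t4_3_1⟩, ⟨rfl, c4_2_2, rfl, t4_2_2⟩⟩
theorem k230499 : PK false tr.get 230499 := ⟨⟨rfl, c4_3_1, rfl, t4_3_1⟩, ⟨rfl, c3_4_1, rfl, t3_4_1⟩, ⟨rfl, c3_3_2, rfl, t3_3_2⟩⟩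
theorem k230530 : PK false tr.get 230530 := ⟨⟨rfl, c3_4_1, rfl, t3_4_1⟩, ⟨rfl, c2_5_1, rfl, t2_5_1⟩, ⟨rfl, c2_4_2, rfl, t2_4_2⟩⟩
theorem k230561 : PK false tr.get 230561 := ⟨⟨rfl, c2_5_1, rfl, t2_5_1⟩, ⟨rfl, c1_6_1, rfl, t1_6_1⟩, ⟨rfl, c1_5_2, rfl, t1_5_2⟩⟩
theorem k231460 : PK false tr.get 231460 := ⟨⟨rfl, c5_1_2, rfl, t5_1_2⟩, ⟨rfl, c4_2_2, rfl, t4_2_2⟩, ⟨rfl, c4_1_3, rfl, t4_1_3⟩⟩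
theorem k231491 : PK false tr.get 231491 := ⟨⟨rfl, c4_2_2, rfl, t4_2_2⟩, ⟨rfl, c3_3_2, rfl, t3_3_2⟩, ⟨rfl, c3_2_3, rfl, t3_2_3⟩⟩
theorem k231522 : PK false tr.get 231522 := ⟨⟨rfl, c3_3_2, rfl, t3_3_2⟩, ⟨rfl, c2_4_2, rfl, t2_4_2⟩, ⟨rfl, c2_3_3, rfl, t2_3_3⟩⟩
theorem k231553 : PK false tr.get 231553 := ⟨⟨rfl, c2_4_2, rfl, t2_4_2⟩, ⟨rfl, c1_5_2, rfl, t1_5_2⟩, ⟨rfl, c1_4_3, rfl, t1_4_3⟩⟩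
theorem k232452 : PK false tr.get 232452 := ⟨⟨rfl, c5_0_3, rfl, t5_0_3⟩, ⟨rfl, c4_1_3, rfl, t4_1_3⟩, ⟨rfl, c4_0_4, rfl, t4_0_4⟩⟩
theorem k232483 : PK false tr.get 232483 := ⟨⟨rfl, c4_1_3, rfl, t4_1_3⟩, ⟨rfl, c3_2_3, rfl, t3_2_3⟩, ⟨rfl, c3_1_4, rfl, t3_1_4⟩⟩
theorem k232514 : PK false tr.get 232514 := ⟨⟨rfl, c3_2_3, rfl, t3_2_3⟩, ⟨rfl, c2_3_3, rfl, t2_3_3⟩, ⟨rfl, c2_2_4, rfl, t2_2_4⟩⟩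
theorem k232545 : PK false tr.get 232545 := ⟨⟨rfl, c2_3_3, rfl, t2_3_3⟩, ⟨rfl, c1_4_3, rfl, t1_4_3⟩, ⟨rfl, c1_3_4, rfl, t1_3_4⟩⟩
theorem k232576 : PK false tr.get 232576 := ⟨⟨rfl, c1_4_3, rfl, t1_4_3⟩, ⟨rfl, c0_5_3, rfl, t0_5_3⟩, ⟨rfl, c0_4_4, rfl, t0_4_4⟩⟩
theorem k233475 : PK false tr.get 233475 := ⟨⟨rfl, c4_0_4, rfl, t4_0_4⟩, ⟨rfl, c3_1_4, rfl, t3_1_4⟩, ⟨rfl, c3_0_5, rfl, t3_0_5⟩⟩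
theorem k233506 : PK false tr.get 233506 := ⟨⟨rfl, c3_1_4, rfl, t3_1_4⟩, ⟨rfl, c2_2_4, rfl, t2_2_4⟩, ⟨rfl, c2_1_5, rfl, t2_1_5⟩⟩
theorem k233537 : PK false tr.get 233537 := ⟨⟨rfl, c2_2_4, rfl, t2_2_4⟩, ⟨rfl, c1_3_4, rfl, t1_3_4⟩, ⟨rfl, c1_2_5, rfl, t1_2_5⟩⟩
theorem k233568 : PK false tr.get 233568 := ⟨⟨rfl, c1_3_4, rfl, t1_3_4⟩, ⟨rfl, c0_4_4, rfl, t0_4_4⟩, ⟨rfl, c0_3_5, rfl, t0_3_5⟩⟩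
theorem k234529 : PK false tr.get 234529 := ⟨⟨rfl, c2_1_5, rfl, t2_1_5⟩, ⟨rfl, c1_2_5, rfl, t1_2_5⟩, ⟨rfl, c1_1_6, rfl, t1_1_6⟩⟩
theorem k262245 : PK false tr.get 262245 := ⟨⟨rfl, c6_3_0, rfl, t6_3_0⟩, ⟨rfl, c5_4_0, rfl, t5_4_0⟩, ⟨rfl, c5_3_1, rfl, t5_3_1⟩⟩
theorem k262276 : PK false tr.get 262276 := ⟨⟨rfl, c5_4_0, rfl, t5_4_0⟩, ⟨rfl, c4_5_0, rfl, t4_5_0⟩, ⟨rfl, c4_4_1, rfl, t4_4_1⟩⟩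
theorem k262307 : PK false tr.get 262307 := ⟨⟨rfl, c4_5_0, rfl, t4_5_0⟩, ⟨rfl, c3_6_0, rfl, t3_6_0⟩, ⟨rfl, c3_5_1, rfl, t3_5_1⟩⟩
theorem k263237 : PK false tr.get 263237 := ⟨⟨rfl, c6_2_1, rfl, t6_2_1⟩, ⟨rfl, c5_3_1, rfl, t5_3_1⟩, ⟨rfl, c5_2_2, rfl, t5_2_2⟩⟩
theorem k263268 : PK false tr.get 263268 := ⟨⟨rfl, c5_3_1, rfl, t5_3_1⟩, ⟨rfl, c4_4_1, rfl, t4_4_1⟩, ⟨rfl, c4_3_2, rfl, t4_3_2⟩⟩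
theorem k263299 : PK false tr.get 263299 := ⟨⟨rfl, c4_4_1, rfl, t4_4_1⟩, ⟨rfl, c3_5_1, rfl, t3_5_1⟩, ⟨rfl, c3_4_2, rfl, t3_4_2⟩⟩
theorem k263330 : PK false tr.get 263330 := ⟨⟨rfl, c3_5_1, rfl, t3_5_1⟩, ⟨rfl, c2_6_1, rfl, t2_6_1⟩, ⟨rfl, c2_5_2, rfl, t2_5_2⟩⟩
theorem k264229 : PK false tr.get 264229 := ⟨⟨rfl, c6_1_2, rfl, t6_1_2⟩, ⟨rfl, c5_2_2, rfl, t5_2_2⟩, ⟨rfl, c5_1_3, rfl, t5_1_3⟩⟩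
theorem k264260 : PK false tr.get 264260 := ⟨⟨rfl, c5_2_2, rfl, t5_2_2⟩, ⟨rfl, c4_3_2, rfl, t4_3_2⟩, ⟨rfl, c4_2_3, rfl, t4_2_3⟩⟩
theorem k264291 : PK false tr.get 264291 := ⟨⟨rfl, c4_3_2, rfl, t4_3_2⟩, ⟨rfl, c3_4_2, rfl, t3_4_2⟩, ⟨rfl, c3_3_3, rfl, t3_3_3⟩⟩
theorem k264322 : PK false tr.get 264322 := ⟨⟨rfl, c3_4_2, rfl, t3_4_2⟩, ⟨rfl, c2_5_2, rfl, t2_5_2⟩, ⟨rfl, c2_4_3, rfl, t2_4_3⟩⟩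
theorem k264353 : PK false tr.get 264353 := ⟨⟨rfl, c2_5_2, rfl, t2_5_2⟩, ⟨rfl, c1_6_2, rfl, t1_6_2⟩, ⟨rfl, c1_5_3, rfl, t1_5_3⟩⟩
theorem k265221 : PK false tr.get 265221 := ⟨⟨rfl, c6_0_3, rfl, t6_0_3⟩, ⟨rfl, c5_1_3, rfl, t5_1_3⟩, ⟨rfl, c5_0_4, rfl, t5_0_4⟩⟩
theorem k265252 : PK false tr.get 265252 := ⟨⟨rfl, c5_1_3, rfl, t5_1_3⟩, ⟨rfl, c4_2_3, rfl, t4_2_3⟩, ⟨rfl, c4_1_4, rfl, t4_1_4⟩⟩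
theorem k265283 : PK false tr.get 265283 := ⟨⟨rfl, c4_2_3, rfl, t4_2_3⟩, ⟨rfl, c3_3_3, rfl, t3_3_3⟩, ⟨rfl, c3_2_4, rfl, t3_2_4⟩⟩
theorem k265314 : PK false tr.get 265314 := ⟨⟨rfl, c3_3_3, rfl, t3_3_3⟩, ⟨rfl, c2_4_3, rfl, t2_4_3⟩, ⟨rfl, c2_3_4, rfl, t2_3_4⟩⟩
theorem k265345 : PK false tr.get 265345 := ⟨⟨rfl, c2_4_3, rfl, t2_4_3⟩, ⟨rfl, c1_5_3, rfl, t1_5_3⟩, ⟨rfl, c1_4_4, rfl, t1_4_4⟩⟩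
theorem k265376 : PK false tr.get 265376 := ⟨⟨rfl, c1_5_3, rfl, t1_5_3⟩, ⟨rfl, c0_6_3, rfl, t0_6_3⟩, ⟨rfl, c0_5_4, rfl, t0_5_4⟩⟩
theorem k266244 : PK false tr.get 266244 := ⟨⟨rfl, c5_0_4, rfl, t5_0_4⟩, ⟨rfl, c4_1_4, rfl, t4_1_4⟩, ⟨rfl, c4_0_5, rfl, t4_0_5⟩⟩
theorem k266275 : PK false tr.get 266275 := ⟨⟨rfl, c4_1_4, rfl, t4_1_4⟩, ⟨rfl, c3_2_4, rfl, t3_2_4⟩, ⟨rfl, c3_1_5, rfl, t3_1_5⟩⟩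
theorem k266306 : PK false tr.get 266306 := ⟨⟨rfl, c3_2_4, rfl, t3_2_4⟩, ⟨rfl, c2_3_4, rfl, t2_3_4⟩, ⟨rfl, c2_2_5, rfl, t2_2_5⟩⟩
theorem k266337 : PK false tr.get 266337 := ⟨⟨rfl, c2_3_4, rfl, t2_3_4⟩, ⟨rfl, c1_4_4, rfl, t1_4_4⟩, ⟨rfl, c1_3_5, rfl, t1_3_5⟩⟩
theorem k266368 : PK false tr.get 266368 := ⟨⟨rfl, c1_4_4, rfl, t1_4_4⟩, ⟨rfl, c0_5_4, rfl, t0_5_4⟩, ⟨rfl, c0_4_5, rfl, t0_4_5⟩⟩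
theorem k267267 : PK false tr.get 267267 := ⟨⟨rfl, c4_0_5, rfl, t4_0_5⟩, ⟨rfl, c3_1_5, rfl, t3_1_5⟩, ⟨rfl, c3_0_6, rfl, t3_0_6⟩⟩
theorem k267298 : PK false tr.get 267298 := ⟨⟨rfl, c3_1_5, rfl, t3_1_5⟩, ⟨rfl, c2_2_5, rfl, t2_2_5⟩, ⟨rfl, c2_1_6, rfl, t2_1_6⟩⟩
theorem k267329 : PK false tr.get 267329 := ⟨⟨rfl, c2_2_5, rfl, t2_2_5⟩, ⟨rfl, c1_3_5, rfl, t1_3_5⟩, ⟨rfl, c1_2_6, rfl, t1_2_6⟩⟩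
theorem k267360 : PK false tr.get 267360 := ⟨⟨rfl, c1_3_5, rfl, t1_3_5⟩, ⟨rfl, c0_4_5, rfl, t0_4_5⟩, ⟨rfl, c0_3_6, rfl, t0_3_6⟩⟩
theorem k295014 : PK false tr.get 295014 := ⟨⟨rfl, c7_3_0, rfl, t7_3_0⟩, ⟨rfl, c6_4_0, rfl, t6_4_0⟩, ⟨rfl, c6_3_1, rfl, t6_3_1⟩⟩
theorem k295045 : PK false tr.get 295045 := ⟨⟨rfl, c6_4_0, rfl, t6_4_0⟩, ⟨rfl, c5_5_0, rfl, t5_5_0⟩, ⟨rfl, c5_4_1, rfl, t5_4_1⟩⟩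
theorem k295076 : PK false tr.get 295076 := ⟨⟨rfl, c5_5_0, rfl, t5_5_0⟩, ⟨rfl, c4_6_0, rfl, t4_6_0⟩, ⟨rfl, c4_5_1, rfl, t4_5_1⟩⟩
theorem k295107 : PK false tr.get 295107 := ⟨⟨rfl, c4_6_0, rfl, t4_6_0⟩, ⟨rfl, c3_7_0, rfl, t3_7_0⟩, ⟨rfl, c3_6_1, rfl, t3_6_1⟩⟩
theorem k296006 : PK false tr.get 296006 := ⟨⟨rfl, c7_2_1, rfl, t7_2_1⟩, ⟨rfl, c6_3_1, rfl, t6_3_1⟩, ⟨rfl, c6_2_2, rfl, t6_2_2⟩⟩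
theorem k296037 : PK false tr.get 296037 := ⟨⟨rfl, c6_3_1, rfl, t6_3_1⟩, ⟨rfl, c5_4_1, rfl, t5_4_1⟩, ⟨rfl, c5_3_2, rfl, t5_3_2⟩⟩
theorem k296068 : PK false tr.get 296068 := ⟨⟨rfl, c5_4_1, rfl, t5_4_1⟩, ⟨rfl, c4_5_1, rfl, t4_5_1⟩, ⟨rfl, c4_4_2, rfl, t4_4_2⟩⟩
theorem k296099 : PK false tr.get 296099 := ⟨⟨rfl, c4_5_1, rfl, t4_5_1⟩, ⟨rfl, c3_6_1, rfl, t3_6_1⟩, ⟨rfl, c3_5_2, rfl, t3_5_2⟩⟩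
theorem k296130 : PK false tr.get 296130 := ⟨⟨rfl, c3_6_1, rfl, t3_6_1⟩, ⟨rfl, c2_7_1, rfl, t2_7_1⟩, ⟨rfl, c2_6_2, rfl, t2_6_2⟩⟩
theorem k296998 : PK false tr.get 296998 := ⟨⟨rfl, c7_1_2, rfl, t7_1_2⟩, ⟨rfl, c6_2_2, rfl, t6_2_2⟩, ⟨rfl, c6_1_3, rfl, t6_1_3⟩⟩
theorem k297029 : PK false tr.get 297029 := ⟨⟨rfl, c6_2_2, rfl, t6_2_2⟩, ⟨rfl, c5_3_2, rfl, t5_3_2⟩, ⟨rfl, c5_2_3, rfl, t5_2_3⟩⟩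
theorem k297060 : PK false tr.get 297060 := ⟨⟨rfl, c5_3_2, rfl, t5_3_2⟩, ⟨rfl, c4_4_2, rfl, t4_4_2⟩, ⟨rfl, c4_3_3, rfl, t4_3_3⟩⟩
theorem k297091 : PK false tr.get 297091 := ⟨⟨rfl, c4_4_2, rfl, t4_4_2⟩, ⟨rfl, c3_5_2, rfl, t3_5_2⟩, ⟨rfl, c3_4_3, rfl, t3_4_3⟩⟩
theorem k297122 : PK false tr.get 297122 := ⟨⟨rfl, c3_5_2, rfl, t3_5_2⟩, ⟨rfl, c2_6_2, rfl, t2_6_2⟩, ⟨rfl, c2_5_3, rfl, t2_5_3⟩⟩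
theorem k297153 : PK false tr.get 297153 := ⟨⟨rfl, c2_6_2, rfl, t2_6_2⟩, ⟨rfl, c1_7_2, rfl, t1_7_2⟩, ⟨rfl, c1_6_3, rfl, t1_6_3⟩⟩
theorem k297990 : PK false tr.get 297990 := ⟨⟨rfl, c7_0_3, rfl, t7_0_3⟩, ⟨rfl, c6_1_3, rfl, t6_1_3⟩, ⟨rfl, c6_0_4, rfl, t6_0_4⟩⟩
theorem k298021 : PK false tr.get 298021 := ⟨⟨rfl, c6_1_3, rfl, t6_1_3⟩, ⟨rfl, c5_2_3, rfl, t5_2_3⟩, ⟨rfl, c5_1_4, rfl, t5_1_4⟩⟩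
theorem k298052 : PK false tr.get 298052 := ⟨⟨rfl, c5_2_3, rfl, t5_2_3⟩, ⟨rfl, c4_3_3, rfl, t4_3_3⟩, ⟨rfl, c4_2_4, rfl, t4_2_4⟩⟩
theorem k298083 : PK false tr.get 298083 := ⟨⟨rfl, c4_3_3, rfl, t4_3_3⟩, ⟨rfl, c3_4_3, rfl, t3_4_3⟩, ⟨rfl, c3_3_4, rfl, t3_3_4⟩⟩
theorem k298114 : PK false tr.get 298114 := ⟨⟨rfl, c3_4_3, rfl, t3_4_3⟩, ⟨rfl, c2_5_3, rfl, t2_5_3⟩, ⟨rfl, c2_4_4, rfl, t2_4_4⟩⟩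
theorem k298145 : PK false tr.get 298145 := ⟨⟨rfl, c2_5_3, rfl, t2_5_3⟩, ⟨rfl, c1_6_3, rfl, t1_6_3⟩, ⟨rfl, c1_5_4, rfl, t1_5_4⟩⟩
theorem k298176 : PK false tr.get 298176 := ⟨⟨rfl, c1_6_3, rfl, t1_6_3⟩, ⟨rfl, c0_7_3, rfl, t0_7_3⟩, ⟨rfl, c0_6_4, rfl, t0_6_4⟩⟩
theorem k299013 : PK false tr.get 299013 := ⟨⟨rfl, c6_0_4, rfl, t6_0_4⟩, ⟨rfl, c5_1_4, rfl, t5_1_4⟩, ⟨rfl, c5_0_5, rfl, t5_0_5⟩⟩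
theorem k299044 : PK false tr.get 299044 := ⟨⟨rfl, c5_1_4, rfl, t5_1_4⟩, ⟨rfl, c4_2_4, rfl, t4_2_4⟩, ⟨rfl, c4_1_5, rfl, t4_1_5⟩⟩
theorem k299075 : PK false tr.get 299075 := ⟨⟨rfl, c4_2_4, rfl, t4_2_4⟩, ⟨rfl, c3_3_4, rfl, t3_3_4⟩, ⟨rfl, c3_2_5, rfl, t3_2_5⟩⟩
theorem k299106 : PK false tr.get 299106 := ⟨⟨rfl, c3_3_4, rfl, t3_3_4⟩, ⟨rfl, c2_4_4, rfl, t2_4_4⟩, ⟨rfl, c2_3_5, rfl, t2_3_5⟩⟩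
theorem k299137 : PK false tr.get 299137 := ⟨⟨rfl, c2_4_4, rfl, t2_4_4⟩, ⟨rfl, c1_5_4, rfl, t1_5_4⟩, ⟨rfl, c1_4_5, rfl, t1_4_5⟩⟩
theorem k299168 : PK false tr.get 299168 := ⟨⟨rfl, c1_5_4, rfl, t1_5_4⟩, ⟨rfl, c0_6_4, rfl, t0_6_4⟩, ⟨rfl, c0_5_5, rfl, t0_5_5⟩⟩
theorem k300036 : PK false tr.get 300036 := ⟨⟨rfl, c5_0_5, rfl, t5_0_5⟩, ⟨rfl, c4_1_5, rfl, t4_1_5⟩, ⟨rfl, c4_0_6, rfl, t4_0_6⟩⟩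
theorem k300067 : PK false tr.get 300067 := ⟨⟨rfl, c4_1_5, rfl, t4_1_5⟩, ⟨rfl, c3_2_5, rfl, t3_2_5⟩, ⟨rfl, c3_1_6, rfl, t3_1_6⟩⟩
theorem k300098 : PK false tr.get 300098 := ⟨⟨rfl, c3_2_5, rfl, t3_2_5⟩, ⟨rfl, c2_3_5, rfl, t2_3_5⟩, ⟨rfl, c2_2_6, rfl, t2_2_6⟩⟩
theorem k300129 : PK false tr.get 300129 := ⟨⟨rfl, c2_3_5, rfl, t2_3_5⟩, ⟨rfl, c1_4_5, rfl, t1_4_5⟩, ⟨rfl, c1_3_6, rfl, t1_3_6⟩⟩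
theorem k300160 : PK false tr.get 300160 := ⟨⟨rfl, c1_4_5, rfl, t1_4_5⟩, ⟨rfl, c0_5_5, rfl, t0_5_5⟩, ⟨rfl, c0_4_6, rfl, t0_4_6⟩⟩
theorem k301059 : PK false tr.get 301059 := ⟨⟨rfl, c4_0_6, rfl, t4_0_6⟩, ⟨rfl, c3_1_6, rfl, t3_1_6⟩, ⟨rfl, c3_0_7, rfl, t3_0_7⟩⟩
theorem k301090 : PK false tr.get 301090 := ⟨⟨rfl, c3_1_6, rfl, t3_1_6⟩, ⟨rfl, c2_2_6, rfl, t2_2_6⟩, ⟨rfl, c2_1_7, rfl, t2_1_7⟩⟩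
theorem k301121 : PK false tr.get 301121 := ⟨⟨rfl, c2_2_6, rfl, t2_2_6⟩, ⟨rfl, c1_3_6, rfl, t1_3_6⟩, ⟨rfl, c1_2_7, rfl, t1_2_7⟩⟩
theorem k301152 : PK false tr.get 301152 := ⟨⟨rfl, c1_3_6, rfl, t1_3_6⟩, ⟨rfl, c0_4_6, rfl, t0_4_6⟩, ⟨rfl, c0_3_7, rfl, t0_3_7⟩⟩
theorem k327814 : PK false tr.get 327814 := ⟨⟨rfl, c7_4_0, rfl, t7_4_0⟩, ⟨rfl, c6_5_0, rfl, t6_5_0⟩, ⟨rfl, c6_4_1, rfl, t6_4_1⟩⟩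
theorem k327845 : PK false tr.get 327845 := ⟨⟨rfl, c6_5_0, rfl, t6_5_0⟩, ⟨rfl, c5_6_0, rfl, t5_6_0⟩, ⟨rfl, c5_5_1, rfl, t5_5_1⟩⟩
theorem k327876 : PK false tr.get 327876 := ⟨⟨rfl, c5_6_0, rfl, t5_6_0⟩, ⟨rfl, c4_7_0, rfl, t4_7_0⟩, ⟨rfl, c4_6_1, rfl, t4_6_1⟩⟩
theorem k328806 : PK false tr.get 328806 := ⟨⟨rfl, c7_3_1, rfl, t7_3_1⟩, ⟨rfl, c6_4_1, rfl, t6_4_1⟩, ⟨rfl, c6_3_2, rfl, t6_3_2⟩⟩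
theorem k328837 : PK false tr.get 328837 := ⟨⟨rfl, c6_4_1, rfl, t6_4_1⟩, ⟨rfl, c5_5_1, rfl, t5_5_1⟩, ⟨rfl, c5_4_2, rfl, t5_4_2⟩⟩
theorem k328868 : PK false tr.get 328868 := ⟨⟨rfl, c5_5_1, rfl, t5_5_1⟩, ⟨rfl, c4_6_1, rfl, t4_6_1⟩, ⟨rfl, c4_5_2, rfl, t4_5_2⟩⟩
theorem k328899 : PK false tr.get 328899 := ⟨⟨rfl, c4_6_1, rfl, t4_6_1⟩, ⟨rfl, c3_7_1, rfl, t3_7_1⟩, ⟨rfl, c3_6_2, rfl, t3_6_2⟩⟩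
theorem k329798 : PK false tr.get 329798 := ⟨⟨rfl, c7_2_2, rfl, t7_2_2⟩, ⟨rfl, c6_3_2, rfl, t6_3_2⟩, ⟨rfl, c6_2_3, rfl, t6_2_3⟩⟩
theorem k329829 : PK false tr.get 329829 := ⟨⟨rfl, c6_3_2, rfl, t6_3_2⟩, ⟨rfl, c5_4_2, rfl, t5_4_2⟩, ⟨rfl, c5_3_3, rfl, t5_3_3⟩⟩
theorem k329860 : PK false tr.get 329860 := ⟨⟨rfl, c5_4_2, rfl, t5_4_2⟩, ⟨rfl, c4_5_2, rfl, t4_5_2⟩, ⟨rfl, c4_4_3, rfl, t4_4_3⟩⟩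
theorem k329891 : PK false tr.get 329891 := ⟨⟨rfl, c4_5_2, rfl, t4_5_2⟩, ⟨rfl, c3_6_2, rfl, t3_6_2⟩, ⟨rfl, c3_5_3, rfl, t3_5_3⟩⟩
theorem k329922 : PK false tr.get 329922 := ⟨⟨rfl, c3_6_2, rfl, t3_6_2⟩, ⟨rfl, c2_7_2, rfl, t2_7_2⟩, ⟨rfl, c2_6_3, rfl, t2_6_3⟩⟩
theorem k330790 : PK false tr.get 330790 := ⟨⟨rfl, c7_1_3, rfl, t7_1_3⟩, ⟨rfl, c6_2_3, rfl, t6_2_3⟩, ⟨rfl, c6_1_4, rfl, t6_1_4⟩⟩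
theorem k330821 : PK false tr.get 330821 := ⟨⟨rfl, c6_2_3, rfl, t6_2_3⟩, ⟨rfl, c5_3_3, rfl, t5_3_3⟩, ⟨rfl, c5_2_4, rfl, t5_2_4⟩⟩
theorem k330852 : PK false tr.get 330852 := ⟨⟨rfl, c5_3_3, rfl, t5_3_3⟩, ⟨rfl, c4_4_3, rfl, t4_4_3⟩, ⟨rfl, c4_3_4, rfl, t4_3_4⟩⟩
theorem k330883 : PK false tr.get 330883 := ⟨⟨rfl, c4_4_3, rfl, t4_4_3⟩, ⟨rfl, c3_5_3, rfl, t3_5_3⟩, ⟨rfl, c3_4_4, rfl, t3_4_4⟩⟩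
theorem k330914 : PK false tr.get 330914 := ⟨⟨rfl, c3_5_3, rfl, t3_5_3⟩, ⟨rfl, c2_6_3, rfl, t2_6_3⟩, ⟨rfl, c2_5_4, rfl, t2_5_4⟩⟩
theorem k330945 : PK false tr.get 330945 := ⟨⟨rfl, c2_6_3, rfl, t2_6_3⟩, ⟨rfl, c1_7_3, rfl, t1_7_3⟩, ⟨rfl, c1_6_4, rfl, t1_6_4⟩⟩
theorem k331782 : PK false tr.get 331782 := ⟨⟨rfl, c7_0_4, rfl, t7_0_4⟩, ⟨rfl, c6_1_4, rfl, t6_1_4⟩, ⟨rfl, c6_0_5, rfl, t6_0_5⟩⟩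
theorem k331813 : PK false tr.get 331813 := ⟨⟨rfl, c6_1_4, rfl, t6_1_4⟩, ⟨rfl, c5_2_4, rfl, t5_2_4⟩, ⟨rfl, c5_1_5, rfl, t5_1_5⟩⟩
theorem k331844 : PK false tr.get 331844 := ⟨⟨rfl, c5_2_4, rfl, t5_2_4⟩, ⟨rfl, c4_3_4, rfl, t4_3_4⟩, ⟨rfl, c4_2_5, rfl, t4_2_5⟩⟩
theorem k331875 : PK false tr.get 331875 := ⟨⟨rfl, c4_3_4, rfl, t4_3_4⟩, ⟨rfl, c3_4_4, rfl, t3_4_4⟩, ⟨rfl, c3_3_5, rfl, t3_3_5⟩⟩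
theorem k331906 : PK false tr.get 331906 := ⟨⟨rfl, c3_4_4, rfl, t3_4_4⟩, ⟨rfl, c2_5_4, rfl, t2_5_4⟩, ⟨rfl, c2_4_5, rfl, t2_4_5⟩⟩
theorem k331937 : PK false tr.get 331937 := ⟨⟨rfl, c2_5_4, rfl, t2_5_4⟩, ⟨rfl, c1_6_4, rfl, t1_6_4⟩, ⟨rfl, c1_5_5, rfl, t1_5_5⟩⟩
theorem k331968 : PK false tr.get 331968 := ⟨⟨rfl, c1_6_4, rfl, t1_6_4⟩, ⟨rfl, c0_7_4, rfl, t0_7_4⟩, ⟨rfl, c0_6_5, rfl, t0_6_5⟩⟩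
theorem k332805 : PK false tr.get 332805 := ⟨⟨rfl, c6_0_5, rfl, t6_0_5⟩, ⟨rfl, c5_1_5, rfl, t5_1_5⟩, ⟨rfl, c5_0_6, rfl, t5_0_6⟩⟩
theorem k332836 : PK false tr.get 332836 := ⟨⟨rfl, c5_1_5, rfl, t5_1_5⟩, ⟨rfl, c4_2_5, rfl, t4_2_5⟩, ⟨rfl, c4_1_6, rfl, t4_1_6⟩⟩
theorem k332867 : PK false tr.get 332867 := ⟨⟨rfl, c4_2_5, rfl, t4_2_5⟩, ⟨rfl, c3_3_5, rfl, t3_3_5⟩, ⟨rfl, c3_2_6, rfl, t3_2_6⟩⟩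
theorem k332898 : PK false tr.get 332898 := ⟨⟨rfl, c3_3_5, rfl, t3_3_5⟩, ⟨rfl, c2_4_5, rfl, t2_4_5⟩, ⟨rfl, c2_3_6, rfl, t2_3_6⟩⟩
theorem k332929 : PK false tr.get 332929 := ⟨⟨rfl, c2_4_5, rfl, t2_4_5⟩, ⟨rfl, c1_5_5, rfl, t1_5_5⟩, ⟨rfl, c1_4_6, rfl, t1_4_6⟩⟩
theorem k332960 : PK false tr.get 332960 := ⟨⟨rfl, c1_5_5, rfl, t1_5_5⟩, ⟨rfl, c0_6_5, rfl, t0_6_5⟩, ⟨rfl, c0_5_6, rfl, t0_5_6⟩⟩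
theorem k333828 : PK false tr.get 333828 := ⟨⟨rfl, c5_0_6, rfl, t5_0_6⟩, ⟨rfl, c4_1_6, rfl, t4_1_6⟩, ⟨rfl, c4_0_7, rfl, t4_0_7⟩⟩
theorem k333859 : PK false tr.get 333859 := ⟨⟨rfl, c4_1_6, rfl, t4_1_6⟩, ⟨rfl, c3_2_6, rfl, t3_2_6⟩, ⟨rfl, c3_1_7, rfl, t3_1_7⟩⟩
theorem k333890 : PK false tr.get 333890 := ⟨⟨rfl, c3_2_6, rfl, t3_2_6⟩, ⟨rfl, c2_3_6, rfl, t2_3_6⟩, ⟨rfl, c2_2_7, rfl, t2_2_7⟩⟩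
theorem k333921 : PK false tr.get 333921 := ⟨⟨rfl, c2_3_6, rfl, t2_3_6⟩, ⟨rfl, c1_4_6, rfl, t1_4_6⟩, ⟨rfl, c1_3_7, rfl, t1_3_7⟩⟩
theorem k333952 : PK false tr.get 333952 := ⟨⟨rfl, c1_4_6, rfl, t1_4_6⟩, ⟨rfl, c0_5_6, rfl, t0_5_6⟩, ⟨rfl, c0_4_7, rfl, t0_4_7⟩⟩
theorem k360614 : PK false tr.get 360614 := ⟨⟨rfl, c7_5_0, rfl, t7_5_0⟩, ⟨rfl, c6_6_0, rfl, t6_6_0⟩, ⟨rfl, c6_5_1, rfl, t6_5_1⟩⟩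
theorem k360645 : PK false tr.get 360645 := ⟨⟨rfl, c6_6_0, rfl, t6_6_0⟩, ⟨rfl, c5_7_0, rfl, t5_7_0⟩, ⟨rfl, c5_6_1, rfl, t5_6_1⟩⟩
theorem k361606 : PK false tr.get 361606 := ⟨⟨rfl, c7_4_1, rfl, t7_4_1⟩, ⟨rfl, c6_5_1, rfl, t6_5_1⟩, ⟨rfl, c6_4_2, rfl, t6_4_2⟩⟩
theorem k361637 : PK false tr.get 361637 := ⟨⟨rfl, c6_5_1, rfl, t6_5_1⟩, ⟨rfl, c5_6_1, rfl, t5_6_1⟩, ⟨rfl, c5_5_2, rfl, t5_5_2⟩⟩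
theorem k361668 : PK false tr.get 361668 := ⟨⟨rfl, c5_6_1, rfl, t5_6_1⟩, ⟨rfl, c4_7_1, rfl, t4_7_1⟩, ⟨rfl, c4_6_2, rfl, t4_6_2⟩⟩
theorem k362598 : PK false tr.get 362598 := ⟨⟨rfl, c7_3_2, rfl, t7_3_2⟩, ⟨rfl, c6_4_2, rfl, t6_4_2⟩, ⟨rfl, c6_3_3, rfl, t6_3_3⟩⟩
theorem k362629 : PK false tr.get 362629 := ⟨⟨rfl, c6_4_2, rfl, t6_4_2⟩, ⟨rfl, c5_5_2, rfl, t5_5_2⟩, ⟨rfl, c5_4_3, rfl, t5_4_3⟩⟩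
theorem k362660 : PK false tr.get 362660 := ⟨⟨rfl, c5_5_2, rfl, t5_5_2⟩, ⟨rfl, c4_6_2, rfl, t4_6_2⟩, ⟨rfl, c4_5_3, rfl, t4_5_3⟩⟩
theorem k362691 : PK false tr.get 362691 := ⟨⟨rfl, c4_6_2, rfl, t4_6_2⟩, ⟨rfl, c3_7_2, rfl, t3_7_2⟩, ⟨rfl, c3_6_3, rfl, t3_6_3⟩⟩
theorem k363590 : PK false tr.get 363590 := ⟨⟨rfl, c7_2_3, rfl, t7_2_3⟩, ⟨rfl, c6_3_3, rfl, t6_3_3⟩, ⟨rfl, c6_2_4, rfl, t6_2_4⟩⟩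
theorem k363621 : PK false tr.get 363621 := ⟨⟨rfl, c6_3_3, rfl, t6_3_3⟩, ⟨rfl, c5_4_3, rfl, t5_4_3⟩, ⟨rfl, c5_3_4, rfl, t5_3_4⟩⟩
theorem k363652 : PK false tr.get 363652 := ⟨⟨rfl, c5_4_3, rfl, t5_4_3⟩, ⟨rfl, c4_5_3, rfl, t4_5_3⟩, ⟨rfl, c4_4_4, rfl, t4_4_4⟩⟩
theorem k363683 : PK false tr.get 363683 := ⟨⟨rfl, c4_5_3, rfl, t4_5_3⟩, ⟨rfl, c3_6_3, rfl, t3_6_3⟩, ⟨rfl, c3_5_4, rfl, t3_5_4⟩⟩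
theorem k363714 : PK false tr.get 363714 := ⟨⟨rfl, c3_6_3, rfl, t3_6_3⟩, ⟨rfl, c2_7_3, rfl, t2_7_3⟩, ⟨rfl, c2_6_4, rfl, t2_6_4⟩⟩
theorem k364582 : PK false tr.get 364582 := ⟨⟨rfl, c7_1_4, rfl, t7_1_4⟩, ⟨rfl, c6_2_4, rfl, t6_2_4⟩, ⟨rfl, c6_1_5, rfl, t6_1_5⟩⟩
theorem k364613 : PK false tr.get 364613 := ⟨⟨rfl, c6_2_4, rfl, t6_2_4⟩, ⟨rfl, c5_3_4, rfl, t5_3_4⟩, ⟨rfl, c5_2_5, rfl, t5_2_5⟩⟩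
theorem k364644 : PK false tr.get 364644 := ⟨⟨rfl, c5_3_4, rfl, t5_3_4⟩, ⟨rfl, c4_4_4, rfl, t4_4_4⟩, ⟨rfl, c4_3_5, rfl, t4_3_5⟩⟩
theorem k364675 : PK false tr.get 364675 := ⟨⟨rfl, c4_4_4, rfl, t4_4_4⟩, ⟨rfl, c3_5_4, rfl, t3_5_4⟩, ⟨rfl, c3_4_5, rfl, t3_4_5⟩⟩
theorem k364706 : PK false tr.get 364706 := ⟨⟨rfl, c3_5_4, rfl, t3_5_4⟩, ⟨rfl, c2_6_4, rfl, t2_6_4⟩, ⟨rfl, c2_5_5, rfl, t2_5_5⟩⟩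
theorem k364737 : PK false tr.get 364737 := ⟨⟨rfl, c2_6_4, rfl, t2_6_4⟩, ⟨rfl, c1_7_4, rfl, t1_7_4⟩, ⟨rfl, c1_6_5, rfl, t1_6_5⟩⟩
theorem k365574 : PK false tr.get 365574 := ⟨⟨rfl, c7_0_5, rfl, t7_0_5⟩, ⟨rfl, c6_1_5, rfl, t6_1_5⟩, ⟨rfl, c6_0_6, rfl, t6_0_6⟩⟩
theorem k365605 : PK false tr.get 365605 := ⟨⟨rfl, c6_1_5, rfl, t6_1_5⟩, ⟨rfl, c5_2_5, rfl, t5_2_5⟩, ⟨rfl, c5_1_6, rfl, t5_1_6⟩⟩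
theorem k365636 : PK false tr.get 365636 := ⟨⟨rfl, c5_2_5, rfl, t5_2_5⟩, ⟨rfl, c4_3_5, rfl, t4_3_5⟩, ⟨rfl, c4_2_6, rfl, t4_2_6⟩⟩
theorem k365667 : PK false tr.get 365667 := ⟨⟨rfl, c4_3_5, rfl, t4_3_5⟩, ⟨rfl, c3_4_5, rfl, t3_4_5⟩, ⟨rfl, c3_3_6, rfl, t3_3_6⟩⟩
theorem k365698 : PK false tr.get 365698 := ⟨⟨rfl, c3_4_5, rfl, t3_4_5⟩, ⟨rfl, c2_5_5, rfl, t2_5_5⟩, ⟨rfl, c2_4_6, rfl, t2_4_6⟩⟩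
theorem k365729 : PK false tr.get 365729 := ⟨⟨rfl, c2_5_5, rfl, t2_5_5⟩, ⟨rfl, c1_6_5, rfl, t1_6_5⟩, ⟨rfl, c1_5_6, rfl, t1_5_6⟩⟩
theorem k365760 : PK false tr.get 365760 := ⟨⟨rfl, c1_6_5, rfl, t1_6_5⟩, ⟨rfl, c0_7_5, rfl, t0_7_5⟩, ⟨rfl, c0_6_6, rfl, t0_6_6⟩⟩
theorem k366597 : PK false tr.get 366597 := ⟨⟨rfl, c6_0_6, rfl, t6_0_6⟩, ⟨rfl, c5_1_6, rfl, t5_1_6⟩, ⟨rfl, c5_0_7, rfl, t5_0_7⟩⟩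
theorem k366628 : PK false tr.get 366628 := ⟨⟨rfl, c5_1_6, rfl, t5_1_6⟩, ⟨rfl, c4_2_6, rfl, t4_2_6⟩, ⟨rfl, c4_1_7, rfl, t4_1_7⟩⟩
theorem k366659 : PK false tr.get 366659 := ⟨⟨rfl, c4_2_6, rfl, t4_2_6⟩, ⟨rfl, c3_3_6, rfl, t3_3_6⟩, ⟨rfl, c3_2_7, rfl, t3_2_7⟩⟩
theorem k366690 : PK false tr.get 366690 := ⟨⟨rfl, c3_3_6, rfl, t3_3_6⟩, ⟨rfl, c2_4_6, rfl, t2_4_6⟩, ⟨rfl, c2_3_7, rfl, t2_3_7⟩⟩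
theorem k366721 : PK false tr.get 366721 := ⟨⟨rfl, c2_4_6, rfl, t2_4_6⟩, ⟨rfl, c1_5_6, rfl, t1_5_6⟩, ⟨rfl, c1_4_7, rfl, t1_4_7⟩⟩
theorem k366752 : PK false tr.get 366752 := ⟨⟨rfl, c1_5_6, rfl, t1_5_6⟩, ⟨rfl, c0_6_6, rfl, t0_6_6⟩, ⟨rfl, c0_5_7, rfl, t0_5_7⟩⟩
theorem k393414 : PK false tr.get 393414 := ⟨⟨rfl, c7_6_0, rfl, t7_6_0⟩, ⟨rfl, c6_7_0, rfl, t6_7_0⟩, ⟨rfl, c6_6_1, rfl, t6_6_1⟩⟩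
theorem k394406 : PK false tr.get 394406 := ⟨⟨rfl, c7_5_1, rfl, t7_5_1⟩, ⟨rfl, c6_6_1, rfl, t6_6_1⟩, ⟨rfl, c6_5_2, rfl, t6_5_2⟩⟩
theorem k394437 : PK false tr.get 394437 := ⟨⟨rfl, c6_6_1, rfl, t6_6_1⟩, ⟨rfl, c5_7_1, rfl, t5_7_1⟩, ⟨rfl, c5_6_2, rfl, t5_6_2⟩⟩
theorem k395398 : PK false tr.get 395398 := ⟨⟨rfl, c7_4_2, rfl, t7_4_2⟩, ⟨rfl, c6_5_2, rfl, t6_5_2⟩, ⟨rfl, c6_4_3, rfl, t6_4_3⟩⟩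
theorem k395429 : PK false tr.get 395429 := ⟨⟨rfl, c6_5_2, rfl, t6_5_2⟩, ⟨rfl, c5_6_2, rfl, t5_6_2⟩, ⟨rfl, c5_5_3, rfl, t5_5_3⟩⟩
theorem k395460 : PK false tr.get 395460 := ⟨⟨rfl, c5_6_2, rfl, t5_6_2⟩, ⟨rfl, c4_7_2, rfl, t4_7_2⟩, ⟨rfl, c4_6_3, rfl, t4_6_3⟩⟩
theorem k396390 : PK false tr.get 396390 := ⟨⟨rfl, c7_3_3, rfl, t7_3_3⟩, ⟨rfl, c6_4_3, rfl, t6_4_3⟩, ⟨rfl, c6_3_4, rfl, t6_3_4⟩⟩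
theorem k396421 : PK false tr.get 396421 := ⟨⟨rfl, c6_4_3, rfl, t6_4_3⟩, ⟨rfl, c5_5_3, rfl, t5_5_3⟩, ⟨rfl, c5_4_4, rfl, t5_4_4⟩⟩
theorem k396452 : PK false tr.get 396452 := ⟨⟨rfl, c5_5_3, rfl, t5_5_3⟩, ⟨rfl, c4_6_3, rfl, t4_6_3⟩, ⟨rfl, c4_5_4, rfl, t4_5_4⟩⟩
theorem k396483 : PK false tr.get 396483 := ⟨⟨rfl, c4_6_3, rfl, t4_6_3⟩, ⟨rfl, c3_7_3, rfl, t3_7_3⟩, ⟨rfl, c3_6_4, rfl, t3_6_4⟩⟩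
theorem k397382 : PK false tr.get 397382 := ⟨⟨rfl, c7_2_4, rfl, t7_2_4⟩, ⟨rfl, c6_3_4, rfl, t6_3_4⟩, ⟨rfl, c6_2_5, rfl, t6_2_5⟩⟩
theorem k397413 : PK false tr.get 397413 := ⟨⟨rfl, c6_3_4, rfl, t6_3_4⟩, ⟨rfl, c5_4_4, rfl, t5_4_4⟩, ⟨rfl, c5_3_5, rfl, t5_3_5⟩⟩
theorem k397444 : PK false tr.get 397444 := ⟨⟨rfl, c5_4_4, rfl, t5_4_4⟩, ⟨rfl, c4_5_4, rfl, t4_5_4⟩, ⟨rfl, c4_4_5, rfl, t4_4_5⟩⟩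
theorem k397475 : PK false tr.get 397475 := ⟨⟨rfl, c4_5_4, rfl, t4_5_4⟩, ⟨rfl, c3_6_4, rfl, t3_6_4⟩, ⟨rfl, c3_5_5, rfl, t3_5_5⟩⟩
theorem k397506 : PK false tr.get 397506 := ⟨⟨rfl, c3_6_4, rfl, t3_6_4⟩, ⟨rfl, c2_7_4, rfl, t2_7_4⟩, ⟨rfl, c2_6_5, rfl, t2_6_5⟩⟩
theorem k398374 : PK false tr.get 398374 := ⟨⟨rfl, c7_1_5, rfl, t7_1_5⟩, ⟨rfl, c6_2_5, rfl, t6_2_5⟩, ⟨rfl, c6_1_6, rfl, t6_1_6⟩⟩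
theorem k398405 : PK false tr.get 398405 := ⟨⟨rfl, c6_2_5, rfl, t6_2_5⟩, ⟨rfl, c5_3_5, rfl, t5_3_5⟩, ⟨rfl, c5_2_6, rfl, t5_2_6⟩⟩
theorem k398436 : PK false tr.get 398436 := ⟨⟨rfl, c5_3_5, rfl, t5_3_5⟩, ⟨rfl, c4_4_5, rfl, t4_4_5⟩, ⟨rfl, c4_3_6, rfl, t4_3_6⟩⟩
theorem k398467 : PK false tr.get 398467 := ⟨⟨rfl, c4_4_5, rfl, t4_4_5⟩, ⟨rfl, c3_5_5, rfl, t3_5_5⟩, ⟨rfl, c3_4_6, rfl, t3_4_6⟩⟩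
theorem k398498 : PK false tr.get 398498 := ⟨⟨rfl, c3_5_5, rfl, t3_5_5⟩, ⟨rfl, c2_6_5, rfl, t2_6_5⟩, ⟨rfl, c2_5_6, rfl, t2_5_6⟩⟩
theorem k398529 : PK false tr.get 398529 := ⟨⟨rfl, c2_6_5, rfl, t2_6_5⟩, ⟨rfl, c1_7_5, rfl, t1_7_5⟩, ⟨rfl, c1_6_6, rfl, t1_6_6⟩⟩
theorem k399366 : PK false tr.get 399366 := ⟨⟨rfl, c7_0_6, rfl, t7_0_6⟩, ⟨rfl, c6_1_6, rfl, t6_1_6⟩, ⟨rfl, c6_0_7, rfl, t6_0_7⟩⟩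
theorem k399397 : PK false tr.get 399397 := ⟨⟨rfl, c6_1_6, rfl, t6_1_6⟩, ⟨rfl, c5_2_6, rfl, t5_2_6⟩, ⟨rfl, c5_1_7, rfl, t5_1_7⟩⟩
theorem k399428 : PK false tr.get 399428 := ⟨⟨rfl, c5_2_6, rfl, t5_2_6⟩, ⟨rfl, c4_3_6, rfl, t4_3_6⟩, ⟨rfl, c4_2_7, rfl, t4_2_7⟩⟩
theorem k399459 : PK false tr.get 399459 := ⟨⟨rfl, c4_3_6, rfl, t4_3_6⟩, ⟨rfl, c3_4_6, rfl, t3_4_6⟩, ⟨rfl, c3_3_7, rfl, t3_3_7⟩⟩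
theorem k399490 : PK false tr.get 399490 := ⟨⟨rfl, c3_4_6, rfl, t3_4_6⟩, ⟨rfl, c2_5_6, rfl, t2_5_6⟩, ⟨rfl, c2_4_7, rfl, t2_4_7⟩⟩
theorem k399521 : PK false tr.get 399521 := ⟨⟨rfl, c2_5_6, rfl, t2_5_6⟩, ⟨rfl, c1_6_6, rfl, t1_6_6⟩, ⟨rfl, c1_5_7, rfl, t1_5_7⟩⟩
theorem k399552 : PK false tr.get 399552 := ⟨⟨rfl, c1_6_6, rfl, t1_6_6⟩, ⟨rfl, c0_7_6, rfl, t0_7_6⟩, ⟨rfl, c0_6_7, rfl, t0_6_7⟩⟩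
theorem k428198 : PK false tr.get 428198 := ⟨⟨rfl, c7_5_2, rfl, t7_5_2⟩, ⟨rfl, c6_6_2, rfl, t6_6_2⟩, ⟨rfl, c6_5_3, rfl, t6_5_3⟩⟩
theorem k428229 : PK false tr.get 428229 := ⟨⟨rfl, c6_6_2, rfl, t6_6_2⟩, ⟨rfl, c5_7_2, rfl, t5_7_2⟩, ⟨rfl, c5_6_3, rfl, t5_6_3⟩⟩
theorem k429190 : PK false tr.get 429190 := ⟨⟨rfl, c7_4_3, rfl, t7_4_3⟩, ⟨rfl, c6_5_3, rfl, t6_5_3⟩, ⟨rfl, c6_4_4, rfl, t6_4_4⟩⟩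
theorem k429221 : PK false tr.get 429221 := ⟨⟨rfl, c6_5_3, rfl, t6_5_3⟩, ⟨rfl, c5_6_3, rfl, t5_6_3⟩, ⟨rfl, c5_5_4, rfl, t5_5_4⟩⟩
theorem k429252 : PK false tr.get 429252 := ⟨⟨rfl, c5_6_3, rfl, t5_6_3⟩, ⟨rfl, c4_7_3, rfl, t4_7_3⟩, ⟨rfl, c4_6_4, rfl, t4_6_4⟩⟩
theorem k430182 : PK false tr.get 430182 := ⟨⟨rfl, c7_3_4, rfl, t7_3_4⟩, ⟨rfl, c6_4_4, rfl, t6_4_4⟩, ⟨rfl, c6_3_5, rfl, t6_3_5⟩⟩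
theorem k430213 : PK false tr.get 430213 := ⟨⟨rfl, c6_4_4, rfl, t6_4_4⟩, ⟨rfl, c5_5_4, rfl, t5_5_4⟩, ⟨rfl, c5_4_5, rfl, t5_4_5⟩⟩
theorem k430244 : PK false tr.get 430244 := ⟨⟨rfl, c5_5_4, rfl, t5_5_4⟩, ⟨rfl, c4_6_4, rfl, t4_6_4⟩, ⟨rfl, c4_5_5, rfl, t4_5_5⟩⟩
theorem k430275 : PK false tr.get 430275 := ⟨⟨rfl, c4_6_4, rfl, t4_6_4⟩, ⟨rfl, c3_7_4, rfl, t3_7_4⟩, ⟨rfl, c3_6_5, rfl, t3_6_5⟩⟩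
theorem k431174 : PK false tr.get 431174 := ⟨⟨rfl, c7_2_5, rfl, t7_2_5⟩, ⟨rfl, c6_3_5, rfl, t6_3_5⟩, ⟨rfl, c6_2_6, rfl, t6_2_6⟩⟩
theorem k431205 : PK false tr.get 431205 := ⟨⟨rfl, c6_3_5, rfl, t6_3_5⟩, ⟨rfl, c5_4_5, rfl, t5_4_5⟩, ⟨rfl, c5_3_6, rfl, t5_3_6⟩⟩
theorem k431236 : PK false tr.get 431236 := ⟨⟨rfl, c5_4_5, rfl, t5_4_5⟩, ⟨rfl, c4_5_5, rfl, t4_5_5⟩, ⟨rfl, c4_4_6, rfl, t4_4_6⟩⟩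
theorem k431267 : PK false tr.get 431267 := ⟨⟨rfl, c4_5_5, rfl, t4_5_5⟩, ⟨rfl, c3_6_5, rfl, t3_6_5⟩, ⟨rfl, c3_5_6, rfl, t3_5_6⟩⟩
theorem k431298 : PK false tr.get 431298 := ⟨⟨rfl, c3_6_5, rfl, t3_6_5⟩, ⟨rfl, c2_7_5, rfl, t2_7_5⟩, ⟨rfl, c2_6_6, rfl, t2_6_6⟩⟩
theorem k432197 : PK false tr.get 432197 := ⟨⟨rfl, c6_2_6, rfl, t6_2_6⟩, ⟨rfl, c5_3_6, rfl, t5_3_6⟩, ⟨rfl, c5_2_7, rfl, t5_2_7⟩⟩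
theorem k432228 : PK false tr.get 432228 := ⟨⟨rfl, c5_3_6, rfl, t5_3_6⟩, ⟨rfl, c4_4_6, rfl, t4_4_6⟩, ⟨rfl, c4_3_7, rfl, t4_3_7⟩⟩
theorem k432259 : PK false tr.get 432259 := ⟨⟨rfl, c4_4_6, rfl, t4_4_6⟩, ⟨rfl, c3_5_6, rfl, t3_5_6⟩, ⟨rfl, c3_4_7, rfl, t3_4_7⟩⟩
theorem k432290 : PK false tr.get 432290 := ⟨⟨rfl, c3_5_6, rfl, t3_5_6⟩, ⟨rfl, c2_6_6, rfl, t2_6_6⟩, ⟨rfl, c2_5_7, rfl, t2_5_7⟩⟩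
theorem k460998 : PK false tr.get 460998 := ⟨⟨rfl, c7_6_2, rfl, t7_6_2⟩, ⟨rfl, c6_7_2, rfl, t6_7_2⟩, ⟨rfl, c6_6_3, rfl, t6_6_3⟩⟩
theorem k461990 : PK false tr.get 461990 := ⟨⟨rfl, c7_5_3, rfl, t7_5_3⟩, ⟨rfl, c6_6_3, rfl, t6_6_3⟩, ⟨rfl, c6_5_4, rfl, t6_5_4⟩⟩
theorem k462021 : PK false tr.get 462021 := ⟨⟨rfl, c6_6_3, rfl, t6_6_3⟩, ⟨rfl, c5_7_3, rfl, t5_7_3⟩, ⟨rfl, c5_6_4, rfl, t5_6_4⟩⟩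
theorem k462982 : PK false tr.get 462982 := ⟨⟨rfl, c7_4_4, rfl, t7_4_4⟩, ⟨rfl, c6_5_4, rfl, t6_5_4⟩, ⟨rfl, c6_4_5, rfl, t6_4_5⟩⟩
theorem k463013 : PK false tr.get 463013 := ⟨⟨rfl, c6_5_4, rfl, t6_5_4⟩, ⟨rfl, c5_6_4, rfl, t5_6_4⟩, ⟨rfl, c5_5_5, rfl, t5_5_5⟩⟩
theorem k463044 : PK false tr.get 463044 := ⟨⟨rfl, c5_6_4, rfl, t5_6_4⟩, ⟨rfl, c4_7_4, rfl, t4_7_4⟩, ⟨rfl, c4_6_5, rfl, t4_6_5⟩⟩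
theorem k463974 : PK false tr.get 463974 := ⟨⟨rfl, c7_3_5, rfl, t7_3_5⟩, ⟨rfl, c6_4_5, rfl, t6_4_5⟩, ⟨rfl, c6_3_6, rfl, t6_3_6⟩⟩
theorem k464005 : PK false tr.get 464005 := ⟨⟨rfl, c6_4_5, rfl, t6_4_5⟩, ⟨rfl, c5_5_5, rfl, t5_5_5⟩, ⟨rfl, c5_4_6, rfl, t5_4_6⟩⟩
theorem k464036 : PK false tr.get 464036 := ⟨⟨rfl, c5_5_5, rfl, t5_5_5⟩, ⟨rfl, c4_6_5, rfl, t4_6_5⟩, ⟨rfl, c4_5_6, rfl, t4_5_6⟩⟩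
theorem k464067 : PK false tr.get 464067 := ⟨⟨rfl, c4_6_5, rfl, t4_6_5⟩, ⟨rfl, c3_7_5, rfl, t3_7_5⟩, ⟨rfl, c3_6_6, rfl, t3_6_6⟩⟩
theorem k464966 : PK false tr.get 464966 := ⟨⟨rfl, c7_2_6, rfl, t7_2_6⟩, ⟨rfl, c6_3_6, rfl, t6_3_6⟩, ⟨rfl, c6_2_7, rfl, t6_2_7⟩⟩
theorem k464997 : PK false tr.get 464997 := ⟨⟨rfl, c6_3_6, rfl, t6_3_6⟩, ⟨rfl, c5_4_6, rfl, t5_4_6⟩, ⟨rfl, c5_3_7, rfl, t5_3_7⟩⟩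
theorem k465028 : PK false tr.get 465028 := ⟨⟨rfl, c5_4_6, rfl, t5_4_6⟩, ⟨rfl, c4_5_6, rfl, t4_5_6⟩, ⟨rfl, c4_4_7, rfl, t4_4_7⟩⟩
theorem k465059 : PK false tr.get 465059 := ⟨⟨rfl, c4_5_6, rfl, t4_5_6⟩, ⟨rfl, c3_6_6, rfl, t3_6_6⟩, ⟨rfl, c3_5_7, rfl, t3_5_7⟩⟩
theorem k465090 : PK false tr.get 465090 := ⟨⟨rfl, c3_6_6, rfl, t3_6_6⟩, ⟨rfl, c2_7_6, rfl, t2_7_6⟩, ⟨rfl, c2_6_7, rfl, t2_6_7⟩⟩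
theorem k495782 : PK false tr.get 495782 := ⟨⟨rfl, c7_5_4, rfl, t7_5_4⟩, ⟨rfl, c6_6_4, rfl, t6_6_4⟩, ⟨rfl, c6_5_5, rfl, t6_5_5⟩⟩
theorem k495813 : PK false tr.get 495813 := ⟨⟨rfl, c6_6_4, rfl, t6_6_4⟩, ⟨rfl, c5_7_4, rfl, t5_7_4⟩, ⟨rfl, c5_6_5, rfl, t5_6_5⟩⟩
theorem k496774 : PK false tr.get 496774 := ⟨⟨rfl, c7_4_5, rfl, t7_4_5⟩, ⟨rfl, c6_5_5, rfl, t6_5_5⟩, ⟨rfl, c6_4_6, rfl, t6_4_6⟩⟩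
theorem k496805 : PK false tr.get 496805 := ⟨⟨rfl, c6_5_5, rfl, t6_5_5⟩, ⟨rfl, c5_6_5, rfl, t5_6_5⟩, ⟨rfl, c5_5_6, rfl, t5_5_6⟩⟩
theorem k496836 : PK false tr.get 496836 := ⟨⟨rfl, c5_6_5, rfl, t5_6_5⟩, ⟨rfl, c4_7_5, rfl, t4_7_5⟩, ⟨rfl, c4_6_6, rfl, t4_6_6⟩⟩
theorem k497797 : PK false tr.get 497797 := ⟨⟨rfl, c6_4_6, rfl, t6_4_6⟩, ⟨rfl, c5_5_6, rfl, t5_5_6⟩, ⟨rfl, c5_4_7, rfl, t5_4_7⟩⟩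
theorem k497828 : PK false tr.get 497828 := ⟨⟨rfl, c5_5_6, rfl, t5_5_6⟩, ⟨rfl, c4_6_6, rfl, t4_6_6⟩, ⟨rfl, c4_5_7, rfl, t4_5_7⟩⟩
theorem k529574 : PK false tr.get 529574 := ⟨⟨rfl, c7_5_5, rfl, t7_5_5⟩, ⟨rfl, c6_6_5, rfl, t6_6_5⟩, ⟨rfl, c6_5_6, rfl, t6_5_6⟩⟩
theorem k529605 : PK false tr.get 529605 := ⟨⟨rfl, c6_6_5, rfl, t6_6_5⟩, ⟨rfl, c5_7_5, rfl, t5_7_5⟩, ⟨rfl, c5_6_6, rfl, t5_6_6⟩⟩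
theorem k530597 : PK false tr.get 530597 := ⟨⟨rfl, c6_5_6, rfl, t6_5_6⟩, ⟨rfl, c5_6_6, rfl, t5_6_6⟩, ⟨rfl, c5_5_7, rfl, t5_5_7⟩⟩
theorem k562374 : PK false tr.get 562374 := ⟨⟨rfl, c7_6_5, rfl, t7_6_5⟩, ⟨rfl, c6_7_5, rfl, t6_7_5⟩, ⟨rfl, c6_6_6, rfl, t6_6_6⟩⟩
theorem k563366 : PK false tr.get 563366 := ⟨⟨rfl, c7_5_6, rfl, t7_5_6⟩, ⟨rfl, c6_6_6, rfl, t6_6_6⟩, ⟨rfl, c6_5_7, rfl, t6_5_7⟩⟩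
theorem k563397 : PK false tr.get 563397 := ⟨⟨rfl, c6_6_6, rfl, t6_6_6⟩, ⟨rfl, c5_7_6, rfl, t5_7_6⟩, ⟨rfl, c5_6_7, rfl, t5_6_7⟩⟩

theorem all : ∀ k ∈ keys, PK false tr.get k :=
  fa k32769 (fa k32800 (fa k33792 (fa k65569 (fa k66561 (fa k66592 (fa k98338 (fa k98369 (fa k99330 (fa k99361 (fa k99392 (fa k100353 (fa k100384 (fa k131107 (fa k131138 (fa k131169 (fa k132099 (fa k132130 (fa k132161 (fa k132192 (fa k133122 (fa k133153 (fa k133184 (fa k134145 (fa k134176 (fa k163907 (fa k163938 (fa k164899 (fa k164930 (fa k164961 (fa k165891 (fa k165922 (fa k165953 (fa k165984 (fa k166914 (fa k166945 (fa k166976 (fa k196676 (fa k196707 (fa k196738 (fa k197668 (fa k197699 (fa k197730 (fa k197761 (fa k198660 (fa k198691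 (fa k198722 (fa k198753 (fa k198784 (fa k199683 (fa k199714 (fa k199745 (fa k199776 (fa k200706 (fa k200737 (fa k200768 (fa k229476 (fa k229507 (fa k230437 (fa k230468 (fa k230499 (fa k230530 (fa k230561 (fa k231460 (fa k231491 (fa k231522 (fa k231553 (fa k232452 (fa k232483 (fa k232514 (fa k232545 (fa k232576 (fa k233475 (fa k233506 (fa k233537 (fa k233568 (fa k234529 (fa k262245 (fa k262276 (fa k262307 (fa k263237 (fa k263268 (fa k263299 (fa k263330 (fa k264229 (fa k264260 (fa k264291 (fa k264322 (fa k264353 (fa k265221 (fa k265252 (fa k265283 (fa k265314 (fa k265345 (fa k265376 (fa k266244 (fa k266275 (fa k266306 (fa k266337 (fa k266368 (fa k267267 (fa k267298 (fa k267329 (fa k267360 (fa k295014 (fa k295045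 (fa k295076 (fa k295107 (fa k296006 (fa k296037 (fa k296068 (fa k296099 (fa k296130 (fa k296998 (fa k297029 (fa k297060 (fa k297091 (fa k297122 (fa k297153 (fa k297990 (fa k298021 (fa k298052 (fa k298083 (fa k298114 (fa k298145 (fa k298176 (fa k299013 (fa k299044 (fa k299075 (fa k299106 (fa k299137 (fa k299168 (fa k300036 (fa k300067 (fa k300098 (fa k300129 (fa k300160 (fa k301059 (fa k301090 (fa k301121 (fa k301152 (fa k327814 (fa k327845 (fa k327876 (fa k328806 (fa k328837 (fa k328868 (fa k328899 (fa k329798 (fa k329829 (fa k329860 (fa k329891 (fa k329922 (fa k330790 (fa k330821 (fa k330852 (fa k330883 (fa k330914 (fa k330945 (fa k331782 (fa k331813 (fa k331844 (fa k331875 (fa k331906 (fa k331937 (fa k331968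 (fa k332805 (fa k332836 (fa k332867 (fa k332898 (fa k332929 (fa k332960 (fa k333828 (fa k333859 (fa k333890 (fa k333921 (fa k333952 (fa k360614 (fa k360645 (fa k361606 (fa k361637 (fa k361668 (fa k362598 (fa k362629 (fa k362660 (fa k362691 (fa k363590 (fa k363621 (fa k363652 (fa k363683 (fa k363714 (fa k364582 (fa k364613 (fa k364644 (fa k364675 (fa k364706 (fa k364737 (fa k365574 (fa k365605 (fa k365636 (fa k365667 (fa k365698 (fa k365729 (fa k365760 (fa k366597 (fa k366628 (fa k366659 (fa k366690 (fa k366721 (fa k366752 (fa k393414 (fa k394406 (fa k394437 (fa k395398 (fa k395429 (fa k395460 (fa k396390 (fa k396421 (fa k396452 (fa k396483 (fa k397382 (fa k397413 (fa k397444 (fa k397475 (fa k397506 (fa k398374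 (fa k398405 (fa k398436 (fa k398467 (fa k398498 (fa k398529 (fa k399366 (fa k399397 (fa k399428 (fa k399459 (fa k399490 (fa k399521 (fa k399552 (fa k428198 (fa k428229 (fa k429190 (fa k429221 (fa k429252 (fa k430182 (fa k430213 (fa k430244 (fa k430275 (fa k431174 (fa k431205 (fa k431236 (fa k431267 (fa k431298 (fa k432197 (fa k432228 (fa k432259 (fa k432290 (fa k460998 (fa k461990 (fa k462021 (fa k462982 (fa k463013 (fa k463044 (fa k463974 (fa k464005 (fa k464036 (fa k464067 (fa k464966 (fa k464997 (fa k465028 (fa k465059 (fa k465090 (fa k495782 (fa k495813 (fa k496774 (fa k496805 (fa k496836 (fa k497797 (fa k497828 (fa k529574 (fa k529605 (fa k530597 (fa k562374 (fa k563366 (fa k563397 (fn))))))))))))))))))))))))))))))))))))))))))))))))))))))))))))))))))))))))))))))))))))))))))))))))))))))))))))))))))))))))))))))))))))))))))))))))))))))))))))))))))))))))))))))))))))))))))))))))))))))))))))))))))))))))))))))))))))))))))))))))))))))))))))))))))))))))))))))))))))))))))))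

theorem hkeys : tr.keys = keys := by decide +kernel

theorem h1 : (keys.all fun k => okNd (tr.get k)) = true := by decide +kernel

theorem h2 : (keys.all fun k => keyOK 6 6 6 k) = true := by decide +kernel

theorem hg : ((tr.get 32769).codes = [4] ∧ (tr.get 32800).codes = [5]) ∧
    (tr.get 33792).codes = [6] := by decide +kernel

theorem bound {L : Type u} [LieRing L] {Hm : Set L} {x : ℕ → L} (H : Hyp Hm x)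
    (w : List ℕ) (hw : isWd w = true)
    (h : lw x w ≠ 0) : w.count 0 ≤ 6 ∧ w.count 1 ≤ 6 ∧ w.count 2 ≤ 6 :=
  table hkeys h1 hg all H (fun h => absurd h (by decide)) (by norm_num) (by norm_num)
    (by norm_num) h2 w hw h

end Pool.Agent.Y50.FE.BB
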